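import Pool.Agent.H38.BG.TDef
import Pool.Agent.H63.MA.GDisU

/-!
# [H38 BG DUP] the discriminant of the field of a homomorphism from above, 80-120 lines (as disc_up in H63/MA/GDisU). File Pool/Agent/H38/BG/DUp.lean

`dsm_up`: there is `C > 0` such that for all surjective `ρ` of finite type and finite sets `T` of primes outside `S0` such that for `v ∈ T` the `ρ τ`, `τ ∈ inr L v`, are powers of an element `h` with `ind h = indG G`, and `ρ τ = 1` for `τ ∈ inr L v`, `v ∉ S0 ∪ T`: `relDisc K (fieldOf i₀ ρ) ≤ C (∏_{v ∈ T} nm v)^{indG G}`.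

Proof as `disc_up` in `H63/MA/GDisU.lean`: `H38.ML.disc_bound` with `S` = the ideals of the `v ∈ S0` and of the primes containing `n!` (`gdisu_fin`), its `T` = the ideals of the `v ∈ T` outside `S`, `w = indG G`, `𝔓 = (L.ld v _).P` (`inr` by `dif_pos`), `small_field`: `embOrb (fieldOf i₀ ρ) J = orbs (J.map ρ)`. For `v ∈ T`:
`orbs ((inr L v).map ρ) ≥ orbs (zpowers h) = n - ind h` (fewer permutations, more orbits; `orbs ≤ n`, so `ind h + orbs (zpowers h) = n`); for the other `v ∉ S`: `(inr L v).map ρ = ⊥`, `orbs_bot`. (For `v ∈ T` with `v.asIdeal ∈ S` drop it from `T`; `nm v ≥ 1`.)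
-/

set_option autoImplicit false

open scoped NumberField
open IsDedekindDomain H38.ML

noncomputable section

namespace H38.BG

open H63.MA

/-- fewer permutations have more orbits -/
theorem dup_orbs_anti {n : ℕ} {H H' : Subgroup (Equiv.Perm (Fin n))} (h : H ≤ H') :
    orbs H' ≤ orbs H := by
  unfold orbs
  have hfin : Finite (MulAction.orbitRel.Quotient H (Fin n)) := Quotient.finite _
  refine Nat.card_le_card_of_surjective
    (f := fun q : MulAction.orbitRel.Quotient H (Fin n) =>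
      (Quotient.map' (s₁ := MulAction.orbitRel H (Fin n)) (s₂ := MulAction.orbitRel H' (Fin n)) id
        (by
          intro i j hij
          have h1 : i ∈ MulAction.orbit H j := hij
          obtain ⟨⟨m, hm⟩, h2⟩ := MulAction.mem_orbit_iff.1 h1
          exact MulAction.mem_orbit_iff.2 ⟨⟨m, h hm⟩, h2⟩) q :
        MulAction.orbitRel.Quotient H' (Fin n))) ?_
  intro q
  induction q using Quotient.inductionOn' with
  | h i => exact ⟨Quotient.mk'' i, rfl⟩

theorem dup_inr {K : Type} [Field K] [NumberField K] {p : ℕ} {ζ : K} {D : RD0 K p ζ} {Ω : Type}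
    [Field Ω] [Algebra K Ω] (L : LDs D Ω) (v : Pl K) (h : v ∉ D.S0) :
    inr L v = (L.ld v h).P.inertia Gal(Ω/K) := by
  unfold inr
  rw [dif_pos h]

theorem dsm_up {n : ℕ} (hn : 2 ≤ n) (G : Subgroup (Equiv.Perm (Fin n)))
    (hG : MulAction.IsPretransitive G (Fin n)) {p : ℕ} (K : IntermediateField ℚ QBar)
    [NumberField K] {ζ : K} (D : RD0 K p ζ) (L : LDs D QBar) (i₀ : Fin n) :
    ∃ C : ℝ, 0 < C ∧ ∀ (ρ : Gal(QBar/K) →* G), Function.Surjective ρ → FT ρ →
      ∀ T : Finset (Pl K), (∀ v ∈ T, v ∉ D.S0) →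
        (∀ v ∈ T, ∃ h : G, ind (h : Equiv.Perm (Fin n)) = indG G ∧
          ∀ τ ∈ inr L v, ρ τ ∈ Subgroup.zpowers h) →
        (∀ v, v ∉ D.S0 → v ∉ T → ∀ τ ∈ inr L v, ρ τ = 1) →
        (H38.ML.relDisc K (fieldOf i₀ ρ) : ℝ) ≤ C * (∏ v ∈ T, (nm v : ℝ)) ^ indG G := by
  classical
  set S : Set (Ideal (𝓞 K)) := ((D.S0.image fun v : Pl K => v.asIdeal : Finset (Ideal (𝓞 K))) :
    Set (Ideal (𝓞 K))) ∪
    {v : Ideal (𝓞 K) | v.IsPrime ∧ v ≠ ⊥ ∧ ((n.factorial : ℕ) : 𝓞 K) ∈ v} with hS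
  have hSf : S.Finite := (Finset.finite_toSet _).union (gdisu_fin n)
  obtain ⟨C, hC, hb⟩ := disc_bound QBar n S hSf (fun v hv hv0 hvS hmem =>
    hvS (Or.inr ⟨hv, hv0, hmem⟩))
  refine ⟨C, by exact_mod_cast hC, fun ρ hρ hft T hT hTh hT1 => ?_⟩
  obtain ⟨hfd, hdeg, -, hemb⟩ := small_field G hG K i₀ ρ hρ hft
  have hnf : NumberField (fieldOf i₀ ρ) := NumberField.of_module_finite K (fieldOf i₀ ρ)
  set T₀ : Finset (Pl K) := T.filter fun v => v.asIdeal ∉ S with hT₀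
  have hS0 : ∀ v : Pl K, v.asIdeal ∉ S → v ∉ D.S0 := by
    intro v hv h
    exact hv (Or.inl (Finset.mem_coe.2 (Finset.mem_image_of_mem _ h)))
  have hmain := hb (fieldOf i₀ ρ) hfd hnf hdeg (T₀.image fun v => v.asIdeal) (H38.ML.indG G)
    (by
      intro v hv
      obtain ⟨w, -, rfl⟩ := Finset.mem_image.1 hv
      exact ⟨w.isPrime, w.ne_bot⟩)
    (by
      intro v hv
      obtain ⟨w, hw, rfl⟩ := Finset.mem_image.1 hv
      have hwS := (Finset.mem_filter.1 hw).2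
      have hw0 := hS0 w hwS
      refine ⟨(L.ld w hw0).P, (L.ld w hw0).prime, (L.ld w hw0).under, ?_⟩
      rw [hemb]
      obtain ⟨h, hh, hpow⟩ := hTh w (Finset.mem_filter.1 hw).1
      have h1 : (((L.ld w hw0).P.inertia Gal(QBar/K)).map ρ).map G.subtype ≤
          Subgroup.zpowers (h : Equiv.Perm (Fin n)) := by
        rintro _ ⟨g, ⟨τ, hτ, rfl⟩, rfl⟩
        have hτ' : τ ∈ inr L w := by rw [dup_inr L w hw0]; exact hτ
        obtain ⟨k, hk⟩ := Subgroup.mem_zpowers_iff.1 (hpow τ hτ')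
        refine Subgroup.mem_zpowers_iff.2 ⟨k, ?_⟩
        rw [← hk]
        simp
      have h2 := dup_orbs_anti h1
      have h3 : ind (h : Equiv.Perm (Fin n)) = n - orbs (Subgroup.zpowers (h : Equiv.Perm (Fin n))) := rfl
      omega)
    (by
      intro v hv hv0 hvS hvT
      have hw0 : (⟨v, hv, hv0⟩ : Pl K) ∉ D.S0 := hS0 ⟨v, hv, hv0⟩ hvS
      have hwT : (⟨v, hv, hv0⟩ : Pl K) ∉ T := by
        intro h
        exact hvT (Finset.mem_image.2 ⟨⟨v, hv, hv0⟩, Finset.mem_filter.2 ⟨h, hvS⟩, rfl⟩)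
      refine ⟨(L.ld _ hw0).P, (L.ld _ hw0).prime, (L.ld _ hw0).under, ?_⟩
      rw [hemb]
      have h1 : ((L.ld _ hw0).P.inertia Gal(QBar/K)).map ρ = ⊥ := by
        rw [eq_bot_iff]
        rintro _ ⟨τ, hτ, rfl⟩
        have hτ' : τ ∈ inr L ⟨v, hv, hv0⟩ := by rw [dup_inr L _ hw0]; exact hτ
        rw [Subgroup.mem_bot]
        exact hT1 _ hw0 hwT τ hτ'
      rw [h1, Subgroup.map_bot, orbs_bot])
  have hrel : H38.ML.relDisc K (fieldOf i₀ ρ) =
      Ideal.absNorm (differentIdeal (𝓞 K) (𝓞 (fieldOf i₀ ρ))) := by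
    unfold H38.ML.relDisc
    rw [dif_pos hnf]
  rw [hrel]
  have hprod : ∏ v ∈ T₀.image (fun v : Pl K => v.asIdeal), Ideal.absNorm v ≤ ∏ v ∈ T, nm v := by
    rw [Finset.prod_image (fun a _ b _ h => HeightOneSpectrum.ext h)]
    refine Finset.prod_le_prod_of_subset_of_one_le' (Finset.filter_subset _ _) fun v _ _ => ?_
    exact Nat.one_le_iff_ne_zero.2 fun h => v.ne_bot (Ideal.absNorm_eq_zero_iff.1 h)
  have h2 : Ideal.absNorm (differentIdeal (𝓞 K) (𝓞 (fieldOf i₀ ρ))) ≤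
      C * (∏ v ∈ T, nm v) ^ H38.ML.indG G :=
    le_trans hmain (Nat.mul_le_mul_left _ (Nat.pow_le_pow_left hprod _))
  exact_mod_cast h2

end H38.BG
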