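import Pool.Agent.H38.BG.PGen

/-!
# [H38 BG LTW] twisting by central characters, 60-100 lines (as gtw_one, twist in H63/MA/GTw). File Pool/Agent/H38/BG/LTw.lean

`φ : Γ → G` of finite type, `s : Pl K → (ZMod p)^w` with finitely many `s v ≠ 0`. There is `φ' σ = e (l σ) 0 * φ σ` of finite type with `l (t v) = s v` for all `v ∉ S0`.
Proof. `F` = the finite set of the `v ∉ S0` with `s v ≠ 0`. `l σ = ∑_{v ∈ F} kk (pi v) σ • s v`. It is additive in `σ` (`kk_mul`, `H63/MA/GKum.lean`), so `σ ↦ e (l σ) 0` is a homomorphism (`gt_mul0`) to the center (`gt_cen`), and `φ'` is a homomorphism. Finite type: it is trivial where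
`φ` and all `kk (pi v)`, `v ∈ F`, are (`kc_is`; the intersection of finitely many fixing subgroups of finite extensions, or apply `gtw_one` repeatedly / induction on `F`; `gt_e0`). `l (t v') = ∑_{v ∈ F} kk (pi v) (t v') • s v = s v'` by `kk_pi` (`1` for `v = v'`, `0` otherwise), also for `v' ∉ F` (`s v' = 0`).
-/

set_option autoImplicit false

open scoped NumberField
open IsDedekindDomain

noncomputable section

namespace H38.BG

open H63.MA H38.BB

variable {K : Type} [Field K] [NumberField K] {Ω : Type} [Field Ω] [Algebra K Ω] [IsAlgClosure K Ω]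
  {p : ℕ} {ζ : K} {m u w N : ℕ}

theorem ltw_smul {G : Type} [Group G] (Dg : GT p m u w N G) (a : Fin w → ZMod p) (k : ℕ) :
    Dg.e a 0 ^ k = Dg.e (k • a) 0 := by
  induction k with
  | zero => rw [pow_zero, zero_smul, gt_e0]
  | succ k ih => rw [pow_succ, ih, gt_mul0, succ_nsmul]

theorem ltw (hp : p.Prime) (hζ : IsPrimitiveRoot ζ p) (D : RD0 K p ζ) (L : LDs D Ω)
    {G : Type} [Group G] (Dg : GT p m u w N G) (φ : Gal(Ω/K) →* G) (hφ : H38.ML.FT φ)
    (s : Pl K → Fin w → ZMod p) (hs : {v | s v ≠ 0}.Finite) :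
    ∃ (φ' : Gal(Ω/K) →* G) (l : Gal(Ω/K) → Fin w → ZMod p), H38.ML.FT φ' ∧
      (∀ σ, φ' σ = Dg.e (l σ) 0 * φ σ) ∧ ∀ v, v ∉ D.S0 → l (L.t v) = s v := by
  classical
  have hp0 : NeZero p := ⟨hp.ne_zero⟩
  have hp1 : Fact (1 < p) := ⟨hp.one_lt⟩
  have key : ∀ F : Finset (Pl K), (∀ v ∈ F, v ∉ D.S0) →
      ∃ (φ' : Gal(Ω/K) →* G) (l : Gal(Ω/K) → Fin w → ZMod p), H38.ML.FT φ' ∧
      (∀ σ, φ' σ = Dg.e (l σ) 0 * φ σ) ∧
      ∀ v, v ∉ D.S0 → l (L.t v) = if v ∈ F then s v else 0 := by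
    intro F
    induction F using Finset.induction_on with
    | empty =>
      intro _
      refine ⟨φ, fun _ => 0, hφ, fun σ => ?_, fun v _ => ?_⟩
      · rw [gt_e0, one_mul]
      · rw [if_neg (Finset.notMem_empty v)]
    | insert v F hvF ih =>
      intro hF
      obtain ⟨φ', l, h1, h2, h3⟩ := ih (fun w hw => hF w (Finset.mem_insert_of_mem hw))
      have hv : v ∉ D.S0 := hF v (Finset.mem_insert_self v F)
      have hu : Dg.e (s v) 0 ^ p = 1 := by
        rw [ltw_smul]
        have : p • s v = 0 := by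
          funext c
          rw [Pi.smul_apply, nsmul_eq_mul, CharP.cast_eq_zero, zero_mul, Pi.zero_apply]
        rw [this, gt_e0]
      obtain ⟨φ'', h5, h6⟩ := gtw_one hp φ' h1 (kc p ζ Ω (D.pi v)) (kc_is hp hζ (D.pi v)).1
        (Dg.e (s v) 0) hu (gt_cen Dg (s v))
      refine ⟨φ'', fun σ => l σ + (kk p ζ (D.pi v) σ).val • s v, h5, fun σ => ?_,
        fun w hw => ?_⟩
      · rw [h6, h2, ltw_smul, mul_assoc, ← gt_cen Dg _ (φ σ), ← mul_assoc, gt_mul0]
        rfl
      · have h8 := kk_pi hp hζ D L v w hv hw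
        beta_reduce
        by_cases hwv : w = v
        · subst hwv
          rw [h3 w hw, if_neg hvF, if_pos (Finset.mem_insert_self w F), h8.1 rfl, ZMod.val_one,
            one_smul, zero_add]
        · rw [h3 w hw, h8.2 (Ne.symm hwv), ZMod.val_zero, zero_smul, add_zero]
          by_cases hwF : w ∈ F
          · rw [if_pos hwF, if_pos (Finset.mem_insert_of_mem hwF)]
          · rw [if_neg hwF, if_neg]
            intro h
            exact (Finset.mem_insert.1 h).elim hwv hwF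
  have hfin2 := hs.inter_of_left {v : Pl K | v ∉ D.S0}
  obtain ⟨φ', l, h1, h2, h3⟩ := key hfin2.toFinset (fun v hv => ((hfin2.mem_toFinset).1 hv).2)
  refine ⟨φ', l, h1, h2, fun v hv => ?_⟩
  rw [h3 v hv]
  by_cases hvF : v ∈ hfin2.toFinset
  · rw [if_pos hvF]
  · rw [if_neg hvF]
    by_contra h
    exact hvF ((hfin2.mem_toFinset).2 ⟨fun h' => h h'.symm, hv⟩)

end H38.BG
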