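import Pool.Agent.H38.BG.TDef
import Pool.Agent.H63.MA.GLowA

/-!
# [H38 BG LXI] the elements xi and their local properties, 80-130 lines (as lowa_* in H63/MA/GLowA). File Pool/Agent/H38/BG/LXi.lean

`xi D y f k = ∏_i ∏_{v ∈ f i} pi v ^ (y i k).val` (`f` a family of finite sets of primes outside `S0`).
* `xi_ps`: `PS` if `qf (f i) = 0` for all `i` (as `lowa_ps`, from `lowa_ps_i`, `lowa_ps_mul`, `lowa_ps_one`).
* `xi_ord`: for `v ∉ S0`, `ord v (xi k) = ∑_i [v ∈ f i] (y i k).val` (as `lowa_ord`, `gupb_ord`); `xi_ord_mem`, `xi_ord_not`: the special cases.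
* `ll_mul`, `ll_pow`: `LL v (x y) = LL v x + LL v y` for `v ∉ S0`: `lg_mul` for `x (pi v)^{-ord v x}`, `y (pi v)^{-ord v y}` of order `0` (`D.pi_self`), `v ∤ p` by `D.above`. (Probably proved in `MA/AExp` or `AFin`: search for `LL`.)
* `xi_ll`: for `v ∉ S0`: `LL v (b j) + mv ι (LL v (xi k))_k j = LL v (akR D c b f j)` if `c.x i = mv ι (y i)` for all `i`. Proof: both sides are `LL v (b j) + ∑_i ∑_{w ∈ f i} (mv ι (y i) j) LL v (pi w)` by `ll_mul`, `ll_pow` (induction over the products), `((y i k).val : ZMod p) = y i k`, and interchange of sums.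
-/

set_option autoImplicit false

open scoped NumberField
open IsDedekindDomain
open scoped Classical

noncomputable section

namespace H38.BG

open H63.MA H38.BB

variable {K : Type} [Field K] [NumberField K] {p : ℕ} {ζ : K} {m u N : ℕ}

/-- the twisting elements -/
def xi (D : RD0 K p ζ) (y : Fin N → Fin u → ZMod p) (f : Fin N → Finset (Pl K)) (k : Fin u) : Kˣ :=
  ∏ i, ∏ v ∈ f i, D.pi v ^ (y i k).val

theorem xi_ps (hp : p.Prime) (hp2 : MOne p K) (hζ : IsPrimitiveRoot ζ p) (D : RD0 K p ζ)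
    (y : Fin N → Fin u → ZMod p) (f : Fin N → Finset (Pl K)) (hS : ∀ i, ∀ v ∈ f i, v ∉ D.S0)
    (hq : ∀ i, qf D (f i) = 0) (k : Fin u) : PS p ζ D.S0 (xi D y f k) := by
  unfold xi
  refine Finset.prod_induction _ (fun x => PS p ζ D.S0 x)
    (fun a b ha hb => lowa_ps_mul hp hp2 hζ ha hb) (lowa_ps_one D) ?_
  intro i _
  exact lowa_ps_i D (f i) (hS i) (hq i) _

theorem xi_ord (D : RD0 K p ζ) (y : Fin N → Fin u → ZMod p) (f : Fin N → Finset (Pl K))
    (hS : ∀ i, ∀ v ∈ f i, v ∉ D.S0) (k : Fin u) {v : Pl K} (hv : v ∉ D.S0) :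
    ord v (xi D y f k) = ∑ i, if v ∈ f i then ((y i k).val : ℤ) else 0 := by
  unfold xi
  rw [ord_prod]
  refine Finset.sum_congr rfl fun i _ => ?_
  rw [ord_prod]
  by_cases h : v ∈ f i
  · rw [if_pos h, Finset.sum_eq_single v]
    · rw [ord_pow, D.pi_self v hv, mul_one]
    · intro w hw hwv
      rw [ord_pow, D.pi_ne w v (hS i w hw) hv (Ne.symm hwv), mul_zero]
    · intro h1
      exact absurd h h1
  · rw [if_neg h]
    apply Finset.sum_eq_zero
    intro w hw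
    rw [ord_pow, D.pi_ne w v (hS i w hw) hv (by rintro rfl; exact h hw), mul_zero]

theorem xi_ord_mem (hp : p.Prime) (D : RD0 K p ζ) (y : Fin N → Fin u → ZMod p)
    (f : Fin N → Finset (Pl K))
    (hdj : Dj f) (hS : ∀ i, ∀ v ∈ f i, v ∉ D.S0) (k : Fin u) {v : Pl K} {i : Fin N}
    (hv : v ∈ f i) : ((ord v (xi D y f k) : ℤ) : ZMod p) = y i k := by
  haveI : NeZero p := ⟨hp.ne_zero⟩
  rw [xi_ord D y f hS k (hS i v hv), Finset.sum_eq_single i]
  · rw [if_pos hv, Int.cast_natCast, ZMod.natCast_zmod_val]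
  · intro j _ hj
    rw [if_neg]
    intro h
    exact Finset.disjoint_left.1 (hdj j i hj) h hv
  · intro h
    exact absurd (Finset.mem_univ i) h

theorem xi_ord_not (D : RD0 K p ζ) (y : Fin N → Fin u → ZMod p) (f : Fin N → Finset (Pl K))
    (hS : ∀ i, ∀ v ∈ f i, v ∉ D.S0) (k : Fin u) {v : Pl K} (hv : v ∉ D.S0)
    (hf : ∀ i, v ∉ f i) : ord v (xi D y f k) = 0 := by
  rw [xi_ord D y f hS k hv]
  exact Finset.sum_eq_zero fun i _ => if_neg (hf i)

theorem lxi_ord (D : RD0 K p ζ) {v : Pl K} (hv : v ∉ D.S0) (x : Kˣ) :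
    ord v (x * D.pi v ^ (-ord v x)) = 0 := by
  rw [ord_mul, ord_zpow, D.pi_self v hv]
  ring

theorem ll_mul (hp : p.Prime) (hζ : IsPrimitiveRoot ζ p) (D : RD0 K p ζ) {v : Pl K}
    (hv : v ∉ D.S0) (x y : Kˣ) : D.LL v (x * y) = D.LL v x + D.LL v y := by
  unfold RD0.LL
  rw [← lg_mul hp hζ (fun h => hv (D.above v h)) (lxi_ord D hv x) (lxi_ord D hv y)]
  congr 1
  rw [ord_mul, neg_add, zpow_add, mul_mul_mul_comm]

theorem lxi_one (hp : p.Prime) (hζ : IsPrimitiveRoot ζ p) (D : RD0 K p ζ) {v : Pl K}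
    (hv : v ∉ D.S0) : D.LL v 1 = 0 := by
  have h := ll_mul hp hζ D hv 1 1
  rw [mul_one] at h
  exact left_eq_add.1 h

theorem ll_pow (hp : p.Prime) (hζ : IsPrimitiveRoot ζ p) (D : RD0 K p ζ) {v : Pl K}
    (hv : v ∉ D.S0) (x : Kˣ) (n : ℕ) : D.LL v (x ^ n) = n * D.LL v x := by
  induction n with
  | zero => rw [pow_zero, lxi_one hp hζ D hv, Nat.cast_zero, zero_mul]
  | succ n ih =>
    rw [pow_succ, ll_mul hp hζ D hv, ih]
    push_cast
    ring

theorem lxi_prod (hp : p.Prime) (hζ : IsPrimitiveRoot ζ p) (D : RD0 K p ζ) {v : Pl K}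
    (hv : v ∉ D.S0) {ι : Type} (s : Finset ι) (g : ι → Kˣ) :
    D.LL v (∏ i ∈ s, g i) = ∑ i ∈ s, D.LL v (g i) := by
  induction s using Finset.induction_on with
  | empty => rw [Finset.prod_empty, Finset.sum_empty, lxi_one hp hζ D hv]
  | insert a s ha ih => rw [Finset.prod_insert ha, Finset.sum_insert ha, ll_mul hp hζ D hv, ih]

theorem lxi_fam (hp : p.Prime) (hζ : IsPrimitiveRoot ζ p) (D : RD0 K p ζ)
    (z : Fin N → ZMod p) (f : Fin N → Finset (Pl K)) {v : Pl K} (hv : v ∉ D.S0) :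
    D.LL v (∏ i, ∏ w ∈ f i, D.pi w ^ (z i).val) = ∑ i, z i * ∑ w ∈ f i, D.LL v (D.pi w) := by
  haveI : NeZero p := ⟨hp.ne_zero⟩
  rw [lxi_prod hp hζ D hv]
  refine Finset.sum_congr rfl fun i _ => ?_
  rw [lxi_prod hp hζ D hv, Finset.mul_sum]
  refine Finset.sum_congr rfl fun w _ => ?_
  rw [ll_pow hp hζ D hv, ZMod.natCast_zmod_val]

theorem xi_ll (hp : p.Prime) (hζ : IsPrimitiveRoot ζ p) (D : RD0 K p ζ)
    (y : Fin N → Fin u → ZMod p) (ι : Fin m → Fin u → ZMod p) (c : CR p m N)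
    (hc : ∀ i, c.x i = mv ι (y i)) (b : Fin m → Kˣ) (f : Fin N → Finset (Pl K))
    (hS : ∀ i, ∀ v ∈ f i, v ∉ D.S0) {v : Pl K} (hv : v ∉ D.S0) (j : Fin m) :
    D.LL v (b j) + mv ι (fun k => D.LL v (xi D y f k)) j = D.LL v (akR D c b f j) := by
  have h1 : D.LL v (akR D c b f j) =
      D.LL v (b j) + ∑ i, c.x i j * ∑ w ∈ f i, D.LL v (D.pi w) := by
    unfold akR
    rw [ll_mul hp hζ D hv, lxi_fam hp hζ D (fun i => c.x i j) f hv]
  rw [h1]
  congr 1
  unfold mv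
  have h2 : ∀ k, D.LL v (xi D y f k) = ∑ i, y i k * ∑ w ∈ f i, D.LL v (D.pi w) := by
    intro k
    unfold xi
    exact lxi_fam hp hζ D (fun i => y i k) f hv
  simp only [h2, hc, mv, Finset.mul_sum, Finset.sum_mul]
  rw [Finset.sum_comm]
  refine Finset.sum_congr rfl fun i _ => ?_
  rw [Finset.sum_comm]
  refine Finset.sum_congr rfl fun k _ => ?_
  refine Finset.sum_congr rfl fun w _ => ?_
  ring

end H38.BG
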