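import Pool.Agent.H38.BG.PGen
import Pool.Agent.H63.MA.GLift

/-!
# [H38 BG LREL] relative lifting of a homomorphism (as glift in H63/MA/GLift), 120-180 lines. File Pool/Agent/H38/BG/LRel.lean

`Dg : GT`, `φ₀ : Γ → G` of finite type with `π (φ₀ σ) = (kk (b j) σ)_j`, `b j` of order `0` outside `S0`; `ξ k` locally `p`-th powers at `S0` (`PS`); for `v ∉ S0`: `β(LL v b + ι(LL v ξ), ord v ξ) = 0`. Then there is `φ : Γ → G` of finite type,
`φ σ = e (l σ) (kk (ξ k) σ)_k * φ₀ σ`.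

Proof. (1) By `Dg.conj`, `Dg.mul`: `(e l x g₀)(e l' x' g₀') = e (l + l' + bl β (π g₀) x' + bl n x x') (x + x') g₀ g₀'`. So `σ ↦ e (l σ) (kk (ξ k) σ)_k * φ₀ σ` is a homomorphism if for all `c : Fin w`
`l c (σ τ) = l c σ + l c τ + E_c σ τ`, `E_c σ τ = ∑_{j,k} β c j k * kk (b j) σ * kk (ξ k) τ + ∑_{k,k'} n c k k' * kk (ξ k) σ * kk (ξ k') τ`. So it suffices that `Tv E_c` (then `l c` has finite level, and `φ` is of finite level as `φ₀`, `kk` are (`glift_lev_*`), so of finite type by `lev_ft`, as at the end of `glift`).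
(2) `kk (b j) σ * kk (ξ k) τ = cu (b j) (ξ k) σ τ`, and `cu (b j) (ξ k) + cu (ξ k) (b j)` is trivial (`tv_swap`). So by `tv_add`, `tv_smul`, `tv_sum` it suffices that `∑_{j,k} - β c j k cu (ξ k) (b j) + ∑_{k,k'} n c k k' cu (ξ k) (ξ k')` is trivial. Apply `locglob` with the index type
`(Fin m × Fin u) ⊕ (Fin u × Fin u)`, `A (inl (j,k)) = ξ k ^ ((- β c j k).val : ℤ)`, `C (inl (j,k)) = b j`, `A (inr (k,k')) = ξ k ^ ((n c k k').val : ℤ)`, `C (inr (k,k')) = ξ k'` (`kk_zpow_arg`, as in `glift`); `Prim p (A ·)` by `prim_zpow` from `(hξ k).1`.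
(3) The local condition at `v ∤ p`. If `v ∈ S0`: `Spl p ζ v (ξ k)` (`(hξ k).2`), i.e. `B v (ξ k) x = 0` for all `x`: all terms are `0`. If `v ∉ S0`: `B v (ξ k) (b j) = - B v (b j) (ξ k) = - ord v (ξ k) * lg (b j)` (`B_symm`, `B_unit`), `lg (b j) = LL v (b j)` (order `0`); with
`x k = ord v (ξ k)`, `y k = LL v (ξ k) = lgv p ζ v (pi v) (ξ k)`: `B v (ξ k) (ξ k') = y k * x k' - x k * y k'` (`b_eq`, `D.pi_self`). The sum is `bl β (LL v b) x c + (bl n y x - bl n x y) c = bl β (LL v b) x c + bl β (mv ι y) x c` (`gt_com`) `= 0` by hypothesis (`bl` is additive in the first argument).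
(4) `T` = the finite set of the `v ∉ S0` with `ord v (ξ k) ≠ 0` for some `k` (`finite_ord`): for `v ∤ p`, `v ∉ T` every single term is `0`: `v ∈ S0`: as before; `v ∉ S0`: all orders of the `ξ k` and of `b j` are `0` (`B_unit`).
-/

set_option autoImplicit false

open scoped NumberField
open IsDedekindDomain

noncomputable section

namespace H38.BG

open H63.MA H38.BB

variable {K : Type} [Field K] [NumberField K] {Ω : Type} [Field Ω] [Algebra K Ω] [IsAlgClosure K Ω]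
  {p : ℕ} {ζ : K} {m u w N : ℕ}

theorem lrel_add_left {p m u w : ℕ} (n : Fin w → Fin m → Fin u → ZMod p)
    (x x' : Fin m → ZMod p) (y : Fin u → ZMod p) :
    bl n (x + x') y = bl n x y + bl n x' y := by
  funext c
  simp only [bl, Pi.add_apply]
  rw [← Finset.sum_add_distrib]
  refine Finset.sum_congr rfl fun j _ => ?_
  rw [← Finset.sum_add_distrib]
  refine Finset.sum_congr rfl fun k _ => ?_
  ring

theorem lrel_prod {p m u w N : ℕ} {G : Type} [Group G] (Dg : GT p m u w N G)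
    (l l' : Fin w → ZMod p) (x x' : Fin u → ZMod p) (g g' : G) :
    Dg.e l x * g * (Dg.e l' x' * g') =
      Dg.e (l + (l' + bl Dg.β (Multiplicative.toAdd (Dg.π g)) x') + bl Dg.n x x') (x + x') *
        (g * g') := by
  have h1 : Dg.e l x * g * (Dg.e l' x' * g') =
      Dg.e l x * (g * Dg.e l' x' * g⁻¹) * (g * g') := by group
  rw [h1, Dg.conj, Dg.mul]

theorem lrel (hp : p.Prime) (hp2 : MOne p K) (hζ : IsPrimitiveRoot ζ p) (D : RD0 K p ζ)
    {G : Type} [Group G] [Finite G] (Dg : GT p m u w N G)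
    (φ₀ : Gal(Ω/K) →* G) (hφ₀ : H38.ML.FT φ₀) (b : Fin m → Kˣ)
    (hb : ∀ σ j, Multiplicative.toAdd (Dg.π (φ₀ σ)) j = kk p ζ (b j) σ)
    (h0 : ∀ v, v ∉ D.S0 → ∀ j, ord v (b j) = 0)
    (ξ : Fin u → Kˣ) (hξ : ∀ k, PS p ζ D.S0 (ξ k))
    (h1 : ∀ v, v ∉ D.S0 → bl Dg.β
      (fun j => D.LL v (b j) + mv Dg.ι (fun k => D.LL v (ξ k)) j)
      (fun k => (ord v (ξ k) : ZMod p)) = 0) :
    ∃ (φ : Gal(Ω/K) →* G) (l : Gal(Ω/K) → Fin w → ZMod p), H38.ML.FT φ ∧
      ∀ σ, φ σ = Dg.e (l σ) (fun k => kk p ζ (ξ k) σ) * φ₀ σ := by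
  classical
  have : NeZero p := ⟨hp.ne_zero⟩
  have hcast : ∀ x : ZMod p, (((x.val : ℕ) : ℤ) : ZMod p) = x := by
    intro x
    rw [Int.cast_natCast, ZMod.natCast_zmod_val]
  -- the exceptional set
  have hfin : {v : Pl K | ∃ k, ord v (ξ k) ≠ 0}.Finite := by
    have h2 : {v : Pl K | ∃ k, ord v (ξ k) ≠ 0} = ⋃ k, {v : Pl K | ord v (ξ k) ≠ 0} := by
      ext v
      simp
    rw [h2]
    exact Set.finite_iUnion fun k => finite_ord (ξ k)
  -- local values
  have hS : ∀ v : Pl K, ¬ Above p v → v ∈ D.S0 → ∀ k x, B p ζ v (ξ k) x = 0 :=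
    fun v hv hvS k x => (hξ k).2 v hvS hv x
  have hLb : ∀ v, v ∉ D.S0 → ∀ j, D.LL v (b j) = lg p ζ v (b j) := by
    intro v hv j
    unfold RD0.LL
    rw [h0 v hv j, neg_zero, zpow_zero, mul_one]
  have hB1 : ∀ v : Pl K, ¬ Above p v → v ∉ D.S0 → ∀ k j,
      B p ζ v (ξ k) (b j) = -((ord v (ξ k) : ZMod p) * D.LL v (b j)) := by
    intro v hv hvS k j
    rw [B_symm hp hζ hv, B_unit hp hζ hv (h0 v hvS j), hLb v hvS j]
  have hB2 : ∀ v : Pl K, ¬ Above p v → v ∉ D.S0 → ∀ k k',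
      B p ζ v (ξ k) (ξ k') = D.LL v (ξ k) * (ord v (ξ k') : ZMod p) -
        (ord v (ξ k) : ZMod p) * D.LL v (ξ k') := by
    intro v hv hvS k k'
    rw [b_eq hp hζ hv (D.pi_self v hvS)]
    rfl
  have htv : ∀ c : Fin w, Tv (fun σ τ : Gal(Ω/K) =>
      bl Dg.β (fun j => kk p ζ (b j) σ) (fun k => kk p ζ (ξ k) τ) c +
        bl Dg.n (fun k => kk p ζ (ξ k) σ) (fun k => kk p ζ (ξ k) τ) c) := by
    intro c
    have h3 := locglob (K := K) (p := p) (ζ := ζ) Ω hp hp2 hζ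
      (ι := (Fin m × Fin u) ⊕ (Fin u × Fin u))
      (Sum.elim (fun j : Fin m × Fin u => ξ j.2 ^ (((-Dg.β c j.1 j.2).val : ℕ) : ℤ))
        (fun j : Fin u × Fin u => ξ j.1 ^ (((Dg.n c j.1 j.2).val : ℕ) : ℤ)))
      (Sum.elim (fun j : Fin m × Fin u => b j.1) (fun j : Fin u × Fin u => ξ j.2)) ?_ hfin.toFinset ?_ ?_
    · have h4 : ∀ (j : Fin m) (k : Fin u), Tv (fun σ τ : Gal(Ω/K) =>
          Dg.β c j k * (cu p ζ (b j) (ξ k) σ τ + cu p ζ (ξ k) (b j) σ τ)) :=
        fun j k => tv_smul _ _ (tv_swap hp hζ (b j) (ξ k))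
      have h5 : Tv (fun σ τ : Gal(Ω/K) => ∑ j : Fin m, ∑ k : Fin u,
          Dg.β c j k * (cu p ζ (b j) (ξ k) σ τ + cu p ζ (ξ k) (b j) σ τ)) :=
        tv_sum Finset.univ (fun j σ τ => ∑ k : Fin u,
          Dg.β c j k * (cu p ζ (b j) (ξ k) σ τ + cu p ζ (ξ k) (b j) σ τ)) fun j _ =>
          tv_sum Finset.univ (fun k σ τ =>
            Dg.β c j k * (cu p ζ (b j) (ξ k) σ τ + cu p ζ (ξ k) (b j) σ τ)) fun k _ => h4 j k
      have h6 := tv_add _ _ h3 h5
      have h7 : (fun σ τ : Gal(Ω/K) =>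
          bl Dg.β (fun j => kk p ζ (b j) σ) (fun k => kk p ζ (ξ k) τ) c +
            bl Dg.n (fun k => kk p ζ (ξ k) σ) (fun k => kk p ζ (ξ k) τ) c) =
          fun σ τ => (∑ i : (Fin m × Fin u) ⊕ (Fin u × Fin u),
            cu p ζ (Sum.elim (fun j : Fin m × Fin u => ξ j.2 ^ (((-Dg.β c j.1 j.2).val : ℕ) : ℤ))
              (fun j : Fin u × Fin u => ξ j.1 ^ (((Dg.n c j.1 j.2).val : ℕ) : ℤ)) i)
              (Sum.elim (fun j : Fin m × Fin u => b j.1) (fun j : Fin u × Fin u => ξ j.2) i) σ τ) +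
            ∑ j : Fin m, ∑ k : Fin u,
              Dg.β c j k * (cu p ζ (b j) (ξ k) σ τ + cu p ζ (ξ k) (b j) σ τ) := by
        funext σ τ
        rw [Fintype.sum_sum_type, Fintype.sum_prod_type, Fintype.sum_prod_type]
        have e1 : ∑ j : Fin m, ∑ k : Fin u,
            cu p ζ (Sum.elim (fun j : Fin m × Fin u => ξ j.2 ^ (((-Dg.β c j.1 j.2).val : ℕ) : ℤ))
              (fun j : Fin u × Fin u => ξ j.1 ^ (((Dg.n c j.1 j.2).val : ℕ) : ℤ)) (Sum.inl (j, k)))
              (Sum.elim (fun j : Fin m × Fin u => b j.1) (fun j : Fin u × Fin u => ξ j.2) (Sum.inl (j, k))) σ τ =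
            ∑ j : Fin m, ∑ k : Fin u, -(Dg.β c j k * cu p ζ (ξ k) (b j) σ τ) := by
          refine Finset.sum_congr rfl fun j _ => Finset.sum_congr rfl fun k _ => ?_
          simp only [Sum.elim_inl, cu]
          rw [kk_zpow_arg hp hζ, hcast]
          ring
        have e2 : ∑ k : Fin u, ∑ k' : Fin u,
            cu p ζ (Sum.elim (fun j : Fin m × Fin u => ξ j.2 ^ (((-Dg.β c j.1 j.2).val : ℕ) : ℤ))
              (fun j : Fin u × Fin u => ξ j.1 ^ (((Dg.n c j.1 j.2).val : ℕ) : ℤ)) (Sum.inr (k, k')))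
              (Sum.elim (fun j : Fin m × Fin u => b j.1) (fun j : Fin u × Fin u => ξ j.2) (Sum.inr (k, k'))) σ τ =
            bl Dg.n (fun k => kk p ζ (ξ k) σ) (fun k => kk p ζ (ξ k) τ) c := by
          refine Finset.sum_congr rfl fun k _ => Finset.sum_congr rfl fun k' _ => ?_
          simp only [Sum.elim_inr, cu]
          rw [kk_zpow_arg hp hζ, hcast]
        rw [e1, e2]
        have e3 : bl Dg.β (fun j => kk p ζ (b j) σ) (fun k => kk p ζ (ξ k) τ) c =
            ∑ j : Fin m, ∑ k : Fin u, -(Dg.β c j k * cu p ζ (ξ k) (b j) σ τ) +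
            ∑ j : Fin m, ∑ k : Fin u,
              Dg.β c j k * (cu p ζ (b j) (ξ k) σ τ + cu p ζ (ξ k) (b j) σ τ) := by
          unfold bl
          rw [← Finset.sum_add_distrib]
          refine Finset.sum_congr rfl fun j _ => ?_
          rw [← Finset.sum_add_distrib]
          refine Finset.sum_congr rfl fun k _ => ?_
          unfold cu
          ring
        rw [e3]
        ring
      rw [h7]
      exact h6
    · rintro (j | j)
      · exact prim_zpow hp hp2 hζ (hξ j.2).1 _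
      · exact prim_zpow hp hp2 hζ (hξ j.1).1 _
    · intro v hv
      rw [Fintype.sum_sum_type]
      simp only [Sum.elim_inl, Sum.elim_inr]
      by_cases hvS : v ∈ D.S0
      · have e1 : ∑ j : Fin m × Fin u, B p ζ v (ξ j.2 ^ (((-Dg.β c j.1 j.2).val : ℕ) : ℤ)) (b j.1) =
            0 := Finset.sum_eq_zero fun j _ => by
          rw [B_zpow_left hp hζ hv, hS v hv hvS, mul_zero]
        have e2 : ∑ j : Fin u × Fin u, B p ζ v (ξ j.1 ^ (((Dg.n c j.1 j.2).val : ℕ) : ℤ)) (ξ j.2) =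
            0 := Finset.sum_eq_zero fun j _ => by
          rw [B_zpow_left hp hζ hv, hS v hv hvS, mul_zero]
        rw [e1, e2, add_zero]
      · have e1 : ∑ j : Fin m × Fin u, B p ζ v (ξ j.2 ^ (((-Dg.β c j.1 j.2).val : ℕ) : ℤ)) (b j.1) =
            bl Dg.β (fun j => D.LL v (b j)) (fun k => (ord v (ξ k) : ZMod p)) c := by
          rw [Fintype.sum_prod_type]
          refine Finset.sum_congr rfl fun j _ => Finset.sum_congr rfl fun k _ => ?_
          rw [B_zpow_left hp hζ hv, hcast, hB1 v hv hvS]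
          ring
        have e2 : ∑ j : Fin u × Fin u, B p ζ v (ξ j.1 ^ (((Dg.n c j.1 j.2).val : ℕ) : ℤ)) (ξ j.2) =
            bl Dg.n (fun k => D.LL v (ξ k)) (fun k => (ord v (ξ k) : ZMod p)) c -
              bl Dg.n (fun k => (ord v (ξ k) : ZMod p)) (fun k => D.LL v (ξ k)) c := by
          rw [Fintype.sum_prod_type]
          unfold bl
          rw [← Finset.sum_sub_distrib]
          refine Finset.sum_congr rfl fun k _ => ?_
          rw [← Finset.sum_sub_distrib]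
          refine Finset.sum_congr rfl fun k' _ => ?_
          rw [B_zpow_left hp hζ hv, hcast, hB2 v hv hvS]
          ring
        rw [e1, e2]
        have h8 := congrFun (gt_com Dg (fun k => D.LL v (ξ k))
          (fun k => (ord v (ξ k) : ZMod p))) c
        rw [Pi.sub_apply] at h8
        rw [h8]
        have h9 := congrFun (h1 v hvS) c
        have h10 := congrFun (lrel_add_left Dg.β (fun j => D.LL v (b j))
          (mv Dg.ι (fun k => D.LL v (ξ k))) (fun k => (ord v (ξ k) : ZMod p))) c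
        rw [Pi.add_apply] at h10
        rw [← h10]
        exact h9
    · intro v hv hvT j
      have hvT' : ∀ k, ord v (ξ k) = 0 := by
        intro k
        by_contra h
        exact hvT (hfin.mem_toFinset.2 ⟨k, h⟩)
      rcases j with j | j
      · simp only [Sum.elim_inl]
        rw [B_zpow_left hp hζ hv]
        by_cases hvS : v ∈ D.S0
        · rw [hS v hv hvS, mul_zero]
        · rw [hB1 v hv hvS, hvT', Int.cast_zero, zero_mul, neg_zero, mul_zero]
      · simp only [Sum.elim_inr]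
        rw [B_zpow_left hp hζ hv]
        by_cases hvS : v ∈ D.S0
        · rw [hS v hv hvS, mul_zero]
        · rw [hB2 v hv hvS, hvT', hvT', Int.cast_zero, mul_zero, zero_mul, sub_zero, mul_zero]
  choose l hl hl2 using htv
  have hπ : ∀ σ : Gal(Ω/K), Multiplicative.toAdd (Dg.π (φ₀ σ)) = fun j => kk p ζ (b j) σ :=
    fun σ => funext (hb σ)
  have hφ : ∀ σ τ : Gal(Ω/K),
      Dg.e (fun c => l c (σ * τ)) (fun k => kk p ζ (ξ k) (σ * τ)) * φ₀ (σ * τ) =
        Dg.e (fun c => l c σ) (fun k => kk p ζ (ξ k) σ) * φ₀ σ *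
          (Dg.e (fun c => l c τ) (fun k => kk p ζ (ξ k) τ) * φ₀ τ) := by
    intro σ τ
    rw [lrel_prod, hπ, map_mul]
    congr 2
    · funext c
      rw [hl2 c σ τ]
      simp only [Pi.add_apply]
      ring
    · funext k
      exact kk_mul (ξ k) σ τ
  refine ⟨MonoidHom.mk' (fun σ : Gal(Ω/K) =>
    Dg.e (fun c => l c σ) (fun k => kk p ζ (ξ k) σ) * φ₀ σ) hφ, fun σ c => l c σ, ?_,
    fun σ => rfl⟩
  apply lev_ft
  have hL1 : Lev (fun (σ : Gal(Ω/K)) c => l c σ) := glift_lev_pi l hl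
  have hL2 : Lev (fun (σ : Gal(Ω/K)) k => kk p ζ (ξ k) σ) :=
    glift_lev_pi (fun k σ => kk p ζ (ξ k) σ) fun k => glift_lev_kk hp hζ (ξ k)
  have hL3 : Lev (fun σ : Gal(Ω/K) => φ₀ σ) := ft_lev φ₀ hφ₀
  exact glift_lev_comp2 _ _ (fun z => z.1 * z.2)
    (glift_lev_comp2 _ _ (fun z => Dg.e z.1 z.2) hL1 hL2) hL3

end H38.BG
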