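import Pool.Agent.H38.BG.LXi
import Pool.Agent.H38.BG.LRel

/-!
# [H38 BG LHOM] the lifted homomorphism for a family, 120-180 lines. File Pool/Agent/H38/BG/LHom.lean

`φ₀ : Γ → G` of finite type, unramified outside `S0`, `π (φ₀ σ) = (kk (b j) σ)_j`, `b j` of order `0` outside `S0`; `f` a pairwise disjoint family of finite sets of primes outside `S0`. Form (F): `φ σ = e (l σ) (kk (xi k) σ)_k * φ₀ σ` with `xi k = xi D Dg.y f k`.
* `lhom`: if `qf (f i) = 0` and `β(LL v (akR b f), y i) = 0` for `v ∈ f i`, there is `φ` of finite type of form (F). Proof: `lrel` with `ξ = xi`: `xi_ps`; for `v ∉ S0`: if `v ∈ f i`, `ord v (xi k) = y i k` in `ZMod p` (`xi_ord_mem`) and `xi_ll` with `c = Dg.cr` (`Dg.cr.x i = mv Dg.ι (Dg.y i)` by `rfl`); if `v` is in no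
  `f i` the orders are `0` (`xi_ord_not`) and `bl β _ 0 = 0`.
* `lhom_in`: let `φ` be a homomorphism of form (F) and `τ ∈ inr L v`, `v ∉ S0`. If `v ∈ f i` then `φ τ = e (l τ) (kk (pi v) τ • y i)`, if `v` is in no `f i` then `φ τ = e (l τ) 0`. Proof: `φ₀ τ = 1`; `kk (xi k) τ = ord v (xi k) * kk (pi v) τ` (`ld_kk` for `L.ld v hv`, `D.pi_self`; `inr` by `dif_pos`). For `τ = t v`
  (`LD.ht`; `kk (pi v) (t v) = 1` by `kk_pi`) this gives `φ (t v) = e (l (t v)) (y i)`, resp. `e (l (t v)) 0`: `lhom_t`.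
* `lhom_exp`: so `φ τ ^ p = 1` (`gt_pow` with `k = kk (pi v) τ`; for `v` in no `f i`: `(e a 0)^p = e (p • a) 0 = e 0 0 = 1`, `gt_mul0`, `gt_e0`).
* `lhom_sur`: if `φ₀` is surjective and `b^θ` is not a `p`-th power for `θ ≠ 0` then every `φ` of form (F) is surjective. Proof: `gt_gen` for the range `H` of `φ`. (1) every `g = φ₀ σ` is `φ σ * (e a x)` for some `a, x`: `φ σ = e a' x' * φ₀ σ`, `φ₀ σ = (e a' x')⁻¹ φ σ = φ σ * (φ σ)⁻¹ (e a' x')⁻¹ φ σ`, and the inverse of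
  `e a' x'` is `e a'' (-x')` for suitable `a''` (`mul`, `gt_e0`), a conjugate of it is again of this form (`Dg.conj`). (2) `π (φ σ) = (kk (a j) σ)_j` with `a j = akR D Dg.cr b f j`: `Dg.pie`: `π (φ σ) j = ∑_k ι j k kk (xi k) σ + kk (b j) σ`, and `kk (akR j) σ = kk (b j) σ + ∑_i ∑_{w ∈ f i} (x i j) kk (pi w) σ`,
  `x i = mv ι (y i)` (`kk_mul_arg`, `kk_prod_arg`, `kk_zpow_arg` or `pow`; interchange of sums). By `kk_surj` it suffices that `∏ (a j)^(θ j).val` is not a `p`-th power for `θ ≠ 0`: if `dt θ (x i) ≠ 0` for some `i` with `f i ≠ ∅`, take `v ∈ f i`: the order at `v` is `dt θ (x i) ≠ 0` modulo `p` (`ord v (b j) = 0`; `ord v (akR j) = (x i j).val`).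
  Otherwise `∏_j (a j)^(θ j).val` is `bp b θ` times a `p`-th power (the exponent of `pi w`, `w ∈ f i`, is `∑_j (θ j).val (x i j).val`, `0` modulo `p`), which is not a `p`-th power by hypothesis. (`bp` in `H63/MA/ADef.lean`; compare `SpR`, and `sw_*`, `isPow`-lemmas in `H38/BB/CSel.lean` if present.)
-/

set_option autoImplicit false

open scoped NumberField
open IsDedekindDomain
open scoped Classical

noncomputable section

namespace H38.BG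

open H63.MA H38.BB

variable {K : Type} [Field K] [NumberField K] {Ω : Type} [Field Ω] [Algebra K Ω] [IsAlgClosure K Ω]
  {p : ℕ} {ζ : K} {m u w N : ℕ}

/-- the standing hypotheses -/
structure LH {G : Type} [Group G] (Dg : GT p m u w N G) {D : RD0 K p ζ} (L : LDs D Ω)
    (φ₀ : Gal(Ω/K) →* G) (b : Fin m → Kˣ) (f : Fin N → Finset (Pl K)) : Prop where
  ft : H38.ML.FT φ₀
  un : ∀ v, v ∉ D.S0 → ∀ τ ∈ inr L v, φ₀ τ = 1
  hb : ∀ σ j, Multiplicative.toAdd (Dg.π (φ₀ σ)) j = kk p ζ (b j) σ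
  b0 : ∀ v, v ∉ D.S0 → ∀ j, ord v (b j) = 0
  dj : Dj f
  out : ∀ i, ∀ v ∈ f i, v ∉ D.S0

/-- homomorphisms of form (F) -/
def FF {G : Type} [Group G] (Dg : GT p m u w N G) (D : RD0 K p ζ) (φ₀ : Gal(Ω/K) →* G)
    (f : Fin N → Finset (Pl K)) (φ : Gal(Ω/K) →* G) (l : Gal(Ω/K) → Fin w → ZMod p) : Prop :=
  ∀ σ, φ σ = Dg.e (l σ) (fun k => kk p ζ (xi D Dg.y f k) σ) * φ₀ σ

theorem lhom (hp : p.Prime) (hp2 : MOne p K) (hζ : IsPrimitiveRoot ζ p) {D : RD0 K p ζ} (L : LDs D Ω)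
    {G : Type} [Group G] [Finite G] (Dg : GT p m u w N G) (φ₀ : Gal(Ω/K) →* G) (b : Fin m → Kˣ)
    (f : Fin N → Finset (Pl K)) (hL : LH Dg L φ₀ b f) (hq : ∀ i, qf D (f i) = 0)
    (hw : ∀ i, ∀ v ∈ f i, bl Dg.β (fun j => D.LL v (akR D Dg.cr b f j)) (Dg.y i) = 0) :
    ∃ φ l, H38.ML.FT φ ∧ FF Dg D φ₀ f φ l := by
  have hloc : ∀ v, v ∉ D.S0 → bl Dg.β
      (fun j => D.LL v (b j) + mv Dg.ι (fun k => D.LL v (xi D Dg.y f k)) j)
      (fun k => (ord v (xi D Dg.y f k) : ZMod p)) = 0 := by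
    intro v hv
    by_cases hf : ∃ i, v ∈ f i
    · obtain ⟨i, hi⟩ := hf
      have h3 : (fun j => D.LL v (b j) + mv Dg.ι (fun k => D.LL v (xi D Dg.y f k)) j) =
          fun j => D.LL v (akR D Dg.cr b f j) := by
        funext j
        exact xi_ll hp hζ D Dg.y Dg.ι Dg.cr (fun i => rfl) b f hL.out hv j
      have h4 : (fun k => ((ord v (xi D Dg.y f k) : ℤ) : ZMod p)) = Dg.y i :=
        funext fun k => xi_ord_mem hp D Dg.y f hL.dj hL.out k hi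
      rw [h3, h4]
      exact hw i v hi
    · have hf' : ∀ i, v ∉ f i := fun i hi => hf ⟨i, hi⟩
      have h4 : (fun k => ((ord v (xi D Dg.y f k) : ℤ) : ZMod p)) = fun _ => 0 := by
        funext k
        rw [xi_ord_not D Dg.y f hL.out k hv hf', Int.cast_zero]
      rw [h4]
      funext c
      unfold bl
      refine Finset.sum_eq_zero fun j _ => Finset.sum_eq_zero fun k _ => ?_
      rw [mul_zero]
  obtain ⟨φ, l, h1, h2⟩ := lrel hp hp2 hζ D Dg φ₀ hL.ft b hL.hb hL.b0 (xi D Dg.y f)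
    (fun k => xi_ps hp hp2 hζ D Dg.y f hL.out hq k) hloc
  exact ⟨φ, l, h1, h2⟩

private theorem lhom_mem {D : RD0 K p ζ} (L : LDs D Ω) {v : Pl K} (hv : v ∉ D.S0)
    {τ : Gal(Ω/K)} (hτ : τ ∈ inr L v) : τ ∈ (L.ld v hv).P.inertia Gal(Ω/K) := by
  unfold inr at hτ
  rw [dif_pos hv] at hτ
  exact hτ

private theorem lhom_tmem {D : RD0 K p ζ} (L : LDs D Ω) {v : Pl K} (hv : v ∉ D.S0) :
    L.t v ∈ inr L v := by
  unfold inr
  rw [dif_pos hv, gtw_t L v hv]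
  exact (L.ld v hv).ht

theorem lhom_in (hp : p.Prime) (hζ : IsPrimitiveRoot ζ p) {D : RD0 K p ζ} (L : LDs D Ω)
    {G : Type} [Group G] (Dg : GT p m u w N G) (φ₀ : Gal(Ω/K) →* G) (b : Fin m → Kˣ)
    (f : Fin N → Finset (Pl K)) (hL : LH Dg L φ₀ b f) (φ : Gal(Ω/K) →* G)
    (l : Gal(Ω/K) → Fin w → ZMod p) (hF : FF Dg D φ₀ f φ l) (v : Pl K) (hv : v ∉ D.S0)
    (τ : Gal(Ω/K)) (hτ : τ ∈ inr L v) :
    (∀ i, v ∈ f i → φ τ = Dg.e (l τ) (kk p ζ (D.pi v) τ • Dg.y i)) ∧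
      ((∀ i, v ∉ f i) → φ τ = Dg.e (l τ) 0) := by
  have h0 := hL.un v hv τ hτ
  have h1 : ∀ k, kk p ζ (xi D Dg.y f k) τ =
      ((ord v (xi D Dg.y f k) : ℤ) : ZMod p) * kk p ζ (D.pi v) τ := fun k =>
    ld_kk hp hζ (fun h => hv (D.above v h)) (D.pi_self v hv) (L.ld v hv) τ (lhom_mem L hv hτ) _
  have h2 := hF τ
  rw [h0, mul_one] at h2
  refine ⟨fun i hi => ?_, fun hf => ?_⟩
  · rw [h2]
    congr 1
    funext k
    rw [h1, xi_ord_mem hp D Dg.y f hL.dj hL.out k hi, Pi.smul_apply, smul_eq_mul, mul_comm]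
  · rw [h2]
    congr 1
    funext k
    rw [h1, xi_ord_not D Dg.y f hL.out k hv hf, Int.cast_zero, zero_mul, Pi.zero_apply]

theorem lhom_t (hp : p.Prime) (hζ : IsPrimitiveRoot ζ p) {D : RD0 K p ζ} (L : LDs D Ω)
    {G : Type} [Group G] (Dg : GT p m u w N G) (φ₀ : Gal(Ω/K) →* G) (b : Fin m → Kˣ)
    (f : Fin N → Finset (Pl K)) (hL : LH Dg L φ₀ b f) (φ : Gal(Ω/K) →* G)
    (l : Gal(Ω/K) → Fin w → ZMod p) (hF : FF Dg D φ₀ f φ l) (v : Pl K) (hv : v ∉ D.S0) :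
    (∀ i, v ∈ f i → φ (L.t v) = Dg.e (l (L.t v)) (Dg.y i)) ∧
      ((∀ i, v ∉ f i) → φ (L.t v) = Dg.e (l (L.t v)) 0) := by
  have h1 := lhom_in hp hζ L Dg φ₀ b f hL φ l hF v hv (L.t v) (lhom_tmem L hv)
  have h2 := (kk_pi hp hζ D L v v hv hv).1 rfl
  refine ⟨fun i hi => ?_, h1.2⟩
  rw [h1.1 i hi, h2, one_smul]

private theorem lhom_e0pow {G : Type} [Group G] (Dg : GT p m u w N G) (a : Fin w → ZMod p)
    (n : ℕ) : Dg.e a 0 ^ n = Dg.e (n • a) 0 := by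
  induction n with
  | zero => rw [pow_zero, zero_smul, gt_e0]
  | succ n ih => rw [pow_succ, ih, gt_mul0, succ_nsmul]

theorem lhom_exp (hp : p.Prime) (hζ : IsPrimitiveRoot ζ p) {D : RD0 K p ζ} (L : LDs D Ω)
    {G : Type} [Group G] (Dg : GT p m u w N G) (φ₀ : Gal(Ω/K) →* G) (b : Fin m → Kˣ)
    (f : Fin N → Finset (Pl K)) (hL : LH Dg L φ₀ b f) (φ : Gal(Ω/K) →* G)
    (l : Gal(Ω/K) → Fin w → ZMod p) (hF : FF Dg D φ₀ f φ l) (v : Pl K) (hv : v ∉ D.S0)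
    (τ : Gal(Ω/K)) (hτ : τ ∈ inr L v) : φ τ ^ p = 1 := by
  have h1 := lhom_in hp hζ L Dg φ₀ b f hL φ l hF v hv τ hτ
  by_cases hf : ∃ i, v ∈ f i
  · obtain ⟨i, hi⟩ := hf
    rw [h1.1 i hi]
    exact gt_pow hp Dg i (l τ) _
  · rw [h1.2 fun i hi => hf ⟨i, hi⟩, lhom_e0pow]
    have h3 : p • l τ = 0 := by
      funext c
      rw [Pi.smul_apply, nsmul_eq_mul, CharP.cast_eq_zero, zero_mul, Pi.zero_apply]
    rw [h3, gt_e0]

private theorem lhom_kprod (hp : p.Prime) (hζ : IsPrimitiveRoot ζ p) {n : ℕ} (b : Fin n → Kˣ)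
    (θ : Fin n → ZMod p) (σ : Gal(Ω/K)) :
    kk p ζ (∏ k, b k ^ (θ k).val) σ = ∑ k, θ k * kk p ζ (b k) σ := by
  rw [kk_prod_arg hp hζ]
  refine Finset.sum_congr rfl fun k _ => ?_
  rw [← zpow_natCast, kk_zpow_arg hp hζ, gkum_val hp]

private theorem lhom_kfam (hp : p.Prime) (hζ : IsPrimitiveRoot ζ p) (D : RD0 K p ζ)
    (x : Fin N → ZMod p) (f : Fin N → Finset (Pl K)) (σ : Gal(Ω/K)) :
    kk p ζ (∏ i, ∏ v ∈ f i, D.pi v ^ (x i).val) σ =
      ∑ i, x i * ∑ v ∈ f i, kk p ζ (D.pi v) σ := by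
  rw [kk_prod_arg hp hζ]
  refine Finset.sum_congr rfl fun i _ => ?_
  rw [kk_prod_arg hp hζ, Finset.mul_sum]
  refine Finset.sum_congr rfl fun v _ => ?_
  rw [← zpow_natCast, kk_zpow_arg hp hζ, gkum_val hp]

private theorem lhom_kak (hp : p.Prime) (hζ : IsPrimitiveRoot ζ p) (D : RD0 K p ζ)
    (c : CR p m N) (b : Fin m → Kˣ) (f : Fin N → Finset (Pl K)) (j : Fin m) (σ : Gal(Ω/K)) :
    kk p ζ (akR D c b f j) σ =
      kk p ζ (b j) σ + ∑ i, c.x i j * ∑ v ∈ f i, kk p ζ (D.pi v) σ := by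
  unfold akR
  rw [kk_mul_arg hp hζ, lhom_kfam hp hζ D (fun i => c.x i j) f σ]

private theorem lhom_indep (hp : p.Prime) (hζ : IsPrimitiveRoot ζ p) {D : RD0 K p ζ}
    (L : LDs D Ω) {G : Type} [Group G] (Dg : GT p m u w N G) (φ₀ : Gal(Ω/K) →* G)
    (b : Fin m → Kˣ) (f : Fin N → Finset (Pl K)) (hL : LH Dg L φ₀ b f)
    (hi : ∀ θ : Fin m → ZMod p, θ ≠ 0 → ¬ IsPow p (bp b θ)) (θ : Fin m → ZMod p) (hθ : θ ≠ 0) :
    ¬ IsPow p (∏ j, akR D Dg.cr b f j ^ (θ j).val) := by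
  intro hpow
  have h1 : ∀ σ : Gal(Ω/K), (∑ j, θ j * kk p ζ (b j) σ) +
      ∑ i, dt θ (Dg.cr.x i) * ∑ v ∈ f i, kk p ζ (D.pi v) σ = 0 := by
    intro σ
    have h2 := (kk_eq_zero_iff (Ω := Ω) hp hζ _).2 hpow σ
    rw [lhom_kprod hp hζ] at h2
    rw [← h2]
    have h3 : ∀ j, θ j * kk p ζ (akR D Dg.cr b f j) σ = θ j * kk p ζ (b j) σ +
        ∑ i, θ j * Dg.cr.x i j * ∑ v ∈ f i, kk p ζ (D.pi v) σ := by
      intro j
      rw [lhom_kak hp hζ, mul_add, Finset.mul_sum]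
      congr 1
      refine Finset.sum_congr rfl fun i _ => ?_
      rw [mul_assoc]
    rw [Finset.sum_congr rfl fun j _ => h3 j, Finset.sum_add_distrib, Finset.sum_comm]
    congr 1
    refine Finset.sum_congr rfl fun i _ => ?_
    rw [← Finset.sum_mul]
    rfl
  have h2 : ∀ i, ∀ v ∈ f i, dt θ (Dg.cr.x i) = 0 := by
    intro i v hvi
    have hv := hL.out i v hvi
    have h3 := h1 (L.t v)
    have h4 : ∀ j, kk p ζ (b j) (L.t v) = 0 := by
      intro j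
      rw [← hL.hb, hL.un v hv _ (lhom_tmem L hv), map_one, toAdd_one, Pi.zero_apply]
    have h5 : ∑ j, θ j * kk p ζ (b j) (L.t v) = 0 :=
      Finset.sum_eq_zero fun j _ => by rw [h4, mul_zero]
    rw [h5, zero_add, Finset.sum_eq_single i] at h3
    · rw [Finset.sum_eq_single v] at h3
      · rw [(kk_pi hp hζ D L v v hv hv).1 rfl, mul_one] at h3
        exact h3
      · intro v' hv' hne
        exact (kk_pi hp hζ D L v' v (hL.out i v' hv') hv).2 hne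
      · intro h
        exact absurd hvi h
    · intro i' _ hne
      have h6 : ∑ v' ∈ f i', kk p ζ (D.pi v') (L.t v) = 0 := by
        refine Finset.sum_eq_zero fun v' hv' => ?_
        refine (kk_pi hp hζ D L v' v (hL.out i' v' hv') hv).2 ?_
        rintro rfl
        exact Finset.disjoint_left.1 (hL.dj i' i hne) hv' hvi
      rw [h6, mul_zero]
    · intro h
      exact absurd (Finset.mem_univ i) h
  refine hi θ hθ ((kk_eq_zero_iff (Ω := Ω) hp hζ _).1 fun σ => ?_)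
  unfold bp
  rw [lhom_kprod hp hζ]
  have h3 := h1 σ
  have h4 : ∑ i, dt θ (Dg.cr.x i) * ∑ v ∈ f i, kk p ζ (D.pi v) σ = 0 := by
    refine Finset.sum_eq_zero fun i _ => ?_
    rcases (f i).eq_empty_or_nonempty with h5 | ⟨v, hv⟩
    · rw [h5, Finset.sum_empty, mul_zero]
    · rw [h2 i v hv, zero_mul]
  rw [h4, add_zero] at h3
  exact h3

theorem lhom_sur (hp : p.Prime) (hζ : IsPrimitiveRoot ζ p) {D : RD0 K p ζ} (L : LDs D Ω)
    {G : Type} [Group G] [Finite G] (Dg : GT p m u w N G) (φ₀ : Gal(Ω/K) →* G)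
    (b : Fin m → Kˣ) (f : Fin N → Finset (Pl K)) (hL : LH Dg L φ₀ b f)
    (hs : Function.Surjective φ₀) (hi : ∀ θ : Fin m → ZMod p, θ ≠ 0 → ¬ IsPow p (bp b θ))
    (φ : Gal(Ω/K) →* G) (l : Gal(Ω/K) → Fin w → ZMod p) (hF : FF Dg D φ₀ f φ l) :
    Function.Surjective φ := by
  rw [← MonoidHom.range_eq_top]
  refine gt_gen hp Dg φ.range ?_ ?_
  · intro g
    obtain ⟨σ, rfl⟩ := hs g
    refine ⟨φ σ, ⟨σ, rfl⟩, ?_⟩
    set x : Fin u → ZMod p := fun k => kk p ζ (xi D Dg.y f k) σ with hx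
    have h1 : φ σ = Dg.e (l σ) x * φ₀ σ := hF σ
    have h2 : Dg.e (l σ) x * Dg.e (-(l σ) - bl Dg.n x (-x)) (-x) = 1 := by
      rw [Dg.mul]
      have h3 : l σ + (-(l σ) - bl Dg.n x (-x)) + bl Dg.n x (-x) = 0 := by abel
      rw [h3, add_neg_cancel, gt_e0]
    have h3 : (Dg.e (l σ) x)⁻¹ = Dg.e (-(l σ) - bl Dg.n x (-x)) (-x) :=
      inv_eq_of_mul_eq_one_right h2
    have h4 := Dg.conj (φ σ)⁻¹ (-(l σ) - bl Dg.n x (-x)) (-x)
    have h5 : φ₀ σ = φ σ *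
        ((φ σ)⁻¹ * Dg.e (-(l σ) - bl Dg.n x (-x)) (-x) * (φ σ)⁻¹⁻¹) := by
      rw [← h3, h1]
      group
    exact ⟨_, _, h5.trans (congrArg (fun t => φ σ * t) h4)⟩
  · intro z
    obtain ⟨σ, hσ⟩ := kk_surj (Ω := Ω) hp hζ (fun j => akR D Dg.cr b f j)
      (lhom_indep hp hζ L Dg φ₀ b f hL hi) (Multiplicative.toAdd z)
    refine ⟨φ σ, ⟨σ, rfl⟩, ?_⟩
    apply Multiplicative.toAdd.injective
    funext j
    rw [hF σ, map_mul, Dg.pie, toAdd_mul, toAdd_ofAdd, Pi.add_apply, hL.hb, ← hσ j,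
      lhom_kak hp hζ, add_comm]
    congr 1
    have h1 : ∀ k, kk p ζ (xi D Dg.y f k) σ =
        ∑ i, Dg.y i k * ∑ v ∈ f i, kk p ζ (D.pi v) σ := fun k =>
      lhom_kfam hp hζ D (fun i => Dg.y i k) f σ
    unfold mv
    have h2 : ∀ k, Dg.ι j k * kk p ζ (xi D Dg.y f k) σ =
        ∑ i, Dg.ι j k * Dg.y i k * ∑ v ∈ f i, kk p ζ (D.pi v) σ := by
      intro k
      rw [h1, Finset.mul_sum]
      refine Finset.sum_congr rfl fun i _ => ?_
      rw [mul_assoc]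
    rw [Finset.sum_congr rfl fun k _ => h2 k, Finset.sum_comm]
    refine Finset.sum_congr rfl fun i _ => ?_
    rw [← Finset.sum_mul]
    rfl

end H38.BG
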