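import Pool.Agent.H38.BG.DUp
import Pool.Agent.H63.MA.GFinL

/-!
# [H38 BG AFL] from homomorphisms to fields, lower bound, 70-110 lines (as GFinL in H63/MA). File Pool/Agent/H38/BG/AFl.lean

`G` transitive on `Fin n`, `a = indG G > 0`, `K ⊆ QBar` a number field, `D : RD0 K p ζ`, `L : LDs D QBar`.
* `afl`: if for `X ≥ X₀` there is a set `Rs` of at least `C X (log X)^{N-1}` surjective homomorphisms of finite type as in `llowb`, and `ind h = indG G` for `h` conjugate to some `g i`, then `nK K QBar G B ≥ ⌈c B^{1/a} (log B)^{N-1}⌉` for large `B`.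
Proof as `fin_low` in `H63/MA/GFinL.lean`: `C₂` from `dsm_up`, `X` from `gfinl_X` (`C₂ X^a = B`); `many_classes`: `#Rs ≤ #G^{#G} * nK G K B`, `gfinl_spec`: `nK G K B ≤ Spec.nK K QBar G B`. If `Spec.nK = ⊤` there is nothing to prove; otherwise it is a natural number `k`, and `k ≥ C X (log X)^{N-1} / #G^{#G} ≥ c B^{1/a} (log B)^{N-1}`, so `k ≥ ⌈·⌉`.
-/

set_option autoImplicit false

open scoped NumberField
open IsDedekindDomain H38.ML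

noncomputable section

namespace H38.BG

open H63.MA H38.BB

theorem afl {n : ℕ} (hn : 2 ≤ n) (G : Subgroup (Equiv.Perm (Fin n)))
    (hG : MulAction.IsPretransitive G (Fin n)) (ha : 0 < indG G) {p : ℕ}
    (K : IntermediateField ℚ QBar)
    [NumberField K] {ζ : K} (D : RD0 K p ζ) (L : LDs D QBar) {m u w N : ℕ} (Dg : GT p m u w N G)
    (hI : ∀ (h : G) (i : Fin N), IsConj h (Dg.g i) → ind (h : Equiv.Perm (Fin n)) = indG G)
    (hlow : ∃ C X₀ : ℝ, 0 < C ∧ 3 ≤ X₀ ∧ ∀ X : ℝ, X₀ ≤ X → ∃ Rs : Finset (Gal(QBar/K) →* G),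
      C * X * Real.log X ^ (N - 1) ≤ (Rs.card : ℝ) ∧
      ∀ φ ∈ Rs, FT φ ∧ Function.Surjective φ ∧ ∃ T : Finset (Pl K),
        (∀ v ∈ T, v ∉ D.S0) ∧ ∏ v ∈ T, (nm v : ℝ) ≤ X ∧
        (∀ v ∈ T, ∃ (i : Fin N) (h : G), IsConj h (Dg.g i) ∧
          ∀ τ ∈ inr L v, φ τ ∈ Subgroup.zpowers h) ∧
        ∀ v, v ∉ D.S0 → v ∉ T → ∀ τ ∈ inr L v, φ τ = 1) :
    ∃ c B₀ : ℝ, 0 < c ∧ ∀ B : ℝ, B₀ ≤ B →
      ((⌈c * B ^ (1 / (indG G : ℝ)) * Real.log B ^ (N - 1)⌉₊ : ℕ) : ℕ∞) ≤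
        Spec.nK K QBar G B := by
  classical
  obtain ⟨a, haa⟩ : ∃ a : ℕ, a = indG G := ⟨_, rfl⟩
  have ha0 : 0 < a := by rw [haa]; exact ha
  have ha0' : (0 : ℝ) < a := by exact_mod_cast ha0
  obtain ⟨C₂, hC₂, hdisc⟩ := dsm_up hn G hG K D L (⟨0, by omega⟩ : Fin n)
  obtain ⟨C, X₀, hC, hX₀, hlow⟩ := hlow
  obtain ⟨M, hM⟩ : ∃ M : ℕ, M = Nat.card G ^ Nat.card G := ⟨_, rfl⟩
  have hM0 : 0 < M := by
    rw [hM]
    exact pow_pos Nat.card_pos _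
  have hM0' : (0 : ℝ) < M := by exact_mod_cast hM0
  have hCa : 0 < C₂ ^ (1 / (a : ℝ)) := Real.rpow_pos_of_pos hC₂ _
  refine ⟨C / C₂ ^ (1 / (a : ℝ)) * (1 / (2 * (a : ℝ))) ^ (N - 1) / M,
    max 1 (max (C₂ * X₀ ^ a) (C₂ ^ 2)), by positivity, fun B hB => ?_⟩
  have hB1 : 1 ≤ B := (le_max_left _ _).trans hB
  have hB2 : C₂ * X₀ ^ a ≤ B := (le_max_left _ _).trans ((le_max_right _ _).trans hB)
  have hB3 : C₂ ^ 2 ≤ B := (le_max_right _ _).trans ((le_max_right _ _).trans hB)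
  obtain ⟨X, hX1, hX2, hX3, hX4⟩ := gfinl_X a ha0 C₂ X₀ hC₂ (by linarith) B hB1 hB2 hB3
  by_cases htop : Spec.nK K QBar G B = ⊤
  · rw [htop]; exact le_top
  obtain ⟨k, hk⟩ : ∃ k : ℕ, Spec.nK K QBar G B = (k : ℕ∞) := ⟨_, (ENat.coe_toNat htop).symm⟩
  obtain ⟨Rs, hRs, hφ⟩ := hlow X hX1
  have h1 : ∀ ρ ∈ Rs, Function.Surjective ρ ∧ FT ρ ∧
      (relDisc K (fieldOf (⟨0, by omega⟩ : Fin n) ρ) : ℝ) ≤ B := by
    intro ρ hρ
    obtain ⟨hft, hsurj, T, hT1, hT2, hT3, hT4⟩ := hφ ρ hρ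
    refine ⟨hsurj, hft, (hdisc ρ hsurj hft T hT1 ?_ hT4).trans ?_⟩
    · intro v hv
      obtain ⟨i, h, hh, hpow⟩ := hT3 v hv
      exact ⟨h, hI h i hh, hpow⟩
    · rw [← haa, ← hX2]
      apply mul_le_mul_of_nonneg_left _ hC₂.le
      exact pow_le_pow_left₀ (Finset.prod_nonneg fun v _ => Nat.cast_nonneg _) hT2 a
  have h2 := many_classes G hG K (⟨0, by omega⟩ : Fin n) B Rs h1
  have h3 : ((Rs.card : ℕ) : ℕ∞) ≤ ((M * k : ℕ) : ℕ∞) := by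
    refine h2.trans ?_
    rw [Nat.cast_mul, ← hM]
    have h4 := gfinl_spec hn G K B
    rw [hk] at h4
    exact mul_le_mul_right h4 _
  have h5 : Rs.card ≤ M * k := by exact_mod_cast h3
  have h6 : (Rs.card : ℝ) ≤ M * k := by exact_mod_cast h5
  have h7 : C * X * Real.log X ^ (N - 1) ≤ M * k := hRs.trans h6
  have hlB : 0 ≤ Real.log B := Real.log_nonneg hB1
  have h8 : (1 / (2 * (a : ℝ)) * Real.log B) ^ (N - 1) ≤ Real.log X ^ (N - 1) :=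
    pow_le_pow_left₀ (by positivity) hX4 _
  have hXp : 0 < X := by linarith
  have h9 : C * X * (1 / (2 * (a : ℝ)) * Real.log B) ^ (N - 1) ≤ M * k :=
    (mul_le_mul_of_nonneg_left h8 (by positivity)).trans h7
  rw [← haa]
  have h10 : C / C₂ ^ (1 / (a : ℝ)) * (1 / (2 * (a : ℝ))) ^ (N - 1) / M * B ^ (1 / (a : ℝ)) *
      Real.log B ^ (N - 1) = C * X * (1 / (2 * (a : ℝ)) * Real.log B) ^ (N - 1) / M := by
    rw [hX3, mul_pow]
    field_simp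
  have h11 : C / C₂ ^ (1 / (a : ℝ)) * (1 / (2 * (a : ℝ))) ^ (N - 1) / M * B ^ (1 / (a : ℝ)) *
      Real.log B ^ (N - 1) ≤ (k : ℝ) := by
    rw [h10, div_le_iff₀ hM0']
    linarith
  rw [hk]
  exact_mod_cast Nat.ceil_le.2 h11

end H38.BG
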