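import Pool.Agent.H38.BB.CDef
import Pool.Agent.H63.MA.GTw

/-!
# BG-TDEF: definitions for the Galois part (least index elements in the second centre)

`G` a finite group, `T` the subgroup generated by the classes of the `g i`, `W = [G, T]` central of exponent `p`, `V = T / W` elementary
abelian, everything in coordinates (`p = 2` is allowed).
* `mv ι x`: the linear map with matrix `ι`; `bl n x y`: the bilinear map with coefficients `n`.
* `GT p m u w N G`: `π : G → (ZMod p)^m` the largest elementary abelian `p`-quotient; `e a x` (`a ∈ W = (ZMod p)^w`, `x ∈ V = (ZMod p)^u`)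
  the elements of `T`; `ι : V → (ZMod p)^m`; `β` the commutator pairing `(ZMod p)^m × V → W`; `g i = e (a i) (y i)` the representatives of the classes;
  `Θ i` the annihilator of `{z : β z (y i) = 0}`.
* `GT.cr`: the class data `(x i = ι (y i), Θ i)`.
* `inr L v`: the inertia group of the chosen prime over `v` (`⊥` for `v ∈ S0`).
* `Ty Dg L φ i v`: `v` is good, `φ (inertia)` has exponent `p` and `φ (t v)` is conjugate to `g i`. `Rm L φ v`: `φ` is ramified at `v ∉ S0`.
-/

set_option autoImplicit false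

open scoped NumberField
open IsDedekindDomain

noncomputable section

namespace H38.BG

open H63.MA H38.BB

/-- the linear map with a given matrix -/
def mv {p m u : ℕ} (ι : Fin m → Fin u → ZMod p) (x : Fin u → ZMod p) : Fin m → ZMod p :=
  fun j => ∑ k, ι j k * x k

/-- the bilinear map with given coefficients -/
def bl {p m u w : ℕ} (n : Fin w → Fin m → Fin u → ZMod p) (x : Fin m → ZMod p)
    (y : Fin u → ZMod p) : Fin w → ZMod p := fun c => ∑ j, ∑ k, n c j k * x j * y k

/-- coordinates of a group with given classes of order `p` in the second centre -/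
structure GT (p m u w N : ℕ) (G : Type) [Group G] where
  π : G →* Multiplicative (Fin m → ZMod p)
  sur : Function.Surjective π
  univ : ∀ (χ : G →* Multiplicative (ZMod p)) (g : G), π g = 1 → χ g = 1
  e : (Fin w → ZMod p) → (Fin u → ZMod p) → G
  inj : ∀ a x a' x', e a x = e a' x' → a = a' ∧ x = x'
  ι : Fin m → Fin u → ZMod p
  n : Fin w → Fin u → Fin u → ZMod p
  β : Fin w → Fin m → Fin u → ZMod p
  mul : ∀ a x a' x', e a x * e a' x' = e (a + a' + bl n x x') (x + x')
  conj : ∀ g a x, g * e a x * g⁻¹ = e (a + bl β (Multiplicative.toAdd (π g)) x) x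
  pie : ∀ a x, π (e a x) = Multiplicative.ofAdd (mv ι x)
  a : Fin N → Fin w → ZMod p
  y : Fin N → Fin u → ZMod p
  pow : ∀ i, e (a i) (y i) ^ p = 1
  ne : ∀ i, e (a i) (y i) ≠ 1
  uni : ∀ i j, IsConj (e (a i) (y i)) (e (a j) (y j)) → i = j
  Θ : Fin N → Submodule (ZMod p) (Fin m → ZMod p)
  ann : ∀ i (z : Fin m → ZMod p), (∀ θ ∈ Θ i, dt θ z = 0) ↔ bl β z (y i) = 0
  card : ∀ i, Nat.card (Θ i) = Nat.card {h : G // IsConj h (e (a i) (y i))}

/-- the representatives of the classes -/
def GT.g {p m u w N : ℕ} {G : Type} [Group G] (Dg : GT p m u w N G) (i : Fin N) : G :=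
  Dg.e (Dg.a i) (Dg.y i)

/-- the class data -/
def GT.cr {p m u w N : ℕ} {G : Type} [Group G] (Dg : GT p m u w N G) : CR p m N where
  x i := mv Dg.ι (Dg.y i)
  Θ := Dg.Θ
  self i θ hθ := by
    refine (Dg.ann i (mv Dg.ι (Dg.y i))).2 ?_ θ hθ
    have h := Dg.conj (Dg.e 0 (Dg.y i)) 0 (Dg.y i)
    rw [mul_inv_cancel_right, Dg.pie, toAdd_ofAdd, zero_add] at h
    exact ((Dg.inj _ _ _ _ h).1).symm

section loc

variable {K : Type} [Field K] [NumberField K] {p : ℕ} {ζ : K} {D : RD0 K p ζ} {Ω : Type}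
  [Field Ω] [Algebra K Ω]

open Classical in
/-- the inertia group of the chosen prime over `v` -/
def inr (L : LDs D Ω) (v : Pl K) : Subgroup Gal(Ω/K) :=
  if h : v ∉ D.S0 then (L.ld v h).P.inertia Gal(Ω/K) else ⊥

/-- primes of type `i` -/
def Ty {m u w N : ℕ} {G : Type} [Group G] (Dg : GT p m u w N G) (L : LDs D Ω)
    (φ : Gal(Ω/K) →* G) (i : Fin N) (v : Pl K) : Prop :=
  D.Gd v ∧ IsConj (φ (L.t v)) (Dg.g i) ∧ ∀ τ ∈ inr L v, φ τ ^ p = 1

/-- ramified primes outside `S0` -/
def Rm {G : Type} [Group G] (L : LDs D Ω) (φ : Gal(Ω/K) →* G) (v : Pl K) : Prop :=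
  v ∉ D.S0 ∧ ∃ τ ∈ inr L v, φ τ ≠ 1

end loc

end H38.BG
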