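import Pool.Agent.H38.BG.DLow
import Pool.Agent.H38.BG.TDef
import Pool.Agent.H38.ML.Small

/-!
# [H38 BG DLO] the discriminant of the field of a homomorphism from below, 50-90 lines (as disc_lo in H63/MA/GDisU). File Pool/Agent/H38/BG/DLo.lean

`dsm_lo`: for surjective `ρ` of finite type and a finite set `T` of primes outside `S0`: `∏_{v ∈ T} nm v ^ (n - orbs ((inr L v).map ρ)) ≤ relDisc K (fieldOf i₀ ρ)`.

Proof: `small_field` (`fieldOf i₀ ρ` is finite of degree `n` over `K`, so a number field, `embOrb (fieldOf i₀ ρ) J = orbs (J.map ρ)` for all `J`), `dlow` with `P v = (L.ld v _).P` for `v ∉ S0` (`LD.prime`, `LD.under`; anything for `v ∈ S0`), `inr L v = (L.ld v _).P.inertia` by `dif_pos`; `H38.ML.relDisc` is `dif_pos` for a number field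
(as in `disc_lo` in `H63/MA/GDisU.lean`); cast to the reals.
-/

set_option autoImplicit false

open scoped NumberField
open IsDedekindDomain H38.ML

noncomputable section

namespace H38.BG

open H63.MA

theorem dsm_lo {n : ℕ} (hn : 2 ≤ n) (G : Subgroup (Equiv.Perm (Fin n)))
    (hG : MulAction.IsPretransitive G (Fin n)) {p : ℕ} (K : IntermediateField ℚ QBar)
    [NumberField K] {ζ : K} (D : RD0 K p ζ) (L : LDs D QBar) (i₀ : Fin n)
    (ρ : Gal(QBar/K) →* G) (hρ : Function.Surjective ρ) (hft : FT ρ) (T : Finset (Pl K))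
    (hT : ∀ v ∈ T, v ∉ D.S0) :
    ∏ v ∈ T, (nm v : ℝ) ^ (n - orbs (((inr L v).map ρ).map G.subtype)) ≤
      (H38.ML.relDisc K (fieldOf i₀ ρ) : ℝ) := by
  classical
  obtain ⟨hfd, hdeg, -, hemb⟩ := small_field G hG K i₀ ρ hρ hft
  have hnf : NumberField (fieldOf i₀ ρ) := NumberField.of_module_finite K (fieldOf i₀ ρ)
  have hP : ∀ v ∈ T, ((fun v : Pl K => if h : v ∉ D.S0 then (L.ld v h).P else ⊥) v).IsPrime ∧
      ((fun v : Pl K => if h : v ∉ D.S0 then (L.ld v h).P else ⊥) v).under (𝓞 K) = v.asIdeal := by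
    intro v hv
    have h0 := hT v hv
    simp only [dif_pos h0]
    exact ⟨(L.ld v h0).prime, (L.ld v h0).under⟩
  have h1 := dlow (fieldOf i₀ ρ) T
    (fun v : Pl K => if h : v ∉ D.S0 then (L.ld v h).P else ⊥) hP
  have hrel : H38.ML.relDisc K (fieldOf i₀ ρ) =
      Ideal.absNorm (differentIdeal (𝓞 K) (𝓞 (fieldOf i₀ ρ))) := by
    unfold H38.ML.relDisc
    rw [dif_pos hnf]
  have h2 : ∏ v ∈ T, nm v ^ (n - orbs (((inr L v).map ρ).map G.subtype)) =
      ∏ v ∈ T, nm v ^ (Module.finrank K (fieldOf i₀ ρ) - embOrb (fieldOf i₀ ρ)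
        (((fun v : Pl K => if h : v ∉ D.S0 then (L.ld v h).P else ⊥) v).inertia Gal(QBar/K))) := by
    refine Finset.prod_congr rfl fun v hv => ?_
    have h0 := hT v hv
    rw [hdeg, hemb]
    simp only [dif_pos h0]
    have h3 : inr L v = (L.ld v h0).P.inertia Gal(QBar/K) := by
      unfold inr
      rw [dif_pos h0]
    rw [h3]
  rw [hrel]
  rw [← h2] at h1
  exact_mod_cast h1

end H38.BG
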