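import Pool.Agent.H38.BG.TDef
import Pool.Agent.H38.ML.Spec
import Pool.Agent.H38.ML.Classes

/-!
# [H38 BG ABET] the number of classes, 40-70 lines. File Pool/Agent/H38/BG/ABet.lean

`K` contains a primitive `#G`-th root of unity, the elements of least index are exactly the elements conjugate to some `g i` (`Dg : GT`). Then `betaAll K QBar G = N`.
Proof. `Spec.KConj` is the same as `H38.ML.KConj` (definitionally, `betaAll_eq_spec`), by `kconj_iff` it is conjugacy in `G`. The map `Fin N → Quot`, `i ↦ [g i]` is injective (`Dg.uni`; conjugacy is an equivalence relation, `Quot.exact`/`Relation.EqvGen`, as in `classes`) and surjective (`hI`), so `Nat.card (Quot ..) = N`.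
-/

set_option autoImplicit false

open scoped NumberField
open IsDedekindDomain H38.ML

noncomputable section

namespace H38.BG

open H63.MA H38.BB

theorem abet {n : ℕ} (G : Subgroup (Equiv.Perm (Fin n))) (K : IntermediateField ℚ QBar) (z : K)
    (hz : IsPrimitiveRoot z (Nat.card G)) {p m u w N : ℕ} (Dg : GT p m u w N G)
    (hI : ∀ h : G, (h ≠ 1 ∧ ind (h : Equiv.Perm (Fin n)) = indG G) ↔ ∃ i, IsConj h (Dg.g i)) :
    Spec.betaAll K QBar G = N := by
  have hk : ∀ g h : G, Spec.KConj K QBar G g h ↔ IsConj g h := by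
    intro g h
    have h1 : Spec.KConj K QBar G g h ↔ H38.ML.KConj G K g h := Iff.rfl
    rw [h1, kconj_iff G K z hz g h, isConj_iff]
    constructor
    · rintro ⟨x, hx⟩
      exact ⟨x, hx.symm⟩
    · rintro ⟨x, hx⟩
      exact ⟨x, hx.symm⟩
  have hmem : ∀ i, Dg.g i ≠ 1 ∧ Spec.ind ((Dg.g i : G) : Equiv.Perm (Fin n)) = Spec.indG G :=
    fun i => (hI (Dg.g i)).2 ⟨i, IsConj.refl _⟩
  unfold Spec.betaAll
  have hcard : Nat.card (Fin N) = Nat.card (Quot fun g h : {g : G // g ≠ 1 ∧
      Spec.ind (g : Equiv.Perm (Fin n)) = Spec.indG G} => Spec.KConj K QBar G g.1 h.1) := by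
    refine Nat.card_eq_of_bijective (fun i => Quot.mk _ ⟨Dg.g i, hmem i⟩) ⟨?_, ?_⟩
    · intro i j hij
      let P : Quot (fun g h : {g : G // g ≠ 1 ∧
          Spec.ind (g : Equiv.Perm (Fin n)) = Spec.indG G} => Spec.KConj K QBar G g.1 h.1) → Prop :=
        Quot.lift (fun x => IsConj (Dg.g i) x.1) (by
          intro x y hxy
          have hxy' : IsConj x.1 y.1 := (hk _ _).1 hxy
          exact propext ⟨fun h => h.trans hxy', fun h => h.trans hxy'.symm⟩)
      have h1 : P (Quot.mk _ ⟨Dg.g i, hmem i⟩) := IsConj.refl _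
      have h2 : P (Quot.mk _ ⟨Dg.g j, hmem j⟩) := by
        have h3 : P (Quot.mk _ ⟨Dg.g i, hmem i⟩) = P (Quot.mk _ ⟨Dg.g j, hmem j⟩) :=
          congrArg P hij
        exact h3.mp h1
      exact Dg.uni i j h2
    · intro q
      induction q using Quot.ind with
      | mk x =>
        obtain ⟨i, hi⟩ := (hI x.1).1 x.2
        exact ⟨i, Quot.sound ((hk _ _).2 hi.symm)⟩
  rw [← hcard, Nat.card_eq_fintype_card, Fintype.card_fin]

end H38.BG
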