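import Pool.Agent.H38.BG.DRho
import Pool.Agent.H38.BG.DLo
import Pool.Agent.H63.MA.GFinU

/-!
# [H38 BG AFU] from homomorphisms to fields, upper bound, 70-110 lines (as GFinU in H63/MA). File Pool/Agent/H38/BG/AFu.lean

`G` transitive on `Fin n`, `a = indG G > 0`, `K ⊆ QBar` a number field, `D : RD0 K p ζ`, `L : LDs D QBar`.
* `afu`: if every finite set of surjective homomorphisms `φ` of finite type with `∏_{v ∈ T} nm v ^ (n - orbs (φ(inr L v))) ≤ B` for all finite sets `T` of primes outside `S0` has at most `C B^{1/a} (log B)^{N-1}` elements (`B ≥ B₀`), then `nK K QBar G B` is finite and at most `C B^{1/a} (log B)^{N-1}`.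
Proof as `fin_up` in `H63/MA/GFinU.lean`: for every element `q` of the quotient in `Spec.nK` choose a representative `L_q` and a surjective `ρ_q` of finite type with `L_q = fieldOf i₀ ρ_q` (`dsm_rho`); `q ↦ ρ_q` is injective; `relDisc K L_q ≤ B` (`gfinu_disc`), `dsm_lo`. So every finite set of elements of the quotient has at most that many
elements, so the quotient is finite and `ENat.card` is a natural number `k` with the bound.
-/

set_option autoImplicit false

open scoped NumberField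
open IsDedekindDomain H38.ML

noncomputable section

namespace H38.BG

open H63.MA H38.BB

theorem afu {n : ℕ} (hn : 2 ≤ n) (G : Subgroup (Equiv.Perm (Fin n)))
    (hG : MulAction.IsPretransitive G (Fin n)) {p : ℕ} (K : IntermediateField ℚ QBar)
    [NumberField K] {ζ : K} (D : RD0 K p ζ) (L : LDs D QBar) (N : ℕ)
    (hup : ∃ C B₀ : ℝ, 0 < C ∧ ∀ B : ℝ, B₀ ≤ B → ∀ Rs : Finset (Gal(QBar/K) →* G),
      (∀ φ ∈ Rs, FT φ ∧ Function.Surjective φ ∧ ∀ T : Finset (Pl K), (∀ v ∈ T, v ∉ D.S0) →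
        ∏ v ∈ T, (nm v : ℝ) ^ (n - orbs (((inr L v).map φ).map G.subtype)) ≤ B) →
      (Rs.card : ℝ) ≤ C * B ^ (1 / (indG G : ℝ)) * Real.log B ^ (N - 1)) :
    ∃ C B₀ : ℝ, 0 < C ∧ ∀ B : ℝ, B₀ ≤ B → ∃ k : ℕ, Spec.nK K QBar G B = (k : ℕ∞) ∧
      (k : ℝ) ≤ C * B ^ (1 / (indG G : ℝ)) * Real.log B ^ (N - 1) := by
  obtain ⟨C, B₀, hC, hup'⟩ := hup
  have i₀ : Fin n := ⟨0, by omega⟩
  refine ⟨C, B₀, hC, fun B hB => ?_⟩
  obtain ⟨Z, hZ⟩ : ∃ Z : ℝ, Z = C * B ^ (1 / (indG G : ℝ)) * Real.log B ^ (N - 1) := ⟨_, rfl⟩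
  rw [← hZ]
  have hex : ∀ q : (Quot fun L L' : {L : IntermediateField K QBar //
      Spec.IsSmall K QBar G L ∧ ∃ _ : NumberField L, (Spec.relDisc K L : ℝ) ≤ B} =>
      Nonempty (L.1 ≃ₐ[K] L'.1)), ∃ ρ : Gal(QBar/K) →* G, Function.Surjective ρ ∧ FT ρ ∧
      (Quot.out q).1 = fieldOf i₀ ρ :=
    fun q => dsm_rho hn G hG K i₀ _ (Quot.out q).2.1
  choose r hr1 hr2 hr3 using hex
  have hinj : Function.Injective r := by
    intro q q' h
    have h1 : (Quot.out q) = (Quot.out q') := Subtype.ext (by rw [hr3, hr3, h])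
    rw [← Quot.out_eq q, ← Quot.out_eq q', h1]
  have hfin : ∀ F : Finset (Quot fun L L' : {L : IntermediateField K QBar //
      Spec.IsSmall K QBar G L ∧ ∃ _ : NumberField L, (Spec.relDisc K L : ℝ) ≤ B} =>
      Nonempty (L.1 ≃ₐ[K] L'.1)), (F.card : ℝ) ≤ Z := by
    intro F
    have h1 := hup' B hB (F.map ⟨r, hinj⟩) (by
      intro φ hφ
      obtain ⟨q, -, rfl⟩ := Finset.mem_map.1 hφ
      change FT (r q) ∧ Function.Surjective (r q) ∧ ∀ T : Finset (Pl K),
        (∀ v ∈ T, v ∉ D.S0) →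
          ∏ v ∈ T, (nm v : ℝ) ^ (n - orbs (((inr L v).map (r q)).map G.subtype)) ≤ B
      refine ⟨hr2 q, hr1 q, fun T hT => ?_⟩
      have h2 := dsm_lo hn G hG K D L i₀ (r q) (hr1 q) (hr2 q) T hT
      have h3 : (H38.ML.relDisc K (fieldOf i₀ (r q)) : ℝ) ≤ B := by
        rw [← hr3 q]
        obtain ⟨hnf, hle⟩ := (Quot.out q).2.2
        rw [gfinu_disc K _ hnf]
        exact hle
      exact h2.trans h3)
    rw [Finset.card_map] at h1
    rw [hZ]
    exact h1
  have hfinQ : Finite (Quot fun L L' : {L : IntermediateField K QBar //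
      Spec.IsSmall K QBar G L ∧ ∃ _ : NumberField L, (Spec.relDisc K L : ℝ) ≤ B} =>
      Nonempty (L.1 ≃ₐ[K] L'.1)) := by
    by_contra hinf
    rw [not_finite_iff_infinite] at hinf
    obtain ⟨F, hF⟩ := Infinite.exists_subset_card_eq (Quot fun L L' : {L : IntermediateField K QBar //
      Spec.IsSmall K QBar G L ∧ ∃ _ : NumberField L, (Spec.relDisc K L : ℝ) ≤ B} =>
      Nonempty (L.1 ≃ₐ[K] L'.1)) (⌊Z⌋₊ + 1)
    have h5 := hfin F
    rw [hF] at h5
    push_cast at h5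
    have h6 := Nat.lt_floor_add_one Z
    linarith
  refine ⟨_, ENat.card_eq_coe_natCard _, ?_⟩
  have := Fintype.ofFinite (Quot fun L L' : {L : IntermediateField K QBar //
      Spec.IsSmall K QBar G L ∧ ∃ _ : NumberField L, (Spec.relDisc K L : ℝ) ≤ B} =>
      Nonempty (L.1 ≃ₐ[K] L'.1))
  have h6 := hfin Finset.univ
  rw [Finset.card_univ, ← Nat.card_eq_fintype_card] at h6
  exact h6

end H38.BG
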