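import Pool.Agent.H36.RT.Final
import Pool.Agent.H38.ML.SpecBridge
import Pool.Agent.H38.BG.TDef

/-!
# [H38 BG AKN] the field K0, 60-100 lines. File Pool/Agent/H38/BG/AKn.lean

* `akn`: for a finite group `G` there is a number field `K₀` such that over every number field `K ≥ K₀` in `QBar` there is a surjective homomorphism of finite type to `G`, and `K` contains a primitive `#G`-th root of unity and a square root of `-1`.
Proof. `H36.RT.realizable_all G` with `H38.ML.realizable_of_spec` gives `K₁`. `K₀ = K₁ ⊔ ℚ(z₀)` with `z₀ ∈ QBar` a primitive root of unity of order `4 * #G` (`HasEnoughRootsOfUnity`/`IsAlgClosed.exists_...`; a root of a cyclotomic polynomial; see how `td_all` in `H38/TD/TdAll.lean` adjoins roots of unity), finite over `ℚ` (`IntermediateField.adjoin.finiteDimensional`,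
`IntermediateField.finiteDimensional_sup`). `z = z₀^4`, `i = z₀^{#G}` (a primitive fourth root of unity, `i^2 = -1`), both in `K`.
-/

set_option autoImplicit false

open scoped NumberField
open IsDedekindDomain H38.ML

noncomputable section

namespace H38.BG

open H63.MA H38.BB

theorem akn (G : Type) [Group G] [Finite G] :
    ∃ K₀ : IntermediateField ℚ QBar, NumberField K₀ ∧
      ∀ K : IntermediateField ℚ QBar, K₀ ≤ K → ∀ _ : NumberField K,
        (∃ ρ : Gal(QBar/K) →* G, Function.Surjective ρ ∧ FT ρ) ∧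
        (∃ z : K, IsPrimitiveRoot z (Nat.card G)) ∧ ∃ i : K, i ^ 2 = -1 := by
  obtain ⟨K₁, hK₁, h1⟩ := realizable_of_spec (H36.RT.realizable_all G)
  have hN : 0 < Nat.card G := Nat.card_pos
  have : NeZero (4 * Nat.card G) := ⟨by omega⟩
  obtain ⟨z₀, hz₀⟩ := HasEnoughRootsOfUnity.exists_primitiveRoot QBar (4 * Nat.card G)
  have hint : IsIntegral ℚ z₀ := Algebra.IsIntegral.isIntegral z₀
  have hfd : FiniteDimensional ℚ (IntermediateField.adjoin ℚ {z₀}) :=
    IntermediateField.adjoin.finiteDimensional hint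
  have hK₁' : FiniteDimensional ℚ K₁ := hK₁
  have hfd' : FiniteDimensional ℚ ↥(K₁ ⊔ IntermediateField.adjoin ℚ {z₀}) :=
    IntermediateField.finiteDimensional_sup K₁ _
  refine ⟨K₁ ⊔ IntermediateField.adjoin ℚ {z₀}, NumberField.of_module_finite ℚ _,
    fun K hK hKf => ?_⟩
  have hz : z₀ ∈ K := hK (le_sup_right (a := K₁)
    (IntermediateField.mem_adjoin_simple_self ℚ z₀))
  refine ⟨h1 K (le_trans le_sup_left hK) hKf.to_finiteDimensional, ⟨⟨z₀ ^ 4, pow_mem hz 4⟩, ?_⟩,
    ⟨⟨z₀ ^ Nat.card G, pow_mem hz _⟩, ?_⟩⟩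
  · have h2 : IsPrimitiveRoot (z₀ ^ 4) (Nat.card G) := hz₀.pow (by omega) rfl
    exact IsPrimitiveRoot.of_map_of_injective (f := algebraMap K QBar) h2
      (algebraMap K QBar).injective
  · have h3 : IsPrimitiveRoot (z₀ ^ (2 * Nat.card G)) 2 := hz₀.pow (by omega) (by ring)
    have h4 := h3.eq_neg_one_of_two_right
    apply Subtype.ext
    change (z₀ ^ Nat.card G) ^ 2 = -1
    rw [← pow_mul, mul_comm, h4]

end H38.BG
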