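import Pool.Agent.H38.BB.RdOf
import Pool.Agent.H38.BG.TDef
import Pool.Agent.H38.ML.UnrFin
import Pool.Agent.H38.ML.RootInert

/-!
# [H38 BG ARD] the choice of the reciprocity data, 50-80 lines. File Pool/Agent/H38/BG/ARd.lean

* `ard`: `φ₀ : Γ → G` of finite type, `q ≥ 1`: there is `D : RD K p ζ` such that `S0` contains all primes containing `q`, and `φ₀` is trivial on `inr L v` for all `v ∉ S0` and all `L : LDs D Ω`.
Proof. `H38.ML.factor` gives `M/K` finite Galois with `φ₀ = e ∘ res M`; `finite_not_unr K M`: the set of the `v` not unramified in `M` is finite; the set of the `v` containing `q` is finite (`gdisu_fin`-like, or `Ideal.finite_factors` for the ideal `(q) ≠ 0`). `S1` = the union; `exists_RD_of` (`H38/BB/RdOf.lean`). For `v ∉ S0`, `τ ∈ inr L v` (`dif_pos`): `res_eq_one` with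
`𝔓 = (L.ld v _).P`, `LD.under`, as in `ram_finite` (`H63/MA/GTw.lean`).
-/

set_option autoImplicit false

open scoped NumberField
open IsDedekindDomain H38.ML

noncomputable section

namespace H38.BG

open H63.MA H38.BB

theorem ard {K : Type} [Field K] [NumberField K] {Ω : Type} [Field Ω] [Algebra K Ω]
    [IsAlgClosure K Ω] {p : ℕ} {ζ : K} (hp : p.Prime) (hp2 : MOne p K) (hζ : IsPrimitiveRoot ζ p)
    {G : Type} [Group G] (φ₀ : Gal(Ω/K) →* G) (hφ₀ : FT φ₀) (q : ℕ) (hq : 0 < q) :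
    ∃ D : RD K p ζ, (∀ v : Pl K, ((q : ℕ) : 𝓞 K) ∈ v.asIdeal → v ∈ D.S0) ∧
      ∀ (L : LDs D.toRD0 Ω) (v : Pl K), v ∉ D.S0 → ∀ τ ∈ inr L v, φ₀ τ = 1 := by
  classical
  obtain ⟨M, hfd, hgal, e, he, h⟩ := H38.ML.factor φ₀ hφ₀
  haveI : NumberField M := NumberField.of_module_finite K M
  have hfin := H38.ML.finite_not_unr K M
  have hinj : Function.Injective (fun v : Pl K => v.asIdeal) := fun v w hvw =>
    HeightOneSpectrum.ext hvw
  have hf1 : {v : Pl K | v.asIdeal.IsPrime ∧ v.asIdeal ≠ ⊥ ∧ ¬ Unr K M v.asIdeal}.Finite :=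
    hfin.preimage hinj.injOn
  have hf2 : {v : Pl K | ((q : ℕ) : 𝓞 K) ∈ v.asIdeal}.Finite := by
    have h0 : Ideal.span {((q : ℕ) : 𝓞 K)} ≠ 0 := by
      rw [Ne, Ideal.zero_eq_bot, Ideal.span_singleton_eq_bot]
      exact_mod_cast hq.ne'
    refine (Ideal.finite_factors h0).subset ?_
    intro v hv
    change v.asIdeal ∣ Ideal.span {((q : ℕ) : 𝓞 K)}
    rw [Ideal.dvd_span_singleton]
    exact hv
  obtain ⟨D, hD⟩ := exists_RD_of K hp hp2 hζ (hf1.toFinset ∪ hf2.toFinset)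
  refine ⟨D, fun v hv => hD v (Finset.mem_union_right _ (hf2.mem_toFinset.2 hv)), ?_⟩
  intro L v hv τ hτ
  unfold inr at hτ
  rw [dif_pos hv] at hτ
  haveI := (L.ld v hv).prime
  have hun : Unr K M v.asIdeal := by
    by_contra hun
    exact hv (hD v (Finset.mem_union_left _
      (hf1.mem_toFinset.2 ⟨v.isPrime, v.ne_bot, hun⟩)))
  have hun' : Unr K M ((L.ld v hv).P.under (𝓞 K)) := by
    rw [(L.ld v hv).under]
    exact hun
  have h1 := H38.ML.res_eq_one M (L.ld v hv).P hun' τ hτ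
  rw [← h, h1, map_one]

end H38.BG
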