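import Pool.Agent.H38.BG.LLowA
import Pool.Agent.H38.BB.CLb
import Pool.Agent.H63.MA.GUpA

/-!
# [H38 BG LLOWB] lower bound for the number of homomorphisms, 100-160 lines (as lowb in H63/MA/GLowB). File Pool/Agent/H38/BG/LLowB.lean

`φ₀ : Γ → G` surjective of finite type, unramified outside `S0`. For `X ≥ X₀` there are at least `C X (log X)^{N-1}` surjective homomorphisms `φ : Γ → G` of finite type with a finite set `T` of primes outside `S0`, `∏_{v ∈ T} nm v ≤ X`, such that for `v ∈ T` all `φ τ`, `τ ∈ inr L v`, are powers of an element conjugate to some `g i`,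
and `φ τ = 1` for `τ ∈ inr L v`, `v ∉ S0 ∪ T`.

Proof. (1) `b`: `σ ↦ ofAdd (toAdd (π (φ₀ σ)) j)` is a character of finite type, `= kc (b' j)` (`kc_all`). For `v ∉ S0`, `φ₀ (t v) = 1` gives `p ∣ ord v (b' j)` (`ld_kk_t`), so `b' j = b j * y^p` with `ord v (b j) = 0` for all `v ∉ S0` (`unit_of_ord` in GUpA, `TUnit`), `kk (b j) = kk (b' j)` (`kk_mul_arg`, `kk_eq_zero_iff`).
(2) `b^θ` is not a `p`-th power for `θ ≠ 0`: otherwise `∑ θ j kk (b j) σ = 0` for all `σ` (`kk_prod_arg`), but `(kk (b j) σ)_j = π (φ₀ σ)` takes all values (`Dg.sur`, `φ₀` surjective). (3) `lb` (file `H38/BB/CLb.lean`) for `Dg.cr`, `b` (`BS2 D b ∅`): for `X ≥ X₀`, the sum of the weights is `≥ c₀ X (log X)^{N-1}`. For every `f` in the sum with nonzero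
term take `Rs_f` from `llowa` (`LH`: the members of `GF` are good primes, outside `S0`). The `Rs_f` are pairwise disjoint: `f i = {v ∉ S0 : φ (t v) conjugate to g i}` (`Dg.uni`, `Dg.ne`; for `v ∉ S0 ∪ ⋃ f i`, `φ (t v) = 1` because `t v ∈ inr L v`). The union has at least `∑ wtR` elements (`Finset.card_biUnion`). `T = ⋃ f i`,
`∏_{v ∈ T} nm v = ∏ nr (f i)` (`Dj f`).
-/

set_option autoImplicit false

open scoped NumberField
open IsDedekindDomain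
open scoped Classical

noncomputable section

namespace H38.BG

open H63.MA H38.BB

variable {K : Type} [Field K] [NumberField K] {Ω : Type} [Field Ω] [Algebra K Ω] [IsAlgClosure K Ω]
  {p : ℕ} {ζ : K} {m u w N : ℕ}

/-- the classes of the values on the inertia generators determine the family -/
private theorem llowb_sub {G : Type} [Group G] (Dg : GT p m u w N G) {S0 : Finset (Pl K)}
    (val : Pl K → G) (f f' : Fin N → Finset (Pl K)) (hf : ∀ i, ∀ v ∈ f i, v ∉ S0)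
    (h : ∀ i, ∀ v ∈ f i, IsConj (val v) (Dg.g i))
    (h' : ∀ i, ∀ v ∈ f' i, IsConj (val v) (Dg.g i))
    (h1 : ∀ v, v ∉ S0 → (∀ i, v ∉ f' i) → val v = 1) (i : Fin N) : f i ⊆ f' i := by
  intro v hv
  by_contra hcon
  by_cases hex : ∃ j, v ∈ f' j
  · obtain ⟨j, hj⟩ := hex
    have h2 : IsConj (Dg.g i) (Dg.g j) := (h i v hv).symm.trans (h' j v hj)
    have h3 := Dg.uni i j h2
    subst h3
    exact hcon hj
  · have h2 := h1 v (hf i v hv) fun j hj => hex ⟨j, hj⟩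
    have h3 := h i v hv
    rw [h2] at h3
    exact Dg.ne i (isConj_one_left.1 h3.symm)

private theorem llowb_t {D : RD0 K p ζ} (L : LDs D Ω) (v : Pl K) (hv : v ∉ D.S0) :
    L.t v ∈ inr L v := by
  unfold inr LDs.t
  rw [dif_pos hv, dif_pos hv]
  exact (L.ld v hv).ht

/-- the Kummer generators of `φ₀` -/
private theorem llowb_b (hp : p.Prime) (hζ : IsPrimitiveRoot ζ p) (D : RD0 K p ζ)
    (L : LDs D Ω) {G : Type} [Group G] (Dg : GT p m u w N G)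
    (φ₀ : Gal(Ω/K) →* G) (hφ₀ : H38.ML.FT φ₀)
    (hun : ∀ v, v ∉ D.S0 → ∀ τ ∈ inr L v, φ₀ τ = 1) :
    ∃ b : Fin m → Kˣ, (∀ j, TUnit D.S0 (b j)) ∧
      ∀ σ j, Multiplicative.toAdd (Dg.π (φ₀ σ)) j = kk p ζ (b j) σ := by
  have hex : ∀ j : Fin m, ∃ x : Kˣ, TUnit D.S0 x ∧
      ∀ σ, Multiplicative.toAdd (Dg.π (φ₀ σ)) j = kk p ζ x σ := by
    intro j
    set χ : Gal(Ω/K) →* Multiplicative (ZMod p) :=
      ((AddMonoidHom.toMultiplicative (Pi.evalAddMonoidHom (fun _ : Fin m => ZMod p) j)).comp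
        Dg.π).comp φ₀ with hχ
    have hft : H38.ML.FT χ := H38.ML.ft_comp _ _ hφ₀
    obtain ⟨x, hx⟩ := kc_all hp hζ χ hft
    have hkk : ∀ σ, Multiplicative.toAdd (Dg.π (φ₀ σ)) j = kk p ζ x σ := by
      intro σ
      unfold kk
      rw [← hx]
      rfl
    have hdvd : ∀ v, v ∉ D.S0 → (p : ℤ) ∣ ord v x := by
      intro v hv
      have h1 := ld_kk_t hp hζ (fun h => hv (D.above v h)) (D.pi_self v hv) (L.ld v hv) x
      rw [← hkk, hun v hv (L.ld v hv).t (by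
        unfold inr
        rw [dif_pos hv]
        exact (L.ld v hv).ht), map_one] at h1
      have h2 : ((ord v x : ℤ) : ZMod p) = 0 := by
        rw [← h1]
        rfl
      exact (ZMod.intCast_zmod_eq_zero_iff_dvd _ _).1 h2
    obtain ⟨y, z, hy, hxy⟩ := unit_of_ord hp D x hdvd
    refine ⟨y, hy, fun σ => ?_⟩
    rw [hkk, hxy, kk_mul_arg hp hζ, (kk_eq_zero_iff hp hζ (z ^ p)).2 ⟨z, rfl⟩ σ, add_zero]
  choose b hb using hex
  exact ⟨b, fun j => (hb j).1, fun σ j => (hb j).2 σ⟩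

private theorem llowb_pow (hp : p.Prime) (hζ : IsPrimitiveRoot ζ p)
    {G : Type} [Group G] (Dg : GT p m u w N G)
    (φ₀ : Gal(Ω/K) →* G) (hs : Function.Surjective φ₀) (b : Fin m → Kˣ)
    (hb : ∀ σ j, Multiplicative.toAdd (Dg.π (φ₀ σ)) j = kk p ζ (b j) σ)
    (θ : Fin m → ZMod p) (hθ : θ ≠ 0) : ¬ IsPow p (bp b θ) := by
  have : NeZero p := ⟨hp.ne_zero⟩
  intro hpow
  have h1 := (kk_eq_zero_iff (Ω := Ω) hp hζ (bp b θ)).2 hpow
  have h2 : ∀ σ : Gal(Ω/K), ∑ j, θ j * Multiplicative.toAdd (Dg.π (φ₀ σ)) j = 0 := by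
    intro σ
    rw [← h1 σ]
    unfold bp
    rw [kk_prod_arg hp hζ]
    refine Finset.sum_congr rfl fun j _ => ?_
    rw [hb, ← zpow_natCast, kk_zpow_arg hp hζ]
    push_cast
    rw [ZMod.natCast_zmod_val]
  apply hθ
  funext j
  obtain ⟨g, hg⟩ := Dg.sur (Multiplicative.ofAdd (Pi.single j 1))
  obtain ⟨σ, hσ⟩ := hs g
  have h3 := h2 σ
  rw [hσ, hg, toAdd_ofAdd] at h3
  rw [Finset.sum_eq_single j] at h3
  · rw [Pi.single_eq_same, mul_one] at h3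
    rw [h3]
    rfl
  · intro k _ hk
    rw [Pi.single_eq_of_ne hk, mul_zero]
  · intro h
    exact absurd (Finset.mem_univ j) h

theorem llowb (hp : p.Prime) (hp2 : MOne p K) (hζ : IsPrimitiveRoot ζ p) (D : RD K p ζ)
    (L : LDs D.toRD0 Ω) {G : Type} [Group G] [Finite G] (Dg : GT p m u w N G) (hN : 1 ≤ N)
    (φ₀ : Gal(Ω/K) →* G) (hφ₀ : H38.ML.FT φ₀) (hs : Function.Surjective φ₀)
    (hun : ∀ v, v ∉ D.S0 → ∀ τ ∈ inr L v, φ₀ τ = 1) :
    ∃ C X₀ : ℝ, 0 < C ∧ 3 ≤ X₀ ∧ ∀ X : ℝ, X₀ ≤ X → ∃ Rs : Finset (Gal(Ω/K) →* G),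
      C * X * Real.log X ^ (N - 1) ≤ (Rs.card : ℝ) ∧
      ∀ φ ∈ Rs, H38.ML.FT φ ∧ Function.Surjective φ ∧ ∃ T : Finset (Pl K),
        (∀ v ∈ T, v ∉ D.S0) ∧ ∏ v ∈ T, (nm v : ℝ) ≤ X ∧
        (∀ v ∈ T, ∃ (i : Fin N) (h : G), IsConj h (Dg.g i) ∧
          ∀ τ ∈ inr L v, φ τ ∈ Subgroup.zpowers h) ∧
        ∀ v, v ∉ D.S0 → v ∉ T → ∀ τ ∈ inr L v, φ τ = 1 := by
  have : NeZero p := ⟨hp.ne_zero⟩
  obtain ⟨b, hbT, hb⟩ := llowb_b hp hζ D.toRD0 L Dg φ₀ hφ₀ hun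
  have hi := llowb_pow hp hζ Dg φ₀ hs b hb
  obtain ⟨C, X₀, hC, hX₀, hmain⟩ := lb hp hp2 hζ D Dg.cr hN b
    ⟨fun v hv => absurd hv (Finset.notMem_empty v), fun k v hv _ => hbT k v hv⟩ hi
  refine ⟨C, X₀, hC, hX₀, fun X hX => ?_⟩
  have hex : ∀ f : Fin N → Finset (Pl K), ∃ Rs : Finset (Gal(Ω/K) →* G),
      (f ∈ Fintype.piFinset (fun _ : Fin N => GF D.toRD0 X) →
        (if Dj f ∧ ∏ i, nr (f i) ≤ X ∧ ∀ i, qf D.toRD0 (f i) = 0 then
          wtR Dg.cr f (fun v k => D.LL v (akR D.toRD0 Dg.cr b f k)) else 0) ≤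
          (Rs.card : ℝ)) ∧
      ∀ φ ∈ Rs, (Dj f ∧ ∏ i, nr (f i) ≤ X ∧ ∀ i, ∀ v ∈ f i, v ∉ D.toRD0.S0) ∧
        H38.ML.FT φ ∧ Function.Surjective φ ∧
        (∀ i, ∀ v ∈ f i, IsConj (φ (L.t v)) (Dg.g i) ∧
          ∀ τ ∈ inr L v, φ τ ∈ Subgroup.zpowers (φ (L.t v))) ∧
        ∀ v, v ∉ D.S0 → (∀ i, v ∉ f i) → ∀ τ ∈ inr L v, φ τ = 1 := by
    intro f
    by_cases hf : f ∈ Fintype.piFinset (fun _ : Fin N => GF D.toRD0 X) ∧
        (Dj f ∧ ∏ i, nr (f i) ≤ X ∧ ∀ i, qf D.toRD0 (f i) = 0) ∧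
        wtR Dg.cr f (fun v k => D.LL v (akR D.toRD0 Dg.cr b f k)) ≠ 0
    · obtain ⟨h1, h2, h3⟩ := hf
      have hg : ∀ i, ∀ v ∈ f i, D.Gd v := by
        intro i v hv
        have h4 := (Fintype.mem_piFinset.1 h1) i
        unfold GF at h4
        exact (Finset.mem_filter.1 h4).2 v hv
      have hLH : LH Dg L φ₀ b f :=
        ⟨hφ₀, hun, hb, fun v hv j => hbT j v hv, h2.1, fun i v hv => (hg i v hv).1⟩
      obtain ⟨Rs, hRs, hRs'⟩ := llowa hp hp2 hζ L Dg φ₀ b f hLH hs hi h2.2.2 h3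
      refine ⟨Rs, fun _ => ?_, fun φ hφ => ⟨⟨h2.1, h2.2.1, fun i v hv => (hg i v hv).1⟩,
        hRs' φ hφ⟩⟩
      rw [if_pos h2]
      exact hRs
    · refine ⟨∅, fun h1 => ?_, fun φ hφ => absurd hφ (Finset.notMem_empty φ)⟩
      rw [Finset.card_empty, Nat.cast_zero]
      by_cases h2 : Dj f ∧ ∏ i, nr (f i) ≤ X ∧ ∀ i, qf D.toRD0 (f i) = 0
      · rw [if_pos h2]
        have h3 : wtR Dg.cr f (fun v k => D.LL v (akR D.toRD0 Dg.cr b f k)) = 0 := by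
          by_contra h3
          exact hf ⟨h1, h2, h3⟩
        exact h3.le
      · rw [if_neg h2]
  choose R hR1 hR2 using hex
  refine ⟨(Fintype.piFinset (fun _ : Fin N => GF D.toRD0 X)).biUnion R, ?_, ?_⟩
  · rw [Finset.card_biUnion]
    · push_cast
      exact (hmain X hX).trans (Finset.sum_le_sum fun f hf => hR1 f hf)
    · intro f _ f' _ hff'
      show Disjoint (R f) (R f')
      rw [Finset.disjoint_left]
      intro φ hφ hφ'
      obtain ⟨⟨-, -, a1⟩, -, -, a2, a3⟩ := hR2 f φ hφ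
      obtain ⟨⟨-, -, b1⟩, -, -, b2, b3⟩ := hR2 f' φ hφ'
      apply hff'
      funext i
      exact Finset.Subset.antisymm
        (llowb_sub Dg (fun v => φ (L.t v)) f f' a1 (fun i v hv => (a2 i v hv).1)
          (fun i v hv => (b2 i v hv).1)
          (fun v hv h => b3 v hv h _ (llowb_t L v hv)) i)
        (llowb_sub Dg (fun v => φ (L.t v)) f' f b1 (fun i v hv => (b2 i v hv).1)
          (fun i v hv => (a2 i v hv).1)
          (fun v hv h => a3 v hv h _ (llowb_t L v hv)) i)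
  · intro φ hφ
    obtain ⟨f, -, hf⟩ := Finset.mem_biUnion.1 hφ
    obtain ⟨⟨h1, h2, h3⟩, h4, h5, h6, h7⟩ := hR2 f φ hf
    refine ⟨h4, h5, Finset.univ.biUnion f, ?_, ?_, ?_, ?_⟩
    · intro v hv
      obtain ⟨i, -, hi⟩ := Finset.mem_biUnion.1 hv
      exact h3 i v hi
    · rw [Finset.prod_biUnion (fun i _ j _ hij => h1 i j hij)]
      exact h2
    · intro v hv
      obtain ⟨i, -, hi⟩ := Finset.mem_biUnion.1 hv
      exact ⟨i, φ (L.t v), (h6 i v hi).1, (h6 i v hi).2⟩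
    · intro v hv hvT
      refine h7 v hv fun i hi => hvT ?_
      exact Finset.mem_biUnion.2 ⟨i, Finset.mem_univ i, hi⟩

end H38.BG
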