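import Pool.Agent.H38.BG.TDef
import Pool.Agent.H63.MA.GGrp

/-!
# [H38 BG PGE] coordinates of the group generated by elements of order p in the second centre, 180-280 lines. File Pool/Agent/H38/BG/PGe.lean

`I` a set of elements `g ≠ 1` with `g^p = 1` and central commutators `[g, h]` (`h ∈ G`), closed under conjugation (`p = 2` allowed). There are coordinates `e : (ZMod p)^w × (ZMod p)^u → G` (injective) with
`e(a,x) e(a',x') = e(a + a' + n(x,x'), x + x')`, `n` bilinear, `e(a,0)` central and killed by all characters `G → ZMod p`, `g e(a,x) g⁻¹ = e(b,x)` for some `b`, and every element of `I` is some `e(a,x)`.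

Proof. Let `W` be the subgroup generated by the `[g, h] = g h g⁻¹ h⁻¹`, `g ∈ I`, `h ∈ G`. These generators are central (`hc`), and `[g,h]^p = [g^p, h] = 1` (for central commutators `[g,h]^k = [g^k, h]`), so `W` is central, commutative of exponent `p`: `f : (Fin w → ZMod p) ≃ W` additive
(`ggd_ab` in `H63/MA/GGd.lean`, `ggrp_basis` in GGrp). Let `T` be the subgroup generated by `I`. For `t ∈ T`, `h ∈ G`: `[t, h] ∈ W` (induction on the closure: `[t t', h] = t [t', h] t⁻¹ [t, h] = [t', h] [t, h]`; `[t⁻¹, h] = [t,h]⁻¹`). For `t ∈ T`, `t^p ∈ W` (induction: `(t g)^p ∈ t^p g^p W`).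
So the image `V` of `T` in `G ⧸ W` is commutative of exponent `p` (a `ZMod p` vector space, `AddCommGroup.zmodModule`), generated by the images of the elements of `I`. Choose a basis of `V` consisting of images of elements `t_k ∈ I`, `k : Fin u` (`Module.Basis.ofSpan`/`exists_linearIndependent`: a spanning set
contains a basis). Put `s(x) = t_0^{x_0} ⋯ t_{u-1}^{x_{u-1}}` (ordered product, exponents `(x k).val`, `ggrpS`-like; well defined modulo `p` because `t_k^p = 1`), `e(a, x) = f(a) s(x)`. As in `ggrp` (GGrp.lean, copy `ggrp_pow1`-`ggrp_pow3`, `ggrp_mul`, `ggrp_modEq`: they only use central commutators `c (t_k) (t_l)` and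
`t_k^p = 1`; for `ggrp_modEq` only the `t_k` need exponent `p`): `s(x) s(x') = (∏_{l<k} [t_k, t_l]^{x_k x'_l}) s(x+x')`; let `n · k l = f⁻¹ [t_k, t_l]` for `l < k` and `0` otherwise. Injectivity: the image of `e(a,x)` in `V` is `∑ x_k t_k`, so `x` is determined, then `a`.
`nor`: `g e(a,x) g⁻¹ = [g, e(a,x)] e(a,x)` and `[g, t] = [t,g]⁻¹ ∈ W` for `t = e(a,x) ∈ T` (`W ≤ T`? not needed: `f(a)` is central and `s(x) ∈ T`). `kil`: a commutator is killed by every character, so all of `W` is. `cov`: `g ∈ I ⊆ T`: its image in `V` is `∑ x_k t_k`, so `g s(x)⁻¹ ∈ W`.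
If `I` is empty take `u = w = 0` (or treat it uniformly).
-/

set_option autoImplicit false

noncomputable section

namespace H38.BG

open H63.MA H38.BB

/-- coordinates of the group `T` -/
structure GE (p u w : ℕ) (G : Type) [Group G] where
  e : (Fin w → ZMod p) → (Fin u → ZMod p) → G
  inj : ∀ a x a' x', e a x = e a' x' → a = a' ∧ x = x'
  n : Fin w → Fin u → Fin u → ZMod p
  mul : ∀ a x a' x', e a x * e a' x' = e (a + a' + bl n x x') (x + x')
  cen : ∀ a h, e a 0 * h = h * e a 0
  nor : ∀ g a x, ∃ b, g * e a x * g⁻¹ = e b x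
  kil : ∀ (χ : G →* Multiplicative (ZMod p)) a, χ (e a 0) = 1

section PGe_aux

variable {G W : Type} [Group G] [CommGroup W] (i : W →* G)

theorem PGe_pow1 (hc : ∀ z g, i z * g = g * i z) {x y : G} {c : W}
    (h : x * y = i c * (y * x)) (a : ℕ) : x ^ a * y = i (c ^ a) * (y * x ^ a) := by
  induction a with
  | zero => simp
  | succ a ih =>
    calc x ^ (a + 1) * y = x * (x ^ a * y) := by rw [pow_succ', mul_assoc]
      _ = x * (i (c ^ a) * (y * x ^ a)) := by rw [ih]
      _ = i (c ^ a) * ((x * y) * x ^ a) := by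
          rw [← mul_assoc, ← hc, mul_assoc, ← mul_assoc x y]
      _ = i (c ^ a) * (i c * (y * x) * x ^ a) := by rw [h]
      _ = i (c ^ (a + 1)) * (y * x ^ (a + 1)) := by
          rw [pow_succ c, map_mul, pow_succ' x]
          simp only [mul_assoc]

theorem PGe_pow2 (hc : ∀ z g, i z * g = g * i z) {x y : G} {c : W}
    (h : x * y = i c * (y * x)) (a b : ℕ) :
    x ^ a * y ^ b = i (c ^ (a * b)) * (y ^ b * x ^ a) := by
  induction b with
  | zero => simp
  | succ b ih =>
    calc x ^ a * y ^ (b + 1) = (x ^ a * y ^ b) * y := by rw [pow_succ, mul_assoc]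
      _ = i (c ^ (a * b)) * (y ^ b * x ^ a) * y := by rw [ih]
      _ = i (c ^ (a * b)) * (y ^ b * (x ^ a * y)) := by simp only [mul_assoc]
      _ = i (c ^ (a * b)) * (y ^ b * (i (c ^ a) * (y * x ^ a))) := by rw [PGe_pow1 i hc h]
      _ = i (c ^ (a * b)) * (i (c ^ a) * (y ^ b * (y * x ^ a))) := by
          rw [← mul_assoc (y ^ b) (i (c ^ a)), ← hc, mul_assoc (i (c ^ a))]
      _ = i (c ^ (a * (b + 1))) * (y ^ (b + 1) * x ^ a) := by
          rw [Nat.mul_succ, pow_add c, map_mul, pow_succ y]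
          simp only [mul_assoc]

/-- the ordered product -/
def PGeS {m : ℕ} (g : Fin m → G) (a : Fin m → ℕ) : G :=
  (List.ofFn fun k => g k ^ a k).prod

omit [CommGroup W] in
theorem PGeS_succ {m : ℕ} (g : Fin (m + 1) → G) (a : Fin (m + 1) → ℕ) :
    PGeS g a = g 0 ^ a 0 * PGeS (fun k => g k.succ) (fun k => a k.succ) := by
  unfold PGeS
  rw [List.ofFn_succ, List.prod_cons]

theorem PGe_pow3 (hc : ∀ z g, i z * g = g * i z) (m : ℕ) (g : Fin m → G) (y : G)
    (c : Fin m → W) (h : ∀ k, g k * y = i (c k) * (y * g k)) (a : Fin m → ℕ)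
    (b : ℕ) : PGeS g a * y ^ b = i (∏ k, c k ^ (a k * b)) * (y ^ b * PGeS g a) := by
  induction m with
  | zero => simp [PGeS]
  | succ m ih =>
    rw [PGeS_succ, Fin.prod_univ_succ, map_mul]
    calc g 0 ^ a 0 * PGeS (fun k => g k.succ) (fun k => a k.succ) * y ^ b
        = g 0 ^ a 0 * (PGeS (fun k => g k.succ) (fun k => a k.succ) * y ^ b) := by
          rw [mul_assoc]
      _ = g 0 ^ a 0 * (i (∏ k : Fin m, c k.succ ^ (a k.succ * b)) *
          (y ^ b * PGeS (fun k => g k.succ) (fun k => a k.succ))) := by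
          rw [ih (fun k => g k.succ) (fun k => c k.succ) (fun k => h k.succ)]
      _ = i (∏ k : Fin m, c k.succ ^ (a k.succ * b)) * ((g 0 ^ a 0 * y ^ b) *
          PGeS (fun k => g k.succ) (fun k => a k.succ)) := by
          rw [← mul_assoc (g 0 ^ a 0) (i _), ← hc]
          simp only [mul_assoc]
      _ = i (∏ k : Fin m, c k.succ ^ (a k.succ * b)) *
          (i (c 0 ^ (a 0 * b)) * (y ^ b * g 0 ^ a 0) *
          PGeS (fun k => g k.succ) (fun k => a k.succ)) := by
          rw [PGe_pow2 i hc (h 0)]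
      _ = _ := by
          rw [← mul_assoc (i _) (i (c 0 ^ (a 0 * b)) * (y ^ b * g 0 ^ a 0)),
            ← mul_assoc (i _) (i (c 0 ^ (a 0 * b))), ← map_mul, ← map_mul,
            mul_comm (∏ k : Fin m, c k.succ ^ (a k.succ * b))]
          simp only [mul_assoc]

theorem PGe_mul (hc : ∀ z g, i z * g = g * i z) (m : ℕ) (g : Fin m → G)
    (c : Fin m → Fin m → W) (h : ∀ k l, g k * g l = i (c k l) * (g l * g k))
    (a b : Fin m → ℕ) :
    PGeS g a * PGeS g b =
      i (∏ k, ∏ l, if l < k then c k l ^ (a k * b l) else 1) *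
        PGeS g (fun k => a k + b k) := by
  induction m with
  | zero => simp [PGeS]
  | succ m ih =>
    have hK : (∏ k : Fin (m + 1), ∏ l : Fin (m + 1),
        if l < k then c k l ^ (a k * b l) else 1) =
        (∏ k : Fin m, c k.succ 0 ^ (a k.succ * b 0)) *
        ∏ k : Fin m, ∏ l : Fin m,
          if l < k then c k.succ l.succ ^ (a k.succ * b l.succ) else 1 := by
      rw [Fin.prod_univ_succ]
      have h0 : (∏ l : Fin (m + 1), if l < 0 then c 0 l ^ (a 0 * b l) else 1) = 1 :=
        Finset.prod_eq_one fun l _ => by rw [if_neg (Fin.not_lt_zero l)]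
      rw [h0, one_mul, ← Finset.prod_mul_distrib]
      refine Finset.prod_congr rfl fun k _ => ?_
      rw [Fin.prod_univ_succ, if_pos (Fin.succ_pos k)]
      congr 1
      refine Finset.prod_congr rfl fun l _ => ?_
      simp only [Fin.succ_lt_succ_iff]
    rw [hK, map_mul, PGeS_succ g a, PGeS_succ g b, PGeS_succ g (fun k => a k + b k)]
    have e1 := PGe_pow3 i hc m (fun k => g k.succ) (g 0) (fun k => c k.succ 0)
      (fun k => h k.succ 0) (fun k => a k.succ) (b 0)
    have e2 := ih (fun k => g k.succ) (fun k l => c k.succ l.succ)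
      (fun k l => h k.succ l.succ) (fun k => a k.succ) (fun k => b k.succ)
    have hz := hc (∏ k : Fin m, c k.succ 0 ^ (a k.succ * b 0)) (g 0 ^ a 0)
    have hz2 := hc (∏ k : Fin m, ∏ l : Fin m,
          if l < k then c k.succ l.succ ^ (a k.succ * b l.succ) else 1) (g 0 ^ (a 0 + b 0))
    calc g 0 ^ a 0 * PGeS (fun k => g k.succ) (fun k => a k.succ) *
          (g 0 ^ b 0 * PGeS (fun k => g k.succ) (fun k => b k.succ))
        = g 0 ^ a 0 * (PGeS (fun k => g k.succ) (fun k => a k.succ) * g 0 ^ b 0) *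
          PGeS (fun k => g k.succ) (fun k => b k.succ) := by simp only [mul_assoc]
      _ = g 0 ^ a 0 * (i (∏ k : Fin m, c k.succ 0 ^ (a k.succ * b 0)) *
          (g 0 ^ b 0 * PGeS (fun k => g k.succ) (fun k => a k.succ))) *
          PGeS (fun k => g k.succ) (fun k => b k.succ) := by rw [e1]
      _ = i (∏ k : Fin m, c k.succ 0 ^ (a k.succ * b 0)) * (g 0 ^ (a 0 + b 0) *
          (PGeS (fun k => g k.succ) (fun k => a k.succ) *
          PGeS (fun k => g k.succ) (fun k => b k.succ))) := by
          rw [← mul_assoc (g 0 ^ a 0) (i _), ← hz, pow_add]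
          simp only [mul_assoc]
      _ = i (∏ k : Fin m, c k.succ 0 ^ (a k.succ * b 0)) * (g 0 ^ (a 0 + b 0) *
          (i (∏ k : Fin m, ∏ l : Fin m,
            if l < k then c k.succ l.succ ^ (a k.succ * b l.succ) else 1) *
            PGeS (fun k => g k.succ) (fun k => a k.succ + b k.succ))) := by rw [e2]
      _ = _ := by
          rw [← mul_assoc (g 0 ^ (a 0 + b 0)) (i _), ← hz2]
          simp only [mul_assoc]

end PGe_aux

theorem PGe_basis0 (p : ℕ) [Fact p.Prime] (V : Type) [AddCommGroup V]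
    [Module (ZMod p) V] [Finite V] : ∃ w : ℕ, Nonempty (V ≃+ (Fin w → ZMod p)) :=
  ⟨Module.finrank (ZMod p) V, ⟨(Module.finBasis (ZMod p) V).equivFun.toAddEquiv⟩⟩

theorem PGe_basis {p : ℕ} (hp : p.Prime) (V : Type) [AddCommGroup V] [Finite V]
    (hV : ∀ x : V, p • x = 0) : ∃ w : ℕ, Nonempty (V ≃+ (Fin w → ZMod p)) := by
  have : Fact p.Prime := ⟨hp⟩
  let _ := AddCommGroup.zmodModule hV
  exact PGe_basis0 p V

theorem PGe_modEq {p : ℕ} (hp : p.Prime) {G : Type} [Group G]
    {m : ℕ} (g : Fin m → G) (hG : ∀ k, g k ^ p = 1) (x x' : Fin m → ZMod p) :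
    PGeS g (fun k => (x k).val + (x' k).val) = PGeS g (fun k => ((x + x') k).val) := by
  have : NeZero p := ⟨hp.ne_zero⟩
  unfold PGeS
  congr 1
  refine congrArg _ (funext fun k => ?_)
  beta_reduce
  rw [Pi.add_apply, ZMod.val_add, ← pow_eq_pow_mod _ (hG k)]

/-- a spanning set of a commutative group of exponent `p` contains a basis -/
theorem PGe_span0 (p : ℕ) [Fact p.Prime] (V : Type) [AddCommGroup V]
    [Module (ZMod p) V] [Finite V] (S : Set V) (hS : ⊤ ≤ Submodule.span (ZMod p) S) :
    ∃ (u : ℕ) (b : Fin u → V) (E : V ≃ (Fin u → ZMod p)), (∀ k, b k ∈ S) ∧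
      ∀ x : Fin u → ZMod p, E.symm x = ∑ k, (x k).val • b k := by
  have : NeZero p := ⟨(Fact.out : p.Prime).ne_zero⟩
  have hfin : Finite ((linearIndepOn_empty (ZMod p) (id : V → V)).extend
    (Set.empty_subset S)) := Subtype.finite
  let e := Finite.equivFin ((linearIndepOn_empty (ZMod p) (id : V → V)).extend
    (Set.empty_subset S))
  let b0 := (Module.Basis.ofSpan hS).reindex e
  refine ⟨_, b0, b0.equivFun.toEquiv, fun k => ?_, fun x => ?_⟩
  · rw [Module.Basis.reindex_apply]
    exact Module.Basis.ofSpan_subset hS ⟨_, rfl⟩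
  · change b0.equivFun.symm x = _
    rw [Module.Basis.equivFun_symm_apply]
    refine Finset.sum_congr rfl fun k _ => ?_
    rw [← Nat.cast_smul_eq_nsmul (ZMod p), ZMod.natCast_zmod_val]

theorem PGe_span {p : ℕ} (hp : p.Prime) (V : Type) [CommGroup V] [Finite V]
    (hV : ∀ x : V, x ^ p = 1) (S : Set V) (hS : ∀ x : V, x ∈ Subgroup.closure S) :
    ∃ (u : ℕ) (b : Fin u → V) (E : V ≃ (Fin u → ZMod p)), (∀ k, b k ∈ S) ∧
      ∀ x : Fin u → ZMod p, E.symm x = PGeS b (fun k => (x k).val) := by
  have : Fact p.Prime := ⟨hp⟩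
  let _ : Module (ZMod p) (Additive V) := AddCommGroup.zmodModule (fun x => by
    apply Additive.toMul.injective
    rw [toMul_nsmul, toMul_zero]
    exact hV _)
  obtain ⟨u, b, E, hb, hE⟩ := PGe_span0 p (Additive V) (Additive.toMul ⁻¹' S) (by
    intro x _
    have h : ∀ y ∈ Subgroup.closure S, Additive.ofMul y ∈
        Submodule.span (ZMod p) (Additive.toMul ⁻¹' S : Set (Additive V)) := by
      intro y hy
      induction hy using Subgroup.closure_induction with
      | mem y hy => exact Submodule.subset_span hy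
      | one => exact Submodule.zero_mem _
      | mul y z _ _ h1 h2 => exact Submodule.add_mem _ h1 h2
      | inv y _ h1 => exact Submodule.neg_mem _ h1
    exact h _ (hS (Additive.toMul x)))
  refine ⟨u, fun k => Additive.toMul (b k), (Additive.ofMul (α := V)).trans E, hb, fun x => ?_⟩
  have h1 : ((Additive.ofMul (α := V)).trans E).symm x = Additive.toMul (E.symm x) := rfl
  rw [h1, hE, toMul_sum]
  unfold PGeS
  rw [List.prod_ofFn]
  refine Finset.prod_congr rfl fun k _ => ?_
  rw [← toMul_nsmul]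

theorem PGe_list {G H : Type} [Group G] [Group H] (f : G →* H) {m : ℕ} (g : Fin m → G)
    (a : Fin m → ℕ) : f (PGeS g a) = PGeS (fun k => f (g k)) a := by
  unfold PGeS
  rw [map_list_prod, List.map_ofFn]
  congr 1
  refine congrArg _ (funext fun k => ?_)
  simp only [Function.comp_apply, map_pow]

theorem exists_GE {p : ℕ} (hp : p.Prime) (G : Type) [Group G] [Finite G] (I : Set G)
    (h1 : ∀ g ∈ I, g ^ p = 1)
    (hc : ∀ g ∈ I, ∀ h k : G, k * (g * h * g⁻¹ * h⁻¹) = g * h * g⁻¹ * h⁻¹ * k) :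
    ∃ (u w : ℕ) (E : GE p u w G), ∀ g ∈ I, ∃ a x, g = E.e a x := by
  have : NeZero p := ⟨hp.ne_zero⟩
  obtain ⟨W, hW⟩ : ∃ W : Subgroup G, W = Subgroup.closure
    {z | ∃ g ∈ I, ∃ h, z = g * h * g⁻¹ * h⁻¹} := ⟨_, rfl⟩
  have hWg : ∀ g ∈ I, ∀ h, g * h * g⁻¹ * h⁻¹ ∈ W := by
    intro g hg h
    rw [hW]
    exact Subgroup.subset_closure ⟨g, hg, h, rfl⟩
  have hWc : ∀ z ∈ W, ∀ k, k * z = z * k := by
    have h2 : W ≤ Subgroup.center G := by
      rw [hW, Subgroup.closure_le]
      rintro z ⟨g, hg, h, rfl⟩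
      rw [SetLike.mem_coe, Subgroup.mem_center_iff]
      exact fun k => hc g hg h k
    intro z hz
    exact Subgroup.mem_center_iff.1 (h2 hz)
  have hWn : W.Normal := ⟨fun n hn g => by
    rw [hWc n hn g, mul_inv_cancel_right]
    exact hn⟩
  let _ : CommGroup W :=
    { (inferInstance : Group W) with
      mul_comm := fun a b => Subtype.ext (hWc b.1 b.2 a.1) }
  let i : W →* G := W.subtype
  have hi : Function.Injective i := Subtype.val_injective
  have hci : ∀ z g, i z * g = g * i z := fun z g => (hWc z.1 z.2 g).symm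
  have hcomm : ∀ g (hg : g ∈ I) h, g * h = i ⟨g * h * g⁻¹ * h⁻¹, hWg g hg h⟩ * (h * g) := by
    intro g hg h
    change g * h = g * h * g⁻¹ * h⁻¹ * (h * g)
    group
  have hWp : ∀ z ∈ W, z ^ p = 1 := by
    intro z hz
    rw [hW] at hz
    induction hz using Subgroup.closure_induction with
    | mem z hz =>
      obtain ⟨g, hg, h, rfl⟩ := hz
      have h2 := PGe_pow1 i hci (hcomm g hg h) p
      rw [h1 g hg, one_mul, mul_one, map_pow] at h2
      have h3 := mul_right_cancel (b := h) ((one_mul h).trans h2)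
      exact h3.symm
    | one => exact one_pow p
    | mul y z hy hz h2 h3 =>
      rw [← hW] at hy hz
      have h4 : Commute y z := hWc z hz y
      rw [h4.mul_pow, h2, h3, one_mul]
    | inv y _ h2 => rw [inv_pow, h2, inv_one]
  -- the image of T
  obtain ⟨T, hT⟩ : ∃ T : Subgroup (G ⧸ W), T = Subgroup.closure (QuotientGroup.mk '' I) :=
    ⟨_, rfl⟩
  have hTI : ∀ g ∈ I, (QuotientGroup.mk g : G ⧸ W) ∈ T := by
    intro g hg
    rw [hT]
    exact Subgroup.subset_closure ⟨g, hg, rfl⟩
  have hTc : ∀ z ∈ T, ∀ k, k * z = z * k := by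
    have h2 : T ≤ Subgroup.center (G ⧸ W) := by
      rw [hT, Subgroup.closure_le]
      rintro z ⟨g, hg, rfl⟩
      rw [SetLike.mem_coe, Subgroup.mem_center_iff]
      intro k
      induction k using QuotientGroup.induction_on with
      | H k =>
        rw [← QuotientGroup.mk_mul, ← QuotientGroup.mk_mul, QuotientGroup.eq]
        have h3 : (k * g)⁻¹ * (g * k) = g * k * g⁻¹ * k⁻¹ := by
          have h4 := hWc _ (hWg g hg k) (k * g)⁻¹
          calc (k * g)⁻¹ * (g * k) = (k * g)⁻¹ * (g * k * g⁻¹ * k⁻¹) * (k * g) := by group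
            _ = _ := by rw [h4]; group
        rw [h3]
        exact hWg g hg k
    intro z hz
    exact Subgroup.mem_center_iff.1 (h2 hz)
  let _ : CommGroup T :=
    { (inferInstance : Group T) with
      mul_comm := fun a b => Subtype.ext (hTc b.1 b.2 a.1) }
  have hTp : ∀ z ∈ T, z ^ p = 1 := by
    intro z hz
    rw [hT] at hz
    induction hz using Subgroup.closure_induction with
    | mem z hz =>
      obtain ⟨g, hg, rfl⟩ := hz
      rw [← QuotientGroup.mk_pow, h1 g hg, QuotientGroup.mk_one]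
    | one => exact one_pow p
    | mul y z hy hz h2 h3 =>
      rw [← hT] at hy hz
      have h4 : Commute y z := hTc z hz y
      rw [h4.mul_pow, h2, h3, one_mul]
    | inv y _ h2 => rw [inv_pow, h2, inv_one]
  obtain ⟨u, b, E, hb, hE⟩ := PGe_span hp T (fun x => Subtype.ext (hTp x.1 x.2))
    {x : T | ∃ g ∈ I, (x : G ⧸ W) = QuotientGroup.mk g} (by
      rintro ⟨x, hx⟩
      have h2 : ∀ y ∈ Subgroup.closure ((QuotientGroup.mk : G → G ⧸ W) '' I), ∀ hy : y ∈ T,
          (⟨y, hy⟩ : T) ∈ Subgroup.closure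
            {x : T | ∃ g ∈ I, (x : G ⧸ W) = QuotientGroup.mk g} := by
        intro y hy
        induction hy using Subgroup.closure_induction with
        | mem y hy =>
          intro hyT
          obtain ⟨g, hg, rfl⟩ := hy
          exact Subgroup.subset_closure ⟨g, hg, rfl⟩
        | one => exact fun _ => Subgroup.one_mem _
        | mul y z hy hz h2 h3 =>
          intro hyz
          rw [← hT] at hy hz
          exact Subgroup.mul_mem _ (h2 hy) (h3 hz)
        | inv y hy h2 =>
          intro hyz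
          rw [← hT] at hy
          exact Subgroup.inv_mem _ (h2 hy)
      exact h2 x (hT ▸ hx) hx)
  choose g hgI hg using hb
  obtain ⟨w, ⟨φ⟩⟩ := PGe_basis hp (Additive W) (fun x => by
    apply Additive.toMul.injective
    apply Subtype.ext
    exact hWp _ (Additive.toMul x).2)
  let c : Fin u → Fin u → W := fun k l => ⟨g k * g l * (g k)⁻¹ * (g l)⁻¹, hWg _ (hgI k) _⟩
  have hcc : ∀ k l, g k * g l = i (c k l) * (g l * g k) := fun k l => hcomm _ (hgI k) _
  let S : (Fin u → ZMod p) → G := fun x => PGeS g (fun k => (x k).val)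
  have hS : ∀ x, (QuotientGroup.mk (S x) : G ⧸ W) = ((E.symm x : T) : G ⧸ W) := fun x => by
    rw [hE]
    have h2 := PGe_list (QuotientGroup.mk' W) g (fun k => (x k).val)
    have h3 := PGe_list T.subtype b (fun k => (x k).val)
    change (QuotientGroup.mk' W) (PGeS g (fun k => (x k).val)) =
      T.subtype (PGeS b (fun k => (x k).val))
    rw [h2, h3]
    congr 1
    funext k
    exact (hg k).symm
  have hSS : ∀ x x', S x * S x' = i (∏ k, ∏ l,
      if l < k then c k l ^ ((x k).val * (x' l).val) else 1) * S (x + x') := fun x x' => by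
    have := PGe_mul i hci u g c hcc (fun k => (x k).val) (fun k => (x' k).val)
    rw [PGe_modEq hp g (fun k => h1 _ (hgI k))] at this
    exact this
  have hS0 : S 0 = 1 := by
    change PGeS g (fun k => ((0 : Fin u → ZMod p) k).val) = 1
    unfold PGeS
    apply List.prod_eq_one
    intro y hy
    rw [List.mem_ofFn'] at hy
    obtain ⟨k, rfl⟩ := hy
    simp
  let n : Fin w → Fin u → Fin u → ZMod p := fun r k l =>
    if l < k then φ (Additive.ofMul (c k l)) r else 0
  have hn : ∀ x x' : Fin u → ZMod p, φ (Additive.ofMul (∏ k, ∏ l,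
      if l < k then c k l ^ ((x k).val * (x' l).val) else 1)) = bl n x x' := fun x x' => by
    funext r
    unfold bl
    rw [ofMul_prod, map_sum, Finset.sum_apply]
    refine Finset.sum_congr rfl fun k _ => ?_
    rw [ofMul_prod, map_sum, Finset.sum_apply]
    refine Finset.sum_congr rfl fun l _ => ?_
    by_cases hkl : l < k
    · simp only [n, if_pos hkl]
      rw [ofMul_pow, map_nsmul, Pi.smul_apply, nsmul_eq_mul, Nat.cast_mul,
        ZMod.natCast_zmod_val, ZMod.natCast_zmod_val]
      ring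
    · simp only [n, if_neg hkl]
      rw [ofMul_one, map_zero, Pi.zero_apply]
      ring
  let f : (Fin w → ZMod p) → W := fun a => Additive.toMul (φ.symm a)
  have hf : ∀ a a', f (a + a') = f a * f a' := fun a a' => by
    simp only [f, map_add, toMul_add]
  have hfφ : ∀ z : W, f (φ (Additive.ofMul z)) = z := fun z => by
    simp only [f, AddEquiv.symm_apply_apply, toMul_ofMul]
  have hmi : ∀ z : W, (QuotientGroup.mk (i z) : G ⧸ W) = 1 := fun z =>
    (QuotientGroup.eq_one_iff _).2 z.2
  have hme : ∀ a x, (QuotientGroup.mk (i (f a) * S x) : G ⧸ W) = ((E.symm x : T) : G ⧸ W) := by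
    intro a x
    rw [QuotientGroup.mk_mul, hmi, one_mul, hS]
  refine ⟨u, w, ⟨fun a x => i (f a) * S x, ?_, n, ?_, ?_, ?_, ?_⟩, ?_⟩
  · intro a x a' x' he
    have hx : x = x' := by
      have h2 := congrArg (QuotientGroup.mk : G → G ⧸ W) he
      rw [hme, hme] at h2
      exact E.symm.injective (Subtype.ext h2)
    subst hx
    have hu : f a = f a' := hi (mul_right_cancel he)
    exact ⟨φ.symm.injective (Additive.toMul.injective hu), rfl⟩
  · intro a x a' x'
    change i (f a) * S x * (i (f a') * S x') = i (f (a + a' + _)) * S (x + x')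
    rw [← hn x x', hf, hf, hfφ, map_mul, map_mul]
    calc i (f a) * S x * (i (f a') * S x') = i (f a) * (S x * i (f a')) * S x' := by
          simp only [mul_assoc]
      _ = i (f a) * (i (f a') * S x) * S x' := by rw [← hci]
      _ = i (f a) * i (f a') * (S x * S x') := by simp only [mul_assoc]
      _ = _ := by rw [hSS]; simp only [mul_assoc]
  · intro a h
    change i (f a) * S 0 * h = h * (i (f a) * S 0)
    rw [hS0, mul_one, hci]
  · intro h a x
    have h2 : h * S x * h⁻¹ * (S x)⁻¹ ∈ W := by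
      rw [← QuotientGroup.eq_one_iff]
      rw [QuotientGroup.mk_mul, QuotientGroup.mk_mul, QuotientGroup.mk_mul,
        QuotientGroup.mk_inv, QuotientGroup.mk_inv, hS,
        hTc _ (E.symm x).2 (QuotientGroup.mk h), mul_inv_cancel_right, mul_inv_cancel]
    refine ⟨φ (Additive.ofMul (f a * ⟨_, h2⟩)), ?_⟩
    change h * (i (f a) * S x) * h⁻¹ = i (f (φ (Additive.ofMul (f a * ⟨_, h2⟩)))) * S x
    rw [hfφ, map_mul]
    change h * (i (f a) * S x) * h⁻¹ = i (f a) * (h * S x * h⁻¹ * (S x)⁻¹) * S x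
    rw [← mul_assoc h, ← hci (f a) h]
    group
  · intro χ a
    change χ (i (f a) * S 0) = 1
    rw [hS0, mul_one]
    have h2 : W ≤ χ.ker := by
      rw [hW, Subgroup.closure_le]
      rintro z ⟨g, hg, h, rfl⟩
      rw [SetLike.mem_coe, MonoidHom.mem_ker, map_mul, map_mul, map_mul, map_inv, map_inv,
        mul_comm (χ g)]
      group
    exact h2 (f a).2
  · intro y hy
    have h2 := hTI y hy
    have h3 : y * (S (E ⟨_, h2⟩))⁻¹ ∈ W := by
      rw [← QuotientGroup.eq_one_iff, QuotientGroup.mk_mul, QuotientGroup.mk_inv, hS,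
        Equiv.symm_apply_apply, mul_inv_cancel]
    refine ⟨φ (Additive.ofMul ⟨_, h3⟩), E ⟨_, h2⟩, ?_⟩
    change y = i (f (φ (Additive.ofMul ⟨_, h3⟩))) * S (E ⟨_, h2⟩)
    rw [hfφ]
    change y = y * (S (E ⟨_, h2⟩))⁻¹ * S (E ⟨_, h2⟩)
    rw [inv_mul_cancel_right]

end H38.BG
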