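import Pool.Agent.H38.BG.PPi
import Pool.Agent.H38.BG.PGe

/-!
# [H38 BG PGT] existence of the coordinates GT, 150-230 lines. File Pool/Agent/H38/BG/PGt.lean

`exists_GT`: `I` a set of elements of order `p` (prime, `p = 2` allowed) in the second centre of the finite group `G`, closed under conjugation. Then there is `Dg : GT p m u w N G` such that `I` is the union of the classes of the `g i`.

Proof. Take `π` from `gpi`, `E` from `exists_GE`. (1) `ι`: `π (e a 0) = 1` (its coordinates `g ↦ ofAdd (toAdd (π g) k)` are characters, killed by `E.kil`). `e a x = e a 0 * e 0 x` (`E.mul`, `bl n 0 x = 0`, `bl` is bilinear), so `π (e a x) = π (e 0 x)`, and `x ↦ toAdd (π (e 0 x))` is additive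
(`e 0 x * e 0 x' = e (bl n x x') 0 * e 0 (x + x')`), hence linear: `π (e a x) = ofAdd (mv ι x)`, `ι j k = toAdd (π (e 0 e_k)) j`. (2) `β`: for `g ∈ G`, `x`, let `c g x` be the element with `g (e 0 x) g⁻¹ = e (c g x) x` (`E.nor`, unique by `E.inj`). Then `g (e a x) g⁻¹ = e (a + c g x) x` (`e a x = e a 0 * e 0 x`,
`E.cen`). `c (g h) x = c g x + c h x`, so each coordinate `g ↦ c g x i` is a character and by `gpi_lin` `c g x i = ∑_j θ_j (π g)_j`. `c g (x + x') = c g x + c g x'`: conjugate `e 0 x * e 0 x' = e (bl n x x') (x + x')`. So `c g x = bl β (toAdd (π g)) x` with `β i j k` = the coefficient `θ_j` for `x = e_k`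
(a unit vector) : for `x = ∑ x_k e_k` additivity gives `c g x i = ∑_k x_k c g e_k i` (additive maps between `ZMod p`-modules are linear; `gpi_lin` for every `i, k`).
(3) Classes: conjugacy restricted to `I` is an equivalence relation with finitely many classes: `N`, representatives `g i ∈ I`, `g i = e (a i) (y i)`: `uni`, `pow`, `ne`; `h ∈ I` iff `h` is conjugate to some `g i` (`hconj`). (4) `Θ i` = `ggdAnn Z_i` (`H63/MA/GGd.lean`) where `Z_i = {z | bl β z (y i) = 0}` (a submodule);
`dt θ z = ∑ θ k z k`. `ann`: `←` by definition, `→` is `ggdAnn_ann`. `card`: the conjugates of `g i` are the `e (a i + bl β z (y i)) (y i)`, `z ∈ (ZMod p)^m` (`π` surjective), in bijection with the image of `z ↦ bl β z (y i)`, of order `p^m / #Z_i`, and `#Θ i * #Z_i = p^m` (`ggdAnn_card`).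
-/

set_option autoImplicit false

noncomputable section

namespace H38.BG

open H63.MA H38.BB

/-! ### bilinear maps -/

theorem PGt_bl_add_left {p m u w : ℕ} (n : Fin w → Fin m → Fin u → ZMod p) (x x' : Fin m → ZMod p)
    (y : Fin u → ZMod p) : bl n (x + x') y = bl n x y + bl n x' y := by
  funext c
  simp only [bl, Pi.add_apply, mul_add, add_mul, Finset.sum_add_distrib]

theorem PGt_bl_zero_left {p m u w : ℕ} (n : Fin w → Fin m → Fin u → ZMod p)
    (y : Fin u → ZMod p) : bl n 0 y = 0 := by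
  funext c
  simp [bl]

theorem PGt_bl_zero_right {p m u w : ℕ} (n : Fin w → Fin m → Fin u → ZMod p)
    (x : Fin m → ZMod p) : bl n x 0 = 0 := by
  funext c
  simp [bl]

theorem PGt_bl_smul_left {p m u w : ℕ} (n : Fin w → Fin m → Fin u → ZMod p) (r : ZMod p)
    (x : Fin m → ZMod p) (y : Fin u → ZMod p) : bl n (r • x) y = r • bl n x y := by
  funext c
  simp only [bl, Pi.smul_apply, smul_eq_mul, Finset.mul_sum]
  refine Finset.sum_congr rfl fun j _ => Finset.sum_congr rfl fun k _ => ?_
  ring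

/-- the linear map `z ↦ bl β z y` -/
def PGtL {p m u w : ℕ} (β : Fin w → Fin m → Fin u → ZMod p) (y : Fin u → ZMod p) :
    (Fin m → ZMod p) →ₗ[ZMod p] (Fin w → ZMod p) where
  toFun z := bl β z y
  map_add' x x' := PGt_bl_add_left β x x' y
  map_smul' r x := PGt_bl_smul_left β r x y

/-- additive maps are linear -/
theorem PGt_lin {p : ℕ} (hp : p.Prime) {u : ℕ} (F : (Fin u → ZMod p) → ZMod p)
    (hF : ∀ x y, F (x + y) = F x + F y) (x : Fin u → ZMod p) :
    F x = ∑ k, F (Pi.single k 1) * x k := by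
  haveI := Fact.mk hp
  have h := ggd_dual (p := p) ((AddMonoidHom.mk' F hF).toZModLinearMap p) x
  exact h

/-! ### the projection and the coordinates -/

section

variable {p m u w : ℕ} {G : Type} [Group G]

theorem PGt_one (E : GE p u w G) : E.e 0 0 = 1 := by
  have h := E.mul 0 0 0 0
  rw [PGt_bl_zero_left, add_zero, add_zero, add_zero] at h
  exact mul_eq_left.1 h

theorem PGt_split (E : GE p u w G) (a : Fin w → ZMod p) (x : Fin u → ZMod p) :
    E.e a x = E.e a 0 * E.e 0 x := by
  rw [E.mul, PGt_bl_zero_left, add_zero, add_zero, zero_add]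

theorem PGt_lsplit (E : GE p u w G) (x x' : Fin u → ZMod p) :
    E.e 0 x * E.e 0 x' = E.e (bl E.n x x') 0 * E.e 0 (x + x') := by
  rw [← PGt_split, E.mul, add_zero, zero_add]

/-- the coordinates of `π` as characters -/
def PGt_co (π : G →* Multiplicative (Fin m → ZMod p)) (k : Fin m) :
    G →* Multiplicative (ZMod p) where
  toFun g := Multiplicative.ofAdd (Multiplicative.toAdd (π g) k)
  map_one' := by rw [map_one, toAdd_one, Pi.zero_apply, ofAdd_zero]
  map_mul' g h := by rw [map_mul, toAdd_mul, Pi.add_apply, ofAdd_add]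

theorem PGt_pi0 (E : GE p u w G) (π : G →* Multiplicative (Fin m → ZMod p))
    (a : Fin w → ZMod p) : Multiplicative.toAdd (π (E.e a 0)) = 0 := by
  funext k
  have h := E.kil (PGt_co π k) a
  exact Multiplicative.ofAdd.injective h

theorem PGt_piadd (E : GE p u w G) (π : G →* Multiplicative (Fin m → ZMod p))
    (x x' : Fin u → ZMod p) : Multiplicative.toAdd (π (E.e 0 (x + x'))) =
      Multiplicative.toAdd (π (E.e 0 x)) + Multiplicative.toAdd (π (E.e 0 x')) := by
  have h := congrArg (fun g => Multiplicative.toAdd (π g)) (PGt_lsplit E x x')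
  simp only [map_mul, toAdd_mul, PGt_pi0, zero_add] at h
  exact h.symm

theorem PGt_pie (hp : p.Prime) (E : GE p u w G) (π : G →* Multiplicative (Fin m → ZMod p))
    (a : Fin w → ZMod p) (x : Fin u → ZMod p) :
    π (E.e a x) = Multiplicative.ofAdd
      (mv (fun j k => Multiplicative.toAdd (π (E.e 0 (Pi.single k 1))) j) x) := by
  have h1 : Multiplicative.toAdd (π (E.e a x)) =
      mv (fun j k => Multiplicative.toAdd (π (E.e 0 (Pi.single k 1))) j) x := by
    rw [PGt_split E a x, map_mul, toAdd_mul, PGt_pi0, zero_add]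
    funext j
    exact PGt_lin hp (fun x => Multiplicative.toAdd (π (E.e 0 x)) j)
      (fun x y => by rw [PGt_piadd, Pi.add_apply]) x
  rw [← h1, ofAdd_toAdd]

/-- the conjugation -/
theorem PGt_conj (hp : p.Prime) (E : GE p u w G) (π : G →* Multiplicative (Fin m → ZMod p))
    (hs : Function.Surjective π)
    (hu : ∀ (χ : G →* Multiplicative (ZMod p)) (g : G), π g = 1 → χ g = 1) :
    ∃ β : Fin w → Fin m → Fin u → ZMod p, ∀ g a x, g * E.e a x * g⁻¹ =
      E.e (a + bl β (Multiplicative.toAdd (π g)) x) x := by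
  have h0 : ∀ g x, ∃ b, g * E.e 0 x * g⁻¹ = E.e b x := fun g x => E.nor g 0 x
  choose c hc using h0
  have hca : ∀ g a x, g * E.e a x * g⁻¹ = E.e (a + c g x) x := by
    intro g a x
    have h1 : g * E.e a x * g⁻¹ = E.e a 0 * (g * E.e 0 x * g⁻¹) := by
      rw [PGt_split E a x]
      have h2 := E.cen a g
      calc g * (E.e a 0 * E.e 0 x) * g⁻¹ = (g * E.e a 0) * E.e 0 x * g⁻¹ := by group
        _ = (E.e a 0 * g) * E.e 0 x * g⁻¹ := by rw [h2]
        _ = E.e a 0 * (g * E.e 0 x * g⁻¹) := by group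
    rw [h1, hc, E.mul, PGt_bl_zero_left, add_zero, zero_add]
  have hmul : ∀ g h x, c (g * h) x = c g x + c h x := by
    intro g h x
    have h1 : (g * h) * E.e 0 x * (g * h)⁻¹ = g * (h * E.e 0 x * h⁻¹) * g⁻¹ := by group
    rw [hc, hc, hca] at h1
    rw [(E.inj _ _ _ _ h1).1, add_comm]
  have hadd : ∀ g x x', c g (x + x') = c g x + c g x' := by
    intro g x x'
    have h1 : g * (E.e 0 x * E.e 0 x') * g⁻¹ = (g * E.e 0 x * g⁻¹) * (g * E.e 0 x' * g⁻¹) := by
      group
    rw [hc, hc, E.mul, E.mul, hca] at h1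
    have h2 := (E.inj _ _ _ _ h1).1
    rw [add_zero, zero_add, add_comm (bl E.n x x')] at h2
    exact add_right_cancel h2
  -- the characters
  have hχ : ∀ (i : Fin w) (x : Fin u → ZMod p), ∃ θ : Fin m → ZMod p, ∀ g,
      c g x i = ∑ k, θ k * Multiplicative.toAdd (π g) k := by
    intro i x
    exact gpi_lin hp π hs hu
      (MonoidHom.mk' (fun g => Multiplicative.ofAdd (c g x i)) (fun g h => by
        show Multiplicative.ofAdd (c (g * h) x i) = _
        rw [hmul, Pi.add_apply, ofAdd_add]))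
  choose θ hθ using hχ
  refine ⟨fun i j k => θ i (Pi.single k 1) j, fun g a x => ?_⟩
  rw [hca]
  congr 2
  funext i
  have h1 := PGt_lin hp (fun x => c g x i) (fun x y => by rw [hadd, Pi.add_apply]) x
  rw [h1]
  simp only [bl]
  rw [Finset.sum_comm]
  refine Finset.sum_congr rfl fun k _ => ?_
  rw [hθ, Finset.sum_mul]

end

theorem exists_GT {p : ℕ} (hp : p.Prime) (G : Type) [Group G] [Finite G] (I : Set G)
    (h0 : ∀ g ∈ I, g ≠ 1) (h1 : ∀ g ∈ I, g ^ p = 1) (h2 : ∀ g ∈ I, ∀ h, h * g * h⁻¹ ∈ I)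
    (hc : ∀ g ∈ I, ∀ h k : G, k * (g * h * g⁻¹ * h⁻¹) = g * h * g⁻¹ * h⁻¹ * k) :
    ∃ (m u w N : ℕ) (Dg : GT p m u w N G), ∀ h, h ∈ I ↔ ∃ i, IsConj h (Dg.g i) := by
  haveI := Fact.mk hp
  obtain ⟨m, π, hs, hu⟩ := gpi hp G
  obtain ⟨u, w, E, hcov⟩ := exists_GE hp G I h1 hc
  obtain ⟨β, hβ⟩ := PGt_conj hp E π hs hu
  -- the classes
  let X := {c : ConjClasses G // ∃ g ∈ I, ConjClasses.mk g = c}
  haveI : Finite X := inferInstance
  let e : Fin (Nat.card X) ≃ X := (Finite.equivFin X).symm
  have hrep : ∀ i : Fin (Nat.card X), ∃ (a : Fin w → ZMod p) (y : Fin u → ZMod p),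
      E.e a y ∈ I ∧ ConjClasses.mk (E.e a y) = (e i).1 := by
    intro i
    obtain ⟨g, hg, hgc⟩ := (e i).2
    obtain ⟨a, y, rfl⟩ := hcov g hg
    exact ⟨a, y, hg, hgc⟩
  choose a y hay hcl using hrep
  have hann : ∀ i (z : Fin m → ZMod p),
      (∀ θ ∈ ggdAnn (LinearMap.ker (PGtL β (y i))), dt θ z = 0) ↔ bl β z (y i) = 0 := by
    intro i z
    constructor
    · intro h
      have h3 : z ∈ LinearMap.ker (PGtL β (y i)) := ggdAnn_ann _ z h
      exact h3
    · intro h θ hθ
      exact hθ z h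
  have hcard : ∀ i, Nat.card (ggdAnn (LinearMap.ker (PGtL β (y i)))) =
      Nat.card {h : G // IsConj h (E.e (a i) (y i))} := by
    intro i
    have c1 := ggdAnn_card (LinearMap.ker (PGtL β (y i)))
    have c2 : Nat.card (Fin m → ZMod p) = Nat.card (LinearMap.ker (PGtL β (y i))) *
        Nat.card (LinearMap.range (PGtL β (y i))) := by
      rw [Submodule.card_eq_card_quotient_mul_card (LinearMap.ker (PGtL β (y i))),
        Nat.card_congr (LinearMap.quotKerEquivRange (PGtL β (y i))).toEquiv, mul_comm]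
    have c3 : Nat.card (Fin m → ZMod p) = p ^ m := by
      simp [Nat.card_eq_fintype_card, ZMod.card]
    have c4 : Nat.card (LinearMap.range (PGtL β (y i))) =
        Nat.card {h : G // IsConj h (E.e (a i) (y i))} := by
      have hmem : ∀ b : LinearMap.range (PGtL β (y i)),
          IsConj (E.e (a i + b.1) (y i)) (E.e (a i) (y i)) := by
        rintro ⟨b, z, hz⟩
        obtain ⟨g, hg⟩ := hs (Multiplicative.ofAdd z)
        have h3 := hβ g (a i) (y i)
        rw [hg, toAdd_ofAdd] at h3
        have h4 : bl β z (y i) = b := hz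
        rw [h4] at h3
        exact (isConj_iff.2 ⟨g, h3⟩).symm
      refine Nat.card_eq_of_bijective
        (fun b : LinearMap.range (PGtL β (y i)) =>
          (⟨E.e (a i + b.1) (y i), hmem b⟩ : {h : G // IsConj h (E.e (a i) (y i))})) ⟨?_, ?_⟩
      · intro b b' hbb
        have h3 := (E.inj _ _ _ _ (congrArg Subtype.val hbb)).1
        exact Subtype.ext (add_left_cancel h3)
      · rintro ⟨h, hh⟩
        obtain ⟨g, hg⟩ := isConj_iff.1 hh.symm
        rw [hβ] at hg
        exact ⟨⟨bl β (Multiplicative.toAdd (π g)) (y i), ⟨Multiplicative.toAdd (π g), rfl⟩⟩,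
          Subtype.ext hg⟩
    rw [← c4]
    have c5 : 0 < Nat.card (LinearMap.ker (PGtL β (y i))) := Nat.card_pos
    refine Nat.eq_of_mul_eq_mul_right c5 ?_
    rw [c1, ← c3, c2, mul_comm]
  refine ⟨m, u, w, Nat.card X,
    { π := π
      sur := hs
      univ := hu
      e := E.e
      inj := E.inj
      ι := fun j k => Multiplicative.toAdd (π (E.e 0 (Pi.single k 1))) j
      n := E.n
      β := β
      mul := E.mul
      conj := hβ
      pie := PGt_pie hp E π
      a := a
      y := y
      pow := fun i => h1 _ (hay i)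
      ne := fun i => h0 _ (hay i)
      uni := fun i j h => by
        rw [← ConjClasses.mk_eq_mk_iff_isConj, hcl, hcl] at h
        exact e.injective (Subtype.ext h)
      Θ := fun i => ggdAnn (LinearMap.ker (PGtL β (y i)))
      ann := hann
      card := hcard }, ?_⟩
  intro h
  constructor
  · intro hh
    refine ⟨e.symm ⟨ConjClasses.mk h, h, hh, rfl⟩, ?_⟩
    show IsConj h (E.e (a _) (y _))
    rw [← ConjClasses.mk_eq_mk_iff_isConj, hcl, Equiv.apply_symm_apply]
  · rintro ⟨i, hi⟩
    change IsConj h (E.e (a i) (y i)) at hi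
    obtain ⟨c, hcc⟩ := isConj_iff.1 hi.symm
    rw [← hcc]
    exact h2 _ (hay i) c

end H38.BG
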