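import Pool.Agent.H38.BG.PIdx
import Pool.Agent.H38.BG.PGt
import Pool.Agent.H38.BG.LLowB
import Pool.Agent.H38.BG.AKn
import Pool.Agent.H38.BG.ARd
import Pool.Agent.H38.BG.ABet
import Pool.Agent.H38.BG.AFu
import Pool.Agent.H38.BG.AFl
import Pool.Agent.H63.BU.UMain

/-!
# BG-AMAIN: the exact order of growth
-/

set_option autoImplicit false

open scoped NumberField
open IsDedekindDomain H38.ML

noncomputable section

namespace H38.BG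

open H63.MA H38.BB

theorem amain {n : ℕ} (hn : 2 ≤ n) (G : Subgroup (Equiv.Perm (Fin n)))
    (hG : MulAction.IsPretransitive G (Fin n))
    (hZ : ∀ g : G, g ≠ 1 → ind (g : Equiv.Perm (Fin n)) = indG G →
      ∀ h k : G, k * (g * h * g⁻¹ * h⁻¹) = g * h * g⁻¹ * h⁻¹ * k) :
    ∃ K₀ : IntermediateField ℚ QBar, NumberField K₀ ∧
      ∀ K : IntermediateField ℚ QBar, K₀ ≤ K → ∀ _ : NumberField K,
        (∃ c B₀ : ℝ, 0 < c ∧ ∀ B : ℝ, B₀ ≤ B →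
          ((⌈c * B ^ (1 / (indG G : ℝ)) * Real.log B ^ (Spec.betaAll K QBar G - 1)⌉₊ : ℕ) : ℕ∞) ≤
            Spec.nK K QBar G B) ∧
        (Group.IsNilpotent G → ∃ C B₀ : ℝ, 0 < C ∧ ∀ B : ℝ, B₀ ≤ B → ∃ k : ℕ,
          Spec.nK K QBar G B = (k : ℕ∞) ∧
          (k : ℝ) ≤ C * B ^ (1 / (indG G : ℝ)) * Real.log B ^ (Spec.betaAll K QBar G - 1)) := by
  obtain ⟨ha, ⟨g₀, hg₀, hg₀'⟩, hmin, hcj, hJ⟩ := pidx_pos hn G hG
  obtain ⟨p, hp, hpI⟩ := pidx hn G hG hZ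
  have hcardpos : 0 < Nat.card G := Nat.card_pos
  have hpd : p ∣ Nat.card G := by
    have h2 := hpI g₀ hg₀ hg₀'
    have h3 : orderOf g₀ = p := orderOf_eq_prime h2 hg₀ (hp := ⟨hp⟩)
    rw [← h3]
    exact orderOf_dvd_natCard g₀
  obtain ⟨m, u, w, N, Dg, hDg⟩ := exists_GT hp G
    {g : G | g ≠ 1 ∧ ind (g : Equiv.Perm (Fin n)) = indG G} (fun g hg => hg.1)
    (fun g hg => hpI g hg.1 hg.2)
    (fun g hg h => ⟨fun h1 => hg.1 (by
      have h2 : g = h⁻¹ * (h * g * h⁻¹) * h := by group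
      rw [h2, h1]; group), hcj g h hg.1 hg.2⟩)
    (fun g hg => hZ g hg.1 hg.2)
  have hI : ∀ h : G, (h ≠ 1 ∧ ind (h : Equiv.Perm (Fin n)) = indG G) ↔
      ∃ i, IsConj h (Dg.g i) := fun h => hDg h
  have hN : 1 ≤ N := by
    obtain ⟨i, -⟩ := (hI g₀).1 ⟨hg₀, hg₀'⟩
    have := i.2
    omega
  obtain ⟨K₀, hK₀, hK⟩ := akn G
  refine ⟨K₀, hK₀, fun K hKK hKf => ?_⟩
  obtain ⟨⟨φ₀, hs, hφ₀⟩, ⟨z, hz⟩, i, hi⟩ := hK K hKK hKf
  have hp2 : H63.MA.MOne p K := by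
    by_cases h2 : p = 2
    · exact ⟨i, by rw [h2]; exact hi⟩
    · exact H63.MA.mone_odd hp h2 K
  obtain ⟨r, hr⟩ := hpd
  have hζ : IsPrimitiveRoot (z ^ r) p := hz.pow hcardpos (by rw [hr]; ring)
  obtain ⟨D, hD, hun⟩ := ard (Ω := QBar) hp hp2 hζ φ₀ hφ₀ (Nat.card G) hcardpos
  obtain ⟨L⟩ := exists_LDs QBar hp hζ D.toRD0
  rw [abet G K z hz Dg hI]
  refine ⟨afl hn G hG ha K D.toRD0 L Dg (fun h i hi => ((hI h).2 ⟨i, hi⟩).2)
    (llowb hp hp2 hζ D L Dg hN φ₀ hφ₀ hs (hun L)), fun hnil => ?_⟩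
  refine afu hn G hG K D.toRD0 L N ?_
  exact H63.BU.gup hp hp2 hζ D L hnil Dg hN z hz hD (indG G) ha
    (fun H => n - orbs (H.map G.subtype))
    (fun H hH => by
      have := hJ H hH
      omega)
    (fun g hg h => by
      refine (hI g).1 ⟨hg, le_antisymm ?_ (hmin g hg)⟩
      have h1 : (Subgroup.zpowers g).map G.subtype =
          Subgroup.zpowers (g : Equiv.Perm (Fin n)) := by
        rw [MonoidHom.map_zpowers]
        rfl
      rw [h1] at h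
      exact h)

end H38.BG
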