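import Pool.Agent.H38.BG.TDef
import Pool.Agent.H38.ML.Factor
import Pool.Agent.H38.ML.RootInert

/-!
# [H38 BG TCYC] tame inertia is cyclic, 150-250 lines. File Pool/Agent/H38/BG/TCyc.lean

`P` a prime of `𝓞 Ω` over `v`, `ψ : Γ → H` of finite type, `H` finite, `#ψ(I) ∉ v` (`I` the inertia group of `P`). Then `ψ(I)` is cyclic.

Proof. `H38.ML.factor` gives `M/K` finite Galois and `e` injective with `e (res M σ) = ψ σ`; `M` is a number field. Let `A = (I).map (res M) ≤ Gal(M/K)`, `A ≅ ψ(I)` by `e`, of order `n ∉ v`, and let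
`Q = P.under (𝓞 M)`, a nonzero prime (it lies over `v`). Every `s ∈ A` satisfies `s y - y ∈ Q` for `y ∈ 𝓞 M` (`s • y - y` maps to `σ y - y ∈ P`). Choose `x ∈ Q`, `x ∉ Q ^ 2` (`Q ≠ Q^2` in a Dedekind domain).
(1) For `y ∈ Q^k` there are `c, r ∈ 𝓞 M`, `r ∉ Q`, with `r y - c x^k ∈ Q^(k+1)`; better: work with the statement `W k`: `∀ s ∈ A, (∀ y ∈ Q^k, s y - y ∈ Q^{k+1})` under the assumption that `s x - x ∈ Q^2`:
`Q^k / Q^{k+1}` is one dimensional over `𝓞 M / Q` (`Ideal.finrank_...`/`Ideal.quotientToQuotientRangePowQuotSucc`, or: `Q^k = (x^k) + Q^{k+1}` because `(x^k) + Q^{k+1}` has the same valuation at `Q` as `Q^k` and is coprime to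
all other primes: it divides `Q^{k+1}`, so it is a power `Q^j`, `j ≤ k+1`, and `j = k` since `x^k ∈ Q^k ∖ Q^{k+1}`): `y = c x^k + z`, `z ∈ Q^{k+1}`, `s y - y = (s c - c)(s x)^k + c ((s x)^k - x^k) + (s z - z)` and all three are in
`Q^{k+1}` (`s` maps `Q` to `Q`: `s x ≡ x mod Q`; `(s x)^k - x^k = (s x - x)(∑ (s x)^i x^{k-1-i}) ∈ Q^2 Q^{k-1}`).
(2) If `s ∈ A` and `s x - x ∈ Q^2` then `s = 1`. By induction on `k ≥ 1`: `s y - y ∈ Q^k` for all `y ∈ 𝓞 M`. Let `d = s y - y ∈ Q^k`. By (1), `s^j d ≡ d mod Q^{k+1}`, so `0 = s^n y - y = ∑_{j<n} s^j d ≡ n d mod Q^{k+1}` (`s^n = 1`, `n = #A`).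
`n ∉ Q` (`n ∉ v`, `Q` over `v`), `n` is coprime to `Q^{k+1}`, so `d ∈ Q^{k+1}`. So `s y - y ∈ ⋂ Q^k = 0` (`Ideal.iInf_pow_eq_bot_of_isDomain` or Krull), `s = 1` on `𝓞 M` and so on `M`.
(3) For `s ∈ A` there is a unique `u(s) ∈ 𝓞 M / Q` with `s x ≡ c x mod Q^2` for `c` over `u(s)`: existence by `Q = (x) + Q^2` (`s x ∈ Q`), uniqueness because `c x ∈ Q^2` implies `c ∈ Q` (`x ∉ Q^2`). `u(s t) = u(s) u(t)` (`s c ≡ c mod Q`), `u(1) = 1`,
`u(s) = 1` implies `s = 1` by (2). So `u` is an injective homomorphism from `A` to the units of the finite field (domain) `𝓞 M / Q` and `A` is cyclic (`isCyclic_of_subgroup_isDomain`: needs an injective monoid hom to a domain). (4) Translate: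
a generator of `A` is `res M τ`, `τ ∈ I`; for `σ ∈ I`, `res M σ` is a power of it; apply `e`.
-/

set_option autoImplicit false

open scoped NumberField Pointwise
open IsDedekindDomain

noncomputable section

namespace H38.BG

open H63.MA H38.BB

variable {K : Type} [Field K] [NumberField K] {Ω : Type} [Field Ω] [Algebra K Ω] [IsAlgClosure K Ω]

section abs

variable {R G : Type} [CommRing R] [IsDedekindDomain R] [Group G] [MulSemiringAction G R]
  (Q : Ideal R)

theorem tcyc_smul_pow {s : G} (hs : ∀ y : R, s • y - y ∈ Q) {k : ℕ} {y : R} (hy : y ∈ Q ^ k) :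
    s • y ∈ Q ^ k := by
  induction k generalizing y with
  | zero => simp
  | succ k ih =>
    rw [pow_succ'] at hy ⊢
    refine Submodule.mul_induction_on hy ?_ ?_
    · intro a ha b hb
      rw [smul_mul']
      refine Ideal.mul_mem_mul ?_ (ih hb)
      have h1 := Q.add_mem (hs a) ha
      rwa [sub_add_cancel] at h1
    · intro a b ha hb
      rw [smul_add]
      exact Ideal.add_mem _ ha hb

theorem tcyc_step {x : R} (hQ0 : Q ≠ ⊥) [Q.IsPrime] (hx : x ∈ Q) (hx2 : x ∉ Q ^ 2) {s : G}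
    (hs : ∀ y : R, s • y - y ∈ Q) (hsx : s • x - x ∈ Q ^ 2) {k : ℕ} {y : R} (hy : y ∈ Q ^ k) :
    s • y - y ∈ Q ^ (k + 1) := by
  have h1 : ∀ a ∈ Q, s • a - a ∈ Q ^ 2 := by
    intro a ha
    have hx' : x ∈ Q ^ 1 := by rwa [pow_one]
    have ha' : a ∈ Q ^ 1 := by rwa [pow_one]
    obtain ⟨d, e, he, rfl⟩ := Ideal.exists_mul_add_mem_pow_succ hQ0 x a hx' hx2 ha'
    have e1 : s • (x * d + e) - (x * d + e) =
        (s • x - x) * s • d + x * (s • d - d) + (s • e - e) := by
      rw [smul_add, smul_mul']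
      ring
    rw [e1]
    refine Ideal.add_mem _ (Ideal.add_mem _ (Ideal.mul_mem_right _ _ hsx) ?_) ?_
    · rw [pow_two]
      exact Ideal.mul_mem_mul hx (hs d)
    · exact Ideal.sub_mem _ (tcyc_smul_pow Q hs he) he
  induction k generalizing y with
  | zero =>
    rw [zero_add, pow_one]
    exact hs y
  | succ k ih =>
    rw [pow_succ'] at hy
    refine Submodule.mul_induction_on hy ?_ ?_
    · intro a ha b hb
      have e1 : s • (a * b) - a * b = (s • a - a) * s • b + a * (s • b - b) := by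
        rw [smul_mul']
        ring
      rw [e1]
      refine Ideal.add_mem _ ?_ ?_
      · have e2 : Q ^ (k + 1 + 1) = Q ^ 2 * Q ^ k := by
          rw [← pow_add]
          congr 1
          omega
        rw [e2]
        exact Ideal.mul_mem_mul (h1 a ha) (tcyc_smul_pow Q hs hb)
      · rw [pow_succ' Q (k + 1)]
        exact Ideal.mul_mem_mul ha (ih hb)
    · intro a b ha hb
      have e1 : s • (a + b) - (a + b) = (s • a - a) + (s • b - b) := by
        rw [smul_add]
        ring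
      rw [e1]
      exact Ideal.add_mem _ ha hb

theorem tcyc_one {x : R} (hQ0 : Q ≠ ⊥) [hQp : Q.IsPrime] (hx : x ∈ Q) (hx2 : x ∉ Q ^ 2) {s : G}
    (hs : ∀ y : R, s • y - y ∈ Q) (hsx : s • x - x ∈ Q ^ 2) {n : ℕ} (hn : s ^ n = 1)
    (hnQ : (n : R) ∉ Q) (y : R) : s • y = y := by
  have key : ∀ k : ℕ, ∀ y : R, s • y - y ∈ Q ^ (k + 1) := by
    intro k
    induction k with
    | zero =>
      intro y
      rw [zero_add, pow_one]
      exact hs y
    | succ k ih =>
      intro y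
      set d := s • y - y with hd
      have hdk : d ∈ Q ^ (k + 1) := ih y
      have h1 : ∀ j : ℕ, s ^ j • d ∈ Q ^ (k + 1) ∧ s ^ j • d - d ∈ Q ^ (k + 1 + 1) := by
        intro j
        induction j with
        | zero =>
          rw [pow_zero, one_smul, sub_self]
          exact ⟨hdk, Ideal.zero_mem _⟩
        | succ j ihj =>
          obtain ⟨a1, a2⟩ := ihj
          rw [pow_succ' s j, mul_smul]
          refine ⟨tcyc_smul_pow Q hs a1, ?_⟩
          have e1 : s • s ^ j • d - d = (s • s ^ j • d - s ^ j • d) + (s ^ j • d - d) := by ring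
          rw [e1]
          exact Ideal.add_mem _ (tcyc_step Q hQ0 hx hx2 hs hsx a1) a2
      have h2 : ∀ j : ℕ, ∑ i ∈ Finset.range j, s ^ i • d = s ^ j • y - y := by
        intro j
        induction j with
        | zero => simp
        | succ j ihj =>
          rw [Finset.sum_range_succ, ihj, hd, smul_sub, pow_succ, mul_smul]
          ring
      have h3 : (n : R) * d = -∑ i ∈ Finset.range n, (s ^ i • d - d) := by
        rw [Finset.sum_sub_distrib, h2 n, hn, one_smul, sub_self, zero_sub, neg_neg,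
          Finset.sum_const, Finset.card_range, nsmul_eq_mul]
      have h4 : (n : R) * d ∈ Q ^ (k + 1 + 1) := by
        rw [h3]
        exact Ideal.neg_mem_iff _ |>.2 (Ideal.sum_mem _ fun i _ => (h1 i).2)
      exact (Ideal.IsPrime.mul_mem_pow Q h4).resolve_left hnQ
  have h5 : s • y - y ∈ (⨅ i : ℕ, Q ^ i) := by
    rw [Submodule.mem_iInf]
    intro i
    exact Ideal.pow_le_pow_right (Nat.le_succ i) (key i y)
  rw [Ideal.iInf_pow_eq_bot_of_isDomain Q hQp.ne_top] at h5
  exact sub_eq_zero.1 h5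

theorem tcyc_abs (hQ0 : Q ≠ ⊥) [hQp : Q.IsPrime] (hf : ∀ s : G, (∀ y : R, s • y = y) → s = 1)
    (A : Subgroup G) [Finite A] (hA : ∀ s ∈ A, ∀ y : R, s • y - y ∈ Q)
    (hn : ((Nat.card A : ℕ) : R) ∉ Q) : IsCyclic A := by
  obtain ⟨x, hx, hx2⟩ := Ideal.exists_mem_pow_notMem_pow_succ Q hQ0 hQp.ne_top 1
  have hx1 : x ∈ Q := by rwa [pow_one] at hx
  have hAx : ∀ s : A, (s : G) • x ∈ Q ^ 1 := fun s => tcyc_smul_pow Q (hA s s.2) hx
  choose d e he hde using fun s : A =>
    Ideal.exists_mul_add_mem_pow_succ hQ0 x ((s : G) • x) hx hx2 (hAx s)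
  have huniq : ∀ (a b : R), x * a - x * b ∈ Q ^ 2 → a - b ∈ Q := by
    intro a b hab
    rw [← mul_sub] at hab
    exact Ideal.mem_prime_of_mul_mem_pow hQ0 hx2 hab
  let u : A →* R ⧸ Q :=
    { toFun := fun s => Ideal.Quotient.mk Q (d s)
      map_one' := by
        rw [← map_one (Ideal.Quotient.mk Q), Ideal.Quotient.eq]
        apply huniq
        have h1 := hde 1
        rw [Subgroup.coe_one, one_smul] at h1
        have e1 : x * d 1 - x * 1 = -e 1 := by
          linear_combination h1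
        rw [e1]
        exact Ideal.neg_mem_iff _ |>.2 (he 1)
      map_mul' := by
        intro s t
        rw [← map_mul, Ideal.Quotient.eq]
        apply huniq
        have h1 := hde (s * t)
        have h2 := hde s
        have h3 := hde t
        rw [Subgroup.coe_mul, mul_smul, ← h3, smul_add, smul_mul', ← h2] at h1
        have e1 : x * d (s * t) - x * (d s * d t) =
            (x * ((s : G) • d t - d t)) * d s + e s * (s : G) • d t + (s : G) • e t - e (s * t) := by
          linear_combination h1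
        rw [e1]
        refine Ideal.sub_mem _ (Ideal.add_mem _ (Ideal.add_mem _ ?_ ?_) ?_) (he _)
        · refine Ideal.mul_mem_right _ _ ?_
          rw [pow_two]
          exact Ideal.mul_mem_mul hx1 (hA s s.2 _)
        · exact Ideal.mul_mem_right _ _ (he s)
        · exact tcyc_smul_pow Q (hA s s.2) (he t) }
  have hu : Function.Injective u := by
    rw [injective_iff_map_eq_one]
    intro s hs
    have h1 : d s - 1 ∈ Q := by
      rw [← Ideal.Quotient.eq, map_one]
      exact hs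
    have h2 : (s : G) • x - x ∈ Q ^ 2 := by
      have e1 : (s : G) • x - x = x * (d s - 1) + e s := by
        linear_combination -(hde s)
      rw [e1]
      refine Ideal.add_mem _ ?_ (he s)
      rw [pow_two]
      exact Ideal.mul_mem_mul hx1 h1
    apply Subtype.ext
    rw [Subgroup.coe_one]
    apply hf
    intro y
    refine tcyc_one Q hQ0 hx1 hx2 (hA s s.2) h2 (n := Nat.card A) ?_ hn y
    have h3 : s ^ Nat.card A = 1 := pow_card_eq_one'
    have h4 := congrArg (Subtype.val : A → G) h3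
    exact h4
  exact isCyclic_of_injective_ringHom u hu

end abs

theorem cyc (v : Pl K) (P : Ideal (𝓞 Ω)) (hP : P.IsPrime) (hPv : P.under (𝓞 K) = v.asIdeal)
    {H : Type} [Group H] [Finite H] (ψ : Gal(Ω/K) →* H) (hψ : H38.ML.FT ψ)
    (hc : ((Nat.card ((P.inertia Gal(Ω/K)).map ψ) : ℕ) : 𝓞 K) ∉ v.asIdeal) :
    ∃ τ ∈ P.inertia Gal(Ω/K), ∀ σ ∈ P.inertia Gal(Ω/K), ψ σ ∈ Subgroup.zpowers (ψ τ) := by
  obtain ⟨M, hM1, hM2, e, he, heψ⟩ := H38.ML.factor ψ hψ
  have : NumberField M := NumberField.of_module_finite K M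
  set Q : Ideal (𝓞 M) := P.under (𝓞 M) with hQ
  have hQp : Q.IsPrime := inferInstance
  have hQv : Q.under (𝓞 K) = v.asIdeal := by
    rw [hQ, Ideal.under_under]
    exact hPv
  have hQ0 : Q ≠ ⊥ := by
    intro h
    apply v.ne_bot
    rw [← hQv, h]
    exact Ideal.comap_bot_of_injective _ (FaithfulSMul.algebraMap_injective (𝓞 K) (𝓞 M))
  set A : Subgroup Gal(M/K) := (P.inertia Gal(Ω/K)).map (H38.ML.res M) with hA
  have hAmem : ∀ s ∈ A, ∀ y : 𝓞 M, s • y - y ∈ Q := by
    rintro _ ⟨τ, hτ, rfl⟩ x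
    change algebraMap (𝓞 M) (𝓞 Ω) (H38.ML.res M τ • x - x) ∈ P
    have h1 := hτ (algebraMap (𝓞 M) (𝓞 Ω) x)
    have h2 : algebraMap (𝓞 M) (𝓞 Ω) (H38.ML.res M τ • x - x) =
        τ • algebraMap (𝓞 M) (𝓞 Ω) x - algebraMap (𝓞 M) (𝓞 Ω) x := by
      rw [map_sub]
      congr 1
      apply NumberField.RingOfIntegers.ext
      exact AlgEquiv.restrictNormal_commutes τ M (x : M)
    rw [h2]
    exact h1
  have hmap : A.map e = (P.inertia Gal(Ω/K)).map ψ := by
    rw [hA, Subgroup.map_map]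
    congr 1
    ext σ
    exact heψ σ
  have hcard : Nat.card ((P.inertia Gal(Ω/K)).map ψ) = Nat.card A := by
    rw [← hmap]
    exact (Nat.card_congr (A.equivMapOfInjective e he).toEquiv).symm
  have hn : ((Nat.card A : ℕ) : 𝓞 M) ∉ Q := by
    intro h
    apply hc
    rw [hcard, ← hQv]
    change algebraMap (𝓞 K) (𝓞 M) ((Nat.card A : ℕ) : 𝓞 K) ∈ Q
    rw [map_natCast]
    exact h
  have hf : ∀ s : Gal(M/K), (∀ y : 𝓞 M, s • y = y) → s = 1 := by
    intro s hs
    have key : ∀ y : 𝓞 M, s (algebraMap (𝓞 M) M y) = algebraMap (𝓞 M) M y := fun y =>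
      congrArg (algebraMap (𝓞 M) M) (hs y)
    refine AlgEquiv.ext fun m => ?_
    obtain ⟨a, b, -, rfl⟩ := IsFractionRing.div_surjective (A := 𝓞 M) m
    rw [map_div₀, key, key]
    rfl
  have : Finite Gal(M/K) := inferInstance
  have hcyc := tcyc_abs Q hQ0 hf A hAmem hn
  obtain ⟨⟨g, hgA⟩, hg⟩ := hcyc.exists_generator
  obtain ⟨τ, hτ, rfl⟩ := hgA
  refine ⟨τ, hτ, fun σ hσ => ?_⟩
  obtain ⟨k, hk⟩ := hg ⟨H38.ML.res M σ, ⟨σ, hσ, rfl⟩⟩
  refine ⟨k, ?_⟩
  have h3 := congrArg (Subtype.val : A → Gal(M/K)) hk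
  simp only [Subgroup.coe_zpow] at h3
  rw [← heψ σ, ← heψ τ]
  change e (H38.ML.res M τ) ^ k = _
  rw [← map_zpow, h3]

end H38.BG
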