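import Pool.Agent.H38.ML.Prime
import Pool.Agent.H38.ML.RegInd
import Pool.Agent.H38.ML.InertOrb

/-!
# [H38 BG PIDX] least index elements in the second centre have the same prime order, 120-200 lines. File Pool/Agent/H38/BG/PIdx.lean

`G` transitive on `Fin n`, `n ≥ 2`, all elements of least index are in the second centre. Then they all have the same prime order `p` (`p = 2` allowed). Pure group theory / counting.

Proof. Let `g` be of least index, `q = orderOf g`, a prime (`H38.ML.prime_of_least`), `F` the number of fixed points of `g`. (1) `q * ind g = (q - 1) * (n - F)`: every orbit of `zpowers g` has `1` or `q` elements, so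
`orbs = F + (n - F) / q` (Burnside: `q * orbs = ∑_{k<q} #Fix(g^k) = n + (q - 1) F` because all `g^k ≠ 1` have the same fixed points (`g` is a power of `g^k`); `MulAction.sum_card_fixedBy_eq_card_orbits_mul_card_group`; compare `H38.ML.regind_orbs`).
(2) A central element `z` of `G` with a fixed point is `1` (`G` transitive, `z h x = h z x = h x`).
(3) If `F ≠ 0` then `F * q^j = n` for some `j`. `h ↦ c h = h g h⁻¹ g⁻¹` has central values (hypothesis; `h g h⁻¹ g⁻¹ = (g h g⁻¹ h⁻¹)⁻¹`), so `c (h k) = c h * c k`, and `(c h)^q = h g^q h⁻¹ g^{-q} = 1`. So `Z_g = {c h}` is a finite group of exponent `q`, of order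
`q^j` (`IsPGroup.iff_card`). Let `x₀` be a fixed point. For `x ∈ Fin n` let `x = h x₀`; `x` is fixed by `h g h⁻¹ = c h * g`. So `Fin n` is the union of the sets `Fix(z g)`, `z ∈ Z_g`; they are disjoint: `z g x = x = z' g x` gives `z⁻¹ x = z'⁻¹ x`, `z = z'` by (2); each has
`F` elements (`Fix(h g h⁻¹) = h Fix(g)`). So `n = q^j F`. `j ≥ 1` because `F < n` (`g ≠ 1`).
(4) So there are `s ≥ 1` and `M ≥ 1` prime to `q` with `q^s * ind g = M * n`: if `F = 0`: `s = 1`, `M = q - 1`; otherwise `n - F = F (q^j - 1)`, `q * ind = (q-1)(q^j - 1) F`, `s = j + 1`, `M = (q-1)(q^j - 1)`.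
(5) Let `g'` be another element of least index, of order `q' ≠ q`, `q'^{s'} * ind = M' * n` with `M'` prime to `q'`. Then `v_q(ind) < v_q(n)` by the first equation (`v_q(M) = 0`, `s ≥ 1`) and `v_q(ind) ≥ v_q(n)` by the second (`v_q(q'^{s'}) = 0`): contradiction (`ind ≠ 0`, `n ≠ 0`;
`ind = 0` would give `F = n`). (6) Elements of least index exist (`H38.ML.exists_least`, `G ≠ ⊥` because `G` is transitive and `n ≥ 2`); take `p` the order of one of them.
-/

set_option autoImplicit false

namespace H38.BG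

open H38.ML

/-- a central element with a fixed point is trivial -/
private theorem pidx_central {n : ℕ} (G : Subgroup (Equiv.Perm (Fin n)))
    (hG : MulAction.IsPretransitive G (Fin n)) (w : G) (hw : ∀ k : G, k * w = w * k) (y : Fin n)
    (hy : w • y = y) : w = 1 := by
  apply Subtype.ext
  apply Equiv.ext
  intro y'
  obtain ⟨k, hk⟩ := MulAction.exists_smul_eq G y y'
  have : w • y' = y' := by
    rw [← hk, ← mul_smul, ← hw k, mul_smul, hy]
  exact this

/-- Burnside for a group of prime order -/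
private theorem pidx_burnside {n : ℕ} (g : Equiv.Perm (Fin n)) (hq : (orderOf g).Prime) :
    orbs (Subgroup.zpowers g) * orderOf g =
      n + (orderOf g - 1) * Nat.card {x : Fin n // g x = x} := by
  classical
  have : Fintype (Subgroup.zpowers g) := Fintype.ofFinite _
  have : Fintype (Quotient (MulAction.orbitRel (Subgroup.zpowers g) (Fin n))) :=
    Fintype.ofFinite _
  have h := MulAction.sum_card_fixedBy_eq_card_orbits_mul_card_group (Subgroup.zpowers g) (Fin n)
  have hc : Fintype.card (Subgroup.zpowers g) = orderOf g := by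
    rw [← Nat.card_eq_fintype_card, Nat.card_zpowers]
  have ho : orbs (Subgroup.zpowers g) =
      Fintype.card (Quotient (MulAction.orbitRel (Subgroup.zpowers g) (Fin n))) := by
    unfold orbs
    rw [← Nat.card_eq_fintype_card]
  rw [ho, ← hc, ← h, ← Finset.add_sum_erase _ _ (Finset.mem_univ (1 : Subgroup.zpowers g))]
  congr 1
  · have : MulAction.fixedBy (Fin n) (1 : Subgroup.zpowers g) = Set.univ := by
      ext x
      simp
    rw [← Nat.card_eq_fintype_card, this, Nat.card_univ, Nat.card_fin]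
  · have h1 : ∀ a ∈ (Finset.univ : Finset (Subgroup.zpowers g)).erase 1,
        Fintype.card (MulAction.fixedBy (Fin n) a) = Nat.card {x : Fin n // g x = x} := by
      intro a ha
      rw [← Nat.card_eq_fintype_card]
      have ha1 : a ≠ 1 := Finset.ne_of_mem_erase ha
      obtain ⟨a, haz⟩ := a
      obtain ⟨k, rfl⟩ := Subgroup.mem_zpowers_iff.1 haz
      have hk : ¬ ((orderOf g : ℕ) : ℤ) ∣ k := by
        intro hd
        apply ha1
        apply Subtype.ext
        exact orderOf_dvd_iff_zpow_eq_one.1 hd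
      have hco : IsCoprime k ((orderOf g : ℕ) : ℤ) :=
        ((Prime.coprime_iff_not_dvd (Nat.prime_iff_prime_int.1 hq)).2 hk).symm
      obtain ⟨u, v, huv⟩ := hco
      refine Nat.card_congr (Equiv.subtypeEquivRight fun x => ?_)
      constructor
      · intro hx
        have hx' : (g ^ k) x = x := hx
        have h2 : g = (g ^ k) ^ u * (g ^ (orderOf g)) ^ v := by
          rw [← zpow_natCast g, ← zpow_mul, ← zpow_mul, ← zpow_add]
          conv_lhs => rw [← zpow_one g, ← huv]
          congr 1
          ring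
        rw [h2, pow_orderOf_eq_one, one_zpow, mul_one]
        exact Equiv.Perm.zpow_apply_eq_self_of_apply_eq_self hx' _
      · intro hx
        change (g ^ k) x = x
        exact Equiv.Perm.zpow_apply_eq_self_of_apply_eq_self hx _
    rw [Finset.sum_congr rfl h1, Finset.sum_const, smul_eq_mul,
      Finset.card_erase_of_mem (Finset.mem_univ _), Finset.card_univ]

/-- the commutator map `h ↦ h g h⁻¹ g⁻¹` if it has central values -/
private def pidxc {G : Type} [Group G] (g : G)
    (hc : ∀ h k : G, k * (g * h * g⁻¹ * h⁻¹) = g * h * g⁻¹ * h⁻¹ * k) : G →* G where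
  toFun h := h * g * h⁻¹ * g⁻¹
  map_one' := by group
  map_mul' h k := by
    have h1 := hc k h
    have h2 : k * g * k⁻¹ * g⁻¹ = (g * k * g⁻¹ * k⁻¹)⁻¹ := by group
    have h3 : ∀ l : G, l * (k * g * k⁻¹ * g⁻¹) = (k * g * k⁻¹ * g⁻¹) * l := by
      intro l
      rw [h2]
      have := hc k l
      exact (Commute.inv_right (show Commute l (g * k * g⁻¹ * k⁻¹) from this))
    calc h * k * g * (h * k)⁻¹ * g⁻¹ = h * (k * g * k⁻¹ * g⁻¹) * g * h⁻¹ * g⁻¹ := by group
      _ = (k * g * k⁻¹ * g⁻¹) * (h * g * h⁻¹ * g⁻¹) := by rw [h3 h]; group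
      _ = h * g * h⁻¹ * g⁻¹ * (k * g * k⁻¹ * g⁻¹) := (h3 _).symm

/-- the equation `q ^ s * ind g = M * n` -/
private theorem pidx_key {n : ℕ} (_hn : 2 ≤ n) (G : Subgroup (Equiv.Perm (Fin n)))
    (hG : MulAction.IsPretransitive G (Fin n)) (g : G) (hg : g ≠ 1)
    (hq : (orderOf (g : Equiv.Perm (Fin n))).Prime)
    (hc : ∀ h k : G, k * (g * h * g⁻¹ * h⁻¹) = g * h * g⁻¹ * h⁻¹ * k) :
    ∃ s M : ℕ, 1 ≤ s ∧ ¬ orderOf (g : Equiv.Perm (Fin n)) ∣ M ∧
      orderOf (g : Equiv.Perm (Fin n)) ^ s * ind (g : Equiv.Perm (Fin n)) = M * n := by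
  classical
  set q := orderOf (g : Equiv.Perm (Fin n)) with hqdef
  set F := Nat.card {x : Fin n // (g : Equiv.Perm (Fin n)) x = x} with hF
  have hb := pidx_burnside (g : Equiv.Perm (Fin n)) hq
  rw [← hqdef, ← hF] at hb
  have hq1 : 1 < q := hq.one_lt
  have hFn : F ≤ n := by
    have := Nat.card_le_card_of_injective
      (fun x : {x : Fin n // (g : Equiv.Perm (Fin n)) x = x} => (x : Fin n))
      Subtype.val_injective
    rwa [Nat.card_fin] at this
  have horb : orbs (Subgroup.zpowers (g : Equiv.Perm (Fin n))) ≤ n := by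
    have h2 := Nat.card_le_card_of_surjective _ (Quotient.mk_surjective
      (s := MulAction.orbitRel (Subgroup.zpowers (g : Equiv.Perm (Fin n))) (Fin n)))
    rw [Nat.card_fin] at h2
    exact h2
  -- `q * ind g = (q - 1) * (n - F)`
  have hind : q * ind (g : Equiv.Perm (Fin n)) = (q - 1) * (n - F) := by
    unfold ind
    zify [horb, hFn, hq1.le]
    zify [hq1.le] at hb
    linear_combination -hb
  have hqd1 : ¬ q ∣ q - 1 := fun h => by
    have := Nat.le_of_dvd (by omega) h
    omega
  rcases Nat.eq_zero_or_pos F with hF0 | hF0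
  · refine ⟨1, q - 1, le_rfl, hqd1, ?_⟩
    rw [pow_one, hind, hF0, Nat.sub_zero]
  · obtain ⟨⟨x₀, hx₀⟩⟩ : Nonempty {x : Fin n // (g : Equiv.Perm (Fin n)) x = x} := by
      rw [← not_isEmpty_iff]
      intro he
      have : F = 0 := by
        rw [hF]
        exact Nat.card_of_isEmpty
      omega
    have hx₀' : g • x₀ = x₀ := hx₀
    set c := pidxc g hc with hcdef
    have hcapp : ∀ h : G, c h = h * g * h⁻¹ * g⁻¹ := fun h => rfl
    have hcg : ∀ h : G, c h * g = h * g * h⁻¹ := fun h => by rw [hcapp]; group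
    have hcc : ∀ h l : G, l * c h = c h * l := by
      intro h l
      have h2 : c h = (g * h * g⁻¹ * h⁻¹)⁻¹ := by rw [hcapp]; group
      rw [h2]
      exact (Commute.inv_right (show Commute l (g * h * g⁻¹ * h⁻¹) from hc h l))
    have hgq : g ^ q = 1 := by
      rw [hqdef, Subgroup.orderOf_coe, pow_orderOf_eq_one]
    have hcq : ∀ h : G, c h ^ q = 1 := by
      intro h
      have h3 : (c h * g) ^ q = 1 := by
        rw [hcg, conj_pow, hgq]
        group
      have h4 : Commute (c h) g := (hcc h g).symm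
      rw [h4.mul_pow, hgq, mul_one] at h3
      exact h3
    have : Fact q.Prime := ⟨hq⟩
    have hR : IsPGroup q c.range := by
      rintro ⟨z, h, rfl⟩
      refine ⟨1, ?_⟩
      apply Subtype.ext
      rw [pow_one]
      exact hcq h
    obtain ⟨j, hj⟩ := IsPGroup.iff_card.1 hR
    have : Fintype c.range := Fintype.ofFinite _
    -- counting
    have hcount : n = q ^ j * F := by
      have h1 := Finset.sum_card_bipartiteAbove_eq_sum_card_bipartiteBelow
        (s := (Finset.univ : Finset c.range)) (t := (Finset.univ : Finset (Fin n)))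
        (fun (z : c.range) (x : Fin n) => (z : G) • (g • x) = x)
      have h2 : ∀ x ∈ (Finset.univ : Finset (Fin n)),
          (Finset.bipartiteBelow (fun (z : c.range) (x : Fin n) => (z : G) • (g • x) = x)
            Finset.univ x).card = 1 := by
        intro x _
        rw [Finset.card_eq_one]
        obtain ⟨h, hh⟩ := MulAction.exists_smul_eq G x₀ x
        refine ⟨⟨c h, h, rfl⟩, ?_⟩
        ext z
        rw [Finset.mem_bipartiteBelow, Finset.mem_singleton]
        have hzx : (c h) • (g • x) = x := by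
          rw [← mul_smul, hcg, ← hh, ← mul_smul, inv_mul_cancel_right, mul_smul, hx₀']
        constructor
        · rintro ⟨-, hz⟩
          obtain ⟨z, h', rfl⟩ := z
          apply Subtype.ext
          change c h' = c h
          have hz' : (c h') • (g • x) = x := hz
          have hw : (c h)⁻¹ * c h' = 1 := by
            refine pidx_central G hG _ (fun k => ?_) (g • x) ?_
            · have e1 : Commute k (c h) := hcc h k
              have e2 : Commute k (c h') := hcc h' k
              exact (e1.inv_right.mul_right e2)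
            · rw [mul_smul, hz', inv_smul_eq_iff, hzx]
          exact (inv_mul_eq_one.1 hw).symm
        · rintro rfl
          exact ⟨Finset.mem_univ _, hzx⟩
      have h3 : ∀ z ∈ (Finset.univ : Finset c.range),
          (Finset.bipartiteAbove (fun (z : c.range) (x : Fin n) => (z : G) • (g • x) = x)
            Finset.univ z).card = F := by
        rintro ⟨z, h, rfl⟩ _
        rw [hF, Finset.bipartiteAbove, ← Fintype.card_subtype, ← Nat.card_eq_fintype_card]
        refine Nat.card_congr (Equiv.subtypeEquiv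
          ((h : Equiv.Perm (Fin n))⁻¹ : Equiv.Perm (Fin n)) fun x => ?_)
        change (c h) • (g • x) = x ↔ g • (h⁻¹ • x) = h⁻¹ • x
        rw [← mul_smul, hcg, mul_smul, mul_smul, ← eq_inv_smul_iff]
      rw [Finset.sum_congr rfl h2, Finset.sum_congr rfl h3] at h1
      simp only [Finset.sum_const, smul_eq_mul, Finset.card_univ, Fintype.card_fin, mul_one] at h1
      rw [← h1, ← Nat.card_eq_fintype_card, hj]
    have hj1 : j ≠ 0 := by
      rintro rfl
      rw [pow_zero, one_mul] at hcount
      rw [← hcount, Nat.sub_self, mul_zero] at hind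
      have h5 := ind_pos (g : Equiv.Perm (Fin n)) (fun h => hg (Subtype.ext h))
      have h6 := Nat.mul_pos (show 0 < q by omega) h5
      omega
    refine ⟨j + 1, (q - 1) * (q ^ j - 1), by omega, ?_, ?_⟩
    · rw [hq.dvd_mul]
      rintro (h | h)
      · exact hqd1 h
      · have h5 : q ∣ q ^ j := dvd_pow_self q hj1
        have h6 : 1 ≤ q ^ j := Nat.one_le_pow _ _ (by omega)
        have h7 : q ∣ 1 := by
          have := (Nat.dvd_sub h5 h)
          rwa [Nat.sub_sub_self h6] at this
        exact hq.one_lt.ne' (Nat.dvd_one.1 h7)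
    · have h6 : 1 ≤ q ^ j := Nat.one_le_pow _ _ (by omega)
      calc q ^ (j + 1) * ind (g : Equiv.Perm (Fin n)) =
            q ^ j * (q * ind (g : Equiv.Perm (Fin n))) := by ring
        _ = (q - 1) * (q ^ j - 1) * n := by
          rw [hind]
          have : n - F = (q ^ j - 1) * F := by
            rw [Nat.sub_mul, one_mul, ← hcount]
          rw [this]
          conv_rhs => rw [hcount]
          ring

theorem pidx {n : ℕ} (hn : 2 ≤ n) (G : Subgroup (Equiv.Perm (Fin n)))
    (hG : MulAction.IsPretransitive G (Fin n))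
    (hZ : ∀ g : G, g ≠ 1 → ind (g : Equiv.Perm (Fin n)) = indG G →
      ∀ h k : G, k * (g * h * g⁻¹ * h⁻¹) = g * h * g⁻¹ * h⁻¹ * k) :
    ∃ p : ℕ, p.Prime ∧ ∀ g : G, g ≠ 1 → ind (g : Equiv.Perm (Fin n)) = indG G → g ^ p = 1 := by
  have hbot : G ≠ ⊥ := by
    rintro rfl
    obtain ⟨k, hk⟩ := MulAction.exists_smul_eq (⊥ : Subgroup (Equiv.Perm (Fin n)))
      (⟨0, by omega⟩ : Fin n) ⟨1, by omega⟩
    have hk1 : k = 1 := Subsingleton.elim _ _
    rw [hk1, one_smul, Fin.mk.injEq] at hk
    omega
  obtain ⟨g, hg, hgi⟩ := exists_least G hbot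
  have hp := prime_of_least G g hg hgi
  refine ⟨orderOf g, hp, fun g' hg' hgi' => ?_⟩
  have hp' := prime_of_least G g' hg' hgi'
  rw [← Subgroup.orderOf_coe] at hp hp'
  obtain ⟨s, M, hs, hM, he⟩ := pidx_key hn G hG g hg hp (hZ g hg hgi)
  obtain ⟨s', M', hs', hM', he'⟩ := pidx_key hn G hG g' hg' hp' (hZ g' hg' hgi')
  rw [hgi'] at he'
  rw [hgi] at he
  have hpos : 0 < indG G := by
    rw [← hgi]
    exact ind_pos _ (fun h => hg (Subtype.ext h))
  have hmain : orderOf (g : Equiv.Perm (Fin n)) ^ s * M' =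
      M * orderOf (g' : Equiv.Perm (Fin n)) ^ s' := by
    have h1 : (indG G * n) * (orderOf (g : Equiv.Perm (Fin n)) ^ s * M') =
        (indG G * n) * (M * orderOf (g' : Equiv.Perm (Fin n)) ^ s') := by
      calc (indG G * n) * (orderOf (g : Equiv.Perm (Fin n)) ^ s * M') =
            (orderOf (g : Equiv.Perm (Fin n)) ^ s * indG G) * (M' * n) := by ring
        _ = (indG G * n) * (M * orderOf (g' : Equiv.Perm (Fin n)) ^ s') := by
          rw [he, ← he']
          ring
    exact Nat.eq_of_mul_eq_mul_left (Nat.mul_pos hpos (by omega)) h1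
  have hdvd : orderOf (g : Equiv.Perm (Fin n)) ∣ M * orderOf (g' : Equiv.Perm (Fin n)) ^ s' := by
    rw [← hmain]
    exact (dvd_pow_self _ (by omega)).mul_right _
  rcases hp.dvd_mul.1 hdvd with h | h
  · exact absurd h hM
  · have h2 := (Nat.prime_dvd_prime_iff_eq hp hp').1 (hp.dvd_of_dvd_pow h)
    rw [← Subgroup.orderOf_coe, h2, Subgroup.orderOf_coe, pow_orderOf_eq_one]

/-- basic facts on the index -/
theorem pidx_pos {n : ℕ} (hn : 2 ≤ n) (G : Subgroup (Equiv.Perm (Fin n)))
    (hG : MulAction.IsPretransitive G (Fin n)) :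
    0 < indG G ∧ (∃ g : G, g ≠ 1 ∧ ind (g : Equiv.Perm (Fin n)) = indG G) ∧
      (∀ g : G, g ≠ 1 → indG G ≤ ind (g : Equiv.Perm (Fin n))) ∧
      (∀ g h : G, g ≠ 1 → ind (g : Equiv.Perm (Fin n)) = indG G →
        ind ((h * g * h⁻¹ : G) : Equiv.Perm (Fin n)) = indG G) ∧
      ∀ J : Subgroup G, J ≠ ⊥ → indG G + orbs (J.map G.subtype) ≤ n := by
  have hbot : G ≠ ⊥ := by
    rintro rfl
    obtain ⟨k, hk⟩ := MulAction.exists_smul_eq (⊥ : Subgroup (Equiv.Perm (Fin n)))
      (⟨0, by omega⟩ : Fin n) ⟨1, by omega⟩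
    have hk1 : k = 1 := Subsingleton.elim _ _
    rw [hk1, one_smul, Fin.mk.injEq] at hk
    omega
  obtain ⟨g, hg, hgi⟩ := exists_least G hbot
  have hle : ∀ g : G, g ≠ 1 → indG G ≤ ind (g : Equiv.Perm (Fin n)) := fun g hg =>
    Nat.sInf_le ⟨g, g.2, fun h => hg (Subtype.ext h), rfl⟩
  refine ⟨?_, ⟨g, hg, hgi⟩, hle, fun g h _ hgi => ?_, fun J hJ => ?_⟩
  · rw [← hgi]
    exact ind_pos _ (fun h => hg (Subtype.ext h))
  · rw [← hgi]
    unfold ind
    congr 1
    exact orbs_conj (g : Equiv.Perm (Fin n)) (h : Equiv.Perm (Fin n))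
  · obtain ⟨⟨x, hxJ⟩, hx⟩ := Subgroup.ne_bot_iff_exists_ne_one.1 hJ
    have hx1 : x ≠ 1 := fun h => hx (Subtype.ext h)
    have h1 := hle x hx1
    have h2 : orbs (J.map G.subtype) ≤ orbs (Subgroup.zpowers (x : Equiv.Perm (Fin n))) := by
      have hsub : Subgroup.zpowers (x : Equiv.Perm (Fin n)) ≤ J.map G.subtype := by
        rw [Subgroup.zpowers_le]
        exact ⟨x, hxJ, rfl⟩
      have hrel : ∀ a b : Fin n,
          MulAction.orbitRel (Subgroup.zpowers (x : Equiv.Perm (Fin n))) (Fin n) a b →
          MulAction.orbitRel (J.map G.subtype) (Fin n) a b := by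
        intro a b hab
        rw [MulAction.orbitRel_apply] at hab ⊢
        obtain ⟨⟨k, hk⟩, hk'⟩ := hab
        exact ⟨⟨k, hsub hk⟩, hk'⟩
      refine Nat.card_le_card_of_surjective (Quotient.map id hrel) ?_
      intro q
      induction q using Quotient.inductionOn with
      | h y => exact ⟨Quotient.mk _ y, rfl⟩
    have h3 : orbs (Subgroup.zpowers (x : Equiv.Perm (Fin n))) ≤ n := by
      have h2 := Nat.card_le_card_of_surjective _ (Quotient.mk_surjective
        (s := MulAction.orbitRel (Subgroup.zpowers (x : Equiv.Perm (Fin n))) (Fin n)))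
      rw [Nat.card_fin] at h2
      exact h2
    unfold ind at h1
    omega

end H38.BG
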