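import Pool.Agent.H38.ML.EmbOrb

/-!
# [H38 BG DEMB] every reduction is the reduction of an embedding, 120-200 lines (complement to H38/ML/EmbOrb.lean). File Pool/Agent/H38/BG/DEmb.lean

`𝔓` a prime of `𝓞 Ω` over `v`, `κ = 𝓞 Ω ⧸ 𝔓`. `embOrb_ge`: `∑_{P ∣ v} f_P ≤` the number of orbits of the inertia group of `𝔓` on the embeddings `L → Ω`. (The opposite inequality is `H38.ML.embOrb_le`; some private definitions of that file can be copied.)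

Proof. For an embedding `φ : L →ₐ[K] Ω` let `red φ : 𝓞 L → κ` be its reduction. `red φ` only depends on the orbit of `φ` under the inertia group. (1) `κ` is an algebraically closed field: it is a field (`𝔓` is maximal: integral over the maximal ideal `v`; or `κ` is a domain, integral over the field `𝓞 K ⧸ v`), and a monic
polynomial over `κ` lifts to a monic polynomial over `𝓞 Ω` (`Polynomial.lifts_and_natDegree_eq_and_monic`), which has a root in `Ω` (algebraically closed, `IsAlgClosure`), integral over `𝓞 Ω`, so it is in `𝓞 Ω` (`IsAlgClosed.of_exists_root`).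
(2) For `P ∈ v.primesOver (𝓞 L)` the number of `𝓞 K ⧸ v`-algebra homomorphisms `g : 𝓞 L ⧸ P → κ` is `f_P = P.inertiaDeg (𝓞 K)` (`AlgHom.card`: a finite extension of a finite, so perfect, field: separable; `κ` algebraically closed; the algebra structures as in `embOrb_le`). Different pairs `(P, g)` give different ring
homomorphisms `𝓞 L → κ` (the kernel is `P`).
(3) Every ring homomorphism `f : 𝓞 L → κ`, compatible with `𝓞 K`, is `red φ` for some `φ`: let `P = ker f` (over `v`). Let `𝔓₁` be a prime of `𝓞 Ω` over `P` (lying over for the integral extension `𝓞 L → 𝓞 Ω` given by the inclusion `L ≤ Ω`). `𝔓` and `𝔓₁` lie over `v`, so `σ • 𝔓₁ = 𝔓` for some `σ ∈ Γ`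
(`Algebra.IsInvariant.exists_smul_of_under_eq_of_profinite` for `A = 𝓞 K`, `B = 𝓞 Ω`, as in `H38/ML/EmbOrb.lean`, `exists_mul_mem_inertia`). Let `φ₁ = σ ∘ L.val`: `φ₁ x ∈ 𝔓` iff `x ∈ P`. So `red φ₁` and `f` induce two homomorphisms `𝓞 L ⧸ P → κ` over `𝓞 K ⧸ v`. As `κ` is algebraic and normal over the
image of `𝓞 L ⧸ P` (algebraically closed and algebraic over `𝓞 K ⧸ v`) there is an automorphism `s` of `κ` over `𝓞 K ⧸ v` with `s ∘ red φ₁ = f` (`IsAlgClosed.lift`/`AlgHom.liftNormal`/`IntermediateField...`; an endomorphism of an algebraic extension is bijective: `Algebra.IsAlgebraic.algHom_bijective`).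
By `Ideal.Quotient.stabilizerHom_surjective_of_profinite` (`A = 𝓞 K`, `G = Γ` with the Krull topology, `𝓞 Ω` discrete, as in EmbOrb) there is `δ ∈ Γ` with `δ • 𝔓 = 𝔓` inducing `s`. `φ = δ ∘ φ₁` has `red φ = s ∘ red φ₁ = f`.
(4) So the map from orbits to the set of the pairs `(P, g)` is surjective; `Nat.card` of the latter is `∑ f_P`; the set of orbits is finite (`L →ₐ[K] Ω` is finite).
-/

open scoped NumberField Pointwise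

namespace H38.BG

open H38.ML

variable {K Ω : Type} [Field K] [NumberField K] [Field Ω] [Algebra K Ω] [IsAlgClosure K Ω]

private theorem demb_cont [TopologicalSpace (𝓞 Ω)] [DiscreteTopology (𝓞 Ω)] :
    ContinuousSMul Gal(Ω/K) (𝓞 Ω) := by
  have : IsGalois K Ω := IsAlgClosure.isGalois K Ω
  rw [continuousSMul_iff_stabilizer_isOpen]
  intro x
  have h1 := stabilizer_isOpen_of_isIntegral (K := K) (L := Ω) (x : Ω)
  have h2 : (MulAction.stabilizer Gal(Ω/K) x : Set Gal(Ω/K)) =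
      (MulAction.stabilizer Gal(Ω/K) (x : Ω) : Set Gal(Ω/K)) := by
    ext g
    simp only [SetLike.mem_coe, MulAction.mem_stabilizer_iff]
    constructor
    · intro hg
      exact congrArg (fun z : 𝓞 Ω => (z : Ω)) hg
    · intro hg
      exact NumberField.RingOfIntegers.ext hg
  rw [h2]
  exact h1

private theorem demb_inv : Algebra.IsInvariant (𝓞 K) (𝓞 Ω) Gal(Ω/K) := by
  have : IsGalois K Ω := IsAlgClosure.isGalois K Ω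
  refine ⟨fun b hb => ?_⟩
  have h1 : (b : Ω) ∈ (⊥ : IntermediateField K Ω) := by
    rw [← InfiniteGalois.fixedField_bot (k := K) (K := Ω), IntermediateField.mem_fixedField_iff]
    intro g _
    exact congrArg (fun z : 𝓞 Ω => (z : Ω)) (hb g)
  obtain ⟨a, ha⟩ := IntermediateField.mem_bot.1 h1
  have h2 : IsIntegral ℤ a := by
    have h3 : IsIntegral ℤ (algebraMap K Ω a) := by
      rw [ha]
      exact b.2
    exact (isIntegral_algebraMap_iff (algebraMap K Ω).injective).1 h3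
  refine ⟨⟨a, h2⟩, NumberField.RingOfIntegers.ext ?_⟩
  exact ha

private theorem demb_comm : SMulCommClass Gal(Ω/K) (𝓞 K) (𝓞 Ω) := ⟨fun g a b => by
  apply NumberField.RingOfIntegers.ext
  have h1 : ((a • b : 𝓞 Ω) : Ω) = algebraMap K Ω (a : K) * (b : Ω) := by
    rw [Algebra.smul_def]
    rfl
  have h2 : ((a • (g • b) : 𝓞 Ω) : Ω) = algebraMap K Ω (a : K) * g (b : Ω) := by
    rw [Algebra.smul_def]
    rfl
  rw [h2]
  show g ((a • b : 𝓞 Ω) : Ω) = _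
  rw [h1, map_mul, AlgEquiv.commutes]⟩

private theorem demb_T (𝔓₁ 𝔓₂ : Ideal (𝓞 Ω)) [𝔓₁.IsPrime] [𝔓₂.IsPrime]
    (h : 𝔓₁.under (𝓞 K) = 𝔓₂.under (𝓞 K)) : ∃ σ : Gal(Ω/K), 𝔓₂ = σ • 𝔓₁ := by
  have : IsGalois K Ω := IsAlgClosure.isGalois K Ω
  let _ : TopologicalSpace (𝓞 Ω) := ⊥
  have : DiscreteTopology (𝓞 Ω) := ⟨rfl⟩
  have : ContinuousSMul Gal(Ω/K) (𝓞 Ω) := demb_cont
  have : SMulCommClass Gal(Ω/K) (𝓞 K) (𝓞 Ω) := demb_comm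
  have : Algebra.IsInvariant (𝓞 K) (𝓞 Ω) Gal(Ω/K) := demb_inv
  exact Algebra.IsInvariant.exists_smul_of_under_eq_of_profinite (A := 𝓞 K) (G := Gal(Ω/K))
    𝔓₁ 𝔓₂ h

private theorem demb_S (v : Ideal (𝓞 K)) (𝔓 : Ideal (𝓞 Ω)) [𝔓.IsPrime] [𝔓.LiesOver v]
    (s : (𝓞 Ω ⧸ 𝔓) ≃ₐ[𝓞 K ⧸ v] (𝓞 Ω ⧸ 𝔓)) :
    ∃ δ : Gal(Ω/K), ∀ x : 𝓞 Ω, Ideal.Quotient.mk 𝔓 (δ • x) = s (Ideal.Quotient.mk 𝔓 x) := by
  have : IsGalois K Ω := IsAlgClosure.isGalois K Ω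
  let _ : TopologicalSpace (𝓞 Ω) := ⊥
  have : DiscreteTopology (𝓞 Ω) := ⟨rfl⟩
  have : ContinuousSMul Gal(Ω/K) (𝓞 Ω) := demb_cont
  have : SMulCommClass Gal(Ω/K) (𝓞 K) (𝓞 Ω) := demb_comm
  have : Algebra.IsInvariant (𝓞 K) (𝓞 Ω) Gal(Ω/K) := demb_inv
  obtain ⟨F, hF⟩ := Ideal.Quotient.stabilizerHom_surjective_of_profinite (G := Gal(Ω/K)) v 𝔓 s
  refine ⟨F, fun x => ?_⟩
  rw [← hF]
  rfl

private theorem demb_N (F E : Type) [Field F] [Finite F] [Field E] [Algebra F E]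
    [Algebra.IsAlgebraic F E] : Normal F E := by
  rw [normal_iff]
  intro x
  have hx : IsIntegral F x := Algebra.IsIntegral.isIntegral x
  refine ⟨hx, ?_⟩
  have h1 : FiniteDimensional F (IntermediateField.adjoin F {x}) :=
    IntermediateField.adjoin.finiteDimensional hx
  have h2 : Finite (IntermediateField.adjoin F {x}) := Module.finite_of_finite F
  have h3 : IsGalois F (IntermediateField.adjoin F {x}) := inferInstance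
  have h4 := Normal.splits (h3.to_normal) (⟨x, IntermediateField.mem_adjoin_simple_self F x⟩ :
    IntermediateField.adjoin F {x})
  have h5 : minpoly F (⟨x, IntermediateField.mem_adjoin_simple_self F x⟩ :
      IntermediateField.adjoin F {x}) = minpoly F x :=
    (minpoly.algHom_eq (IntermediateField.adjoin F {x}).val
      (IntermediateField.adjoin F {x}).val.injective _).symm
  rw [h5] at h4
  have h6 := h4.map (algebraMap (IntermediateField.adjoin F {x}) E)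
  rw [Polynomial.map_map, ← IsScalarTower.algebraMap_eq] at h6
  exact h6

/-- reduction of an embedding modulo a prime -/
private noncomputable def dred (L : IntermediateField K Ω) (𝔓 : Ideal (𝓞 Ω)) (φ : L →ₐ[K] Ω) :
    𝓞 L →+* (𝓞 Ω ⧸ 𝔓) :=
  (Ideal.Quotient.mk 𝔓).comp (NumberField.RingOfIntegers.mapRingHom (φ : L →+* Ω))

private theorem dred_alg (L : IntermediateField K Ω) (𝔓 : Ideal (𝓞 Ω)) (φ : L →ₐ[K] Ω) (a : 𝓞 K) :
    dred L 𝔓 φ (algebraMap (𝓞 K) (𝓞 L) a) = Ideal.Quotient.mk 𝔓 (algebraMap (𝓞 K) (𝓞 Ω) a) := by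
  show Ideal.Quotient.mk 𝔓 _ = Ideal.Quotient.mk 𝔓 _
  congr 1
  apply NumberField.RingOfIntegers.ext
  exact φ.commutes (a : K)

/-- the ring homomorphisms from the integers of `L` to the residue ring, compatible with `K` -/
private def DRH (L : IntermediateField K Ω) (𝔓 : Ideal (𝓞 Ω)) : Type :=
  {f : 𝓞 L →+* (𝓞 Ω ⧸ 𝔓) // ∀ a : 𝓞 K, f (algebraMap (𝓞 K) (𝓞 L) a) =
    Ideal.Quotient.mk 𝔓 (algebraMap (𝓞 K) (𝓞 Ω) a)}

private theorem demb_E (L : IntermediateField K Ω) [FiniteDimensional K L] [NumberField L]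
    (𝔓 : Ideal (𝓞 Ω)) [h𝔓 : 𝔓.IsPrime] (P : Ideal (𝓞 L)) [P.IsPrime]
    (h : P.under (𝓞 K) = 𝔓.under (𝓞 K)) :
    ∃ φ : L →ₐ[K] Ω, RingHom.ker (dred L 𝔓 φ) = P := by
  obtain ⟨⟨𝔓₁, hp1, hl1⟩⟩ : Nonempty (P.primesOver (𝓞 Ω)) := inferInstance
  have h1 : 𝔓₁.under (𝓞 L) = P := hl1.over.symm
  have h2 : 𝔓₁.under (𝓞 K) = 𝔓.under (𝓞 K) := by
    rw [← h, ← h1, Ideal.under_under]
  obtain ⟨σ, hσ⟩ := demb_T 𝔓₁ 𝔓 h2
  refine ⟨((σ : Gal(Ω/K)) : Ω →ₐ[K] Ω).comp L.val, ?_⟩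
  ext x
  rw [RingHom.mem_ker]
  have h3 : dred L 𝔓 (((σ : Gal(Ω/K)) : Ω →ₐ[K] Ω).comp L.val) x =
      Ideal.Quotient.mk 𝔓 (σ • (algebraMap (𝓞 L) (𝓞 Ω) x)) := rfl
  rw [h3, Ideal.Quotient.eq_zero_iff_mem, hσ, Ideal.smul_mem_pointwise_smul_iff, ← h1]
  rfl

/-- the homomorphism of the residue field -/
private noncomputable def dlift (L : IntermediateField K Ω) (v : Ideal (𝓞 K)) (𝔓 : Ideal (𝓞 Ω))
    [𝔓.LiesOver v] (P : Ideal (𝓞 L)) [P.LiesOver v] (f : 𝓞 L →+* (𝓞 Ω ⧸ 𝔓))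
    (hf : ∀ a : 𝓞 K, f (algebraMap (𝓞 K) (𝓞 L) a) =
      Ideal.Quotient.mk 𝔓 (algebraMap (𝓞 K) (𝓞 Ω) a)) (hP : RingHom.ker f = P) :
    (𝓞 L ⧸ P) →ₐ[𝓞 K ⧸ v] (𝓞 Ω ⧸ 𝔓) where
  toRingHom := Ideal.Quotient.lift P f (fun a ha => by rw [← hP] at ha; exact ha)
  commutes' := by
    intro z
    obtain ⟨a, rfl⟩ := Ideal.Quotient.mk_surjective z
    exact hf a

private theorem demb_R (L : IntermediateField K Ω) [FiniteDimensional K L] [NumberField L]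
    (v : Ideal (𝓞 K)) (hv : v.IsPrime) (hv0 : v ≠ ⊥) (𝔓 : Ideal (𝓞 Ω)) (h𝔓 : 𝔓.IsPrime)
    (h𝔓v : 𝔓.under (𝓞 K) = v) (f : DRH L 𝔓) : ∃ φ : L →ₐ[K] Ω, dred L 𝔓 φ = f.1 := by
  obtain ⟨P, hP⟩ : ∃ P, P = RingHom.ker f.1 := ⟨_, rfl⟩
  have hPp : P.IsPrime := by
    rw [hP]
    exact RingHom.ker_isPrime f.1
  have hPv : P.under (𝓞 K) = 𝔓.under (𝓞 K) := by
    ext a
    simp only [hP, Ideal.under_def, Ideal.mem_comap, RingHom.mem_ker]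
    rw [f.2 a, Ideal.Quotient.eq_zero_iff_mem]
  obtain ⟨φ₁, hφ₁⟩ := demb_E L 𝔓 P hPv
  have hvm : v.IsMaximal := hv.isMaximal hv0
  have h𝔓l : 𝔓.LiesOver v := ⟨h𝔓v.symm⟩
  have hPl : P.LiesOver v := ⟨by rw [hPv, h𝔓v]⟩
  have h𝔓m : 𝔓.IsMaximal := Ideal.IsMaximal.of_liesOver_isMaximal 𝔓 v
  have hPm : P.IsMaximal := Ideal.IsMaximal.of_liesOver_isMaximal P v
  letI := Ideal.Quotient.field v
  letI := Ideal.Quotient.field 𝔓
  letI := Ideal.Quotient.field P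
  have hfin : Finite (𝓞 K ⧸ v) := Ideal.finiteQuotientOfFreeOfNeBot _ hv0
  have halg : Algebra.IsAlgebraic (𝓞 K ⧸ v) (𝓞 Ω ⧸ 𝔓) := Algebra.IsIntegral.isAlgebraic
  have hnorm : Normal (𝓞 K ⧸ v) (𝓞 Ω ⧸ 𝔓) := demb_N _ _
  let g1 : (𝓞 L ⧸ P) →ₐ[𝓞 K ⧸ v] (𝓞 Ω ⧸ 𝔓) := dlift L v 𝔓 P (dred L 𝔓 φ₁) (dred_alg L 𝔓 φ₁) hφ₁
  let g2 : (𝓞 L ⧸ P) →ₐ[𝓞 K ⧸ v] (𝓞 Ω ⧸ 𝔓) := dlift L v 𝔓 P f.1 f.2 hP.symm
  letI : Algebra (𝓞 L ⧸ P) (𝓞 Ω ⧸ 𝔓) := g1.toRingHom.toAlgebra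
  have : IsScalarTower (𝓞 K ⧸ v) (𝓞 L ⧸ P) (𝓞 Ω ⧸ 𝔓) :=
    IsScalarTower.of_algebraMap_eq fun x => (g1.commutes x).symm
  let s0 : (𝓞 Ω ⧸ 𝔓) →ₐ[𝓞 K ⧸ v] (𝓞 Ω ⧸ 𝔓) := g2.liftNormal (𝓞 Ω ⧸ 𝔓)
  have hs0 : ∀ x, s0 (g1 x) = g2 x := fun x => g2.liftNormal_commutes (𝓞 Ω ⧸ 𝔓) x
  let s : (𝓞 Ω ⧸ 𝔓) ≃ₐ[𝓞 K ⧸ v] (𝓞 Ω ⧸ 𝔓) :=
    AlgEquiv.ofBijective s0 (AlgHom.normal_bijective (𝓞 K ⧸ v) (𝓞 Ω ⧸ 𝔓) (𝓞 Ω ⧸ 𝔓) s0)
  obtain ⟨δ, hδ⟩ := demb_S v 𝔓 s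
  refine ⟨((δ : Gal(Ω/K)) : Ω →ₐ[K] Ω).comp φ₁, ?_⟩
  apply RingHom.ext
  intro x
  have h1 : dred L 𝔓 (((δ : Gal(Ω/K)) : Ω →ₐ[K] Ω).comp φ₁) x = Ideal.Quotient.mk 𝔓
      (δ • (NumberField.RingOfIntegers.mapRingHom (φ₁ : L →+* Ω) x)) := rfl
  rw [h1, hδ]
  exact hs0 (Ideal.Quotient.mk P x)

theorem embOrb_ge (L : IntermediateField K Ω) [FiniteDimensional K L] [NumberField L]
    (v : Ideal (𝓞 K)) (hv : v.IsPrime) (hv0 : v ≠ ⊥) (𝔓 : Ideal (𝓞 Ω)) (h𝔓 : 𝔓.IsPrime)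
    (h𝔓v : 𝔓.under (𝓞 K) = v) [Fintype (v.primesOver (𝓞 L))] :
    ∑ P : v.primesOver (𝓞 L), P.1.inertiaDeg (𝓞 K) ≤ embOrb L (𝔓.inertia Gal(Ω/K)) := by
  classical
  have hvm : v.IsMaximal := hv.isMaximal hv0
  have h𝔓l : 𝔓.LiesOver v := ⟨h𝔓v.symm⟩
  have h𝔓m : 𝔓.IsMaximal := Ideal.IsMaximal.of_liesOver_isMaximal 𝔓 v
  have hPm : ∀ P : v.primesOver (𝓞 L), P.1.IsMaximal := fun P =>
    P.2.1.isMaximal (Ideal.ne_bot_of_mem_primesOver hv0 P.2)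
  have hPl : ∀ P : v.primesOver (𝓞 L), P.1.LiesOver v := fun P => P.2.2
  letI := Ideal.Quotient.field v
  letI := Ideal.Quotient.field 𝔓
  have hfinv : Finite (𝓞 K ⧸ v) := Ideal.finiteQuotientOfFreeOfNeBot _ hv0
  have halg : Algebra.IsAlgebraic (𝓞 K ⧸ v) (𝓞 Ω ⧸ 𝔓) := Algebra.IsIntegral.isAlgebraic
  have hnorm : Normal (𝓞 K ⧸ v) (𝓞 Ω ⧸ 𝔓) := demb_N _ _
  have hfinP : ∀ P : v.primesOver (𝓞 L), Finite (𝓞 L ⧸ P.1) := fun P =>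
    Ideal.finiteQuotientOfFreeOfNeBot P.1 (Ideal.ne_bot_of_mem_primesOver hv0 P.2)
  have hfinR : ∀ P : v.primesOver (𝓞 L), Module.Finite (𝓞 K ⧸ v) (𝓞 L ⧸ P.1) := by
    intro P
    have := hfinP P
    exact Module.Finite.of_finite
  have hcard : ∀ P : v.primesOver (𝓞 L),
      Nat.card ((𝓞 L ⧸ P.1) →ₐ[𝓞 K ⧸ v] (𝓞 Ω ⧸ 𝔓)) = P.1.inertiaDeg (𝓞 K) := by
    intro P
    have := hfinP P
    have := hfinR P
    have := hPm P
    have := hPl P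
    have hPp : P.1.IsPrime := P.2.1
    letI := Ideal.Quotient.field P.1
    rw [Ideal.inertiaDeg_eq_of_isMaximal v P.1]
    have hG : IsGalois (𝓞 K ⧸ v) (𝓞 L ⧸ P.1) := inferInstance
    apply AlgHom.natCard_of_splits (𝓞 K ⧸ v) (𝓞 L ⧸ P.1) (𝓞 Ω ⧸ 𝔓)
    intro x
    have hu : P.1.under (𝓞 K) = 𝔓.under (𝓞 K) := by
      rw [h𝔓v]
      exact (hPl P).over.symm
    obtain ⟨φ₁, hφ₁⟩ := demb_E L 𝔓 P.1 hu
    let g1 : (𝓞 L ⧸ P.1) →ₐ[𝓞 K ⧸ v] (𝓞 Ω ⧸ 𝔓) :=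
      dlift L v 𝔓 P.1 (dred L 𝔓 φ₁) (dred_alg L 𝔓 φ₁) hφ₁
    have h1 : minpoly (𝓞 K ⧸ v) (g1 x) = minpoly (𝓞 K ⧸ v) x :=
      minpoly.algHom_eq g1 g1.toRingHom.injective x
    rw [← h1]
    exact hnorm.splits (g1 x)
  let T := Σ P : v.primesOver (𝓞 L), ((𝓞 L ⧸ P.1) →ₐ[𝓞 K ⧸ v] (𝓞 Ω ⧸ 𝔓))
  let back : T → DRH L 𝔓 := fun t =>
    ⟨(t.2 : (𝓞 L ⧸ t.1.1) →+* (𝓞 Ω ⧸ 𝔓)).comp (Ideal.Quotient.mk t.1.1), fun a => by
      have := hPl t.1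
      exact t.2.commutes (Ideal.Quotient.mk v a)⟩
  have hker : ∀ t : T, RingHom.ker (back t).1 = t.1.1 := by
    rintro ⟨P, g⟩
    have := hPm P
    letI := Ideal.Quotient.field P.1
    ext x
    rw [RingHom.mem_ker]
    show g (Ideal.Quotient.mk P.1 x) = 0 ↔ _
    rw [map_eq_zero_iff g g.toRingHom.injective, Ideal.Quotient.eq_zero_iff_mem]
  have hbi : Function.Injective back := by
    rintro ⟨P, g⟩ ⟨P', g'⟩ h
    have h1 : P = P' := by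
      apply Subtype.ext
      rw [← hker ⟨P, g⟩, ← hker ⟨P', g'⟩, h]
    subst h1
    have h2 : g = g' := by
      ext z
      obtain ⟨x, rfl⟩ := Ideal.Quotient.mk_surjective z
      exact DFunLike.congr_fun (congrArg Subtype.val h) x
    rw [h2]
  let r : (L →ₐ[K] Ω) → (L →ₐ[K] Ω) → Prop := fun φ ψ =>
    ∃ τ ∈ 𝔓.inertia Gal(Ω/K), ((τ : Gal(Ω/K)) : Ω →ₐ[K] Ω).comp φ = ψ
  let toR : (L →ₐ[K] Ω) → DRH L 𝔓 := fun φ => ⟨dred L 𝔓 φ, dred_alg L 𝔓 φ⟩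
  have hwd : ∀ φ ψ, r φ ψ → toR φ = toR ψ := by
    rintro φ ψ ⟨τ, hτ, rfl⟩
    apply Subtype.ext
    apply RingHom.ext
    intro x
    show Ideal.Quotient.mk 𝔓 _ = Ideal.Quotient.mk 𝔓 _
    symm
    rw [Ideal.Quotient.eq]
    exact hτ (NumberField.RingOfIntegers.mapRingHom (φ : L →+* Ω) x)
  let toQ : Quot r → DRH L 𝔓 := Quot.lift toR hwd
  have hsurj : Function.Surjective toQ := by
    intro f
    obtain ⟨φ, hφ⟩ := demb_R L v hv hv0 𝔓 h𝔓 h𝔓v f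
    exact ⟨Quot.mk r φ, Subtype.ext hφ⟩
  have hQfin : Finite (Quot r) := Quot.finite r
  have hRfin : Finite (DRH L 𝔓) := Finite.of_surjective toQ hsurj
  have hTfib : ∀ P : v.primesOver (𝓞 L), Finite ((𝓞 L ⧸ P.1) →ₐ[𝓞 K ⧸ v] (𝓞 Ω ⧸ 𝔓)) := by
    intro P
    have := hfinR P
    have := hPm P
    infer_instance
  calc ∑ P : v.primesOver (𝓞 L), P.1.inertiaDeg (𝓞 K)
      = ∑ P : v.primesOver (𝓞 L), Nat.card ((𝓞 L ⧸ P.1) →ₐ[𝓞 K ⧸ v] (𝓞 Ω ⧸ 𝔓)) :=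
        Finset.sum_congr rfl fun P _ => (hcard P).symm
    _ = Nat.card T := Nat.card_sigma.symm
    _ ≤ Nat.card (DRH L 𝔓) := Nat.card_le_card_of_injective back hbi
    _ ≤ Nat.card (Quot r) := Nat.card_le_card_of_surjective toQ hsurj
    _ = embOrb L (𝔓.inertia Gal(Ω/K)) := rfl

end H38.BG
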