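import Pool.Agent.H38.BG.DEmb
import Pool.Agent.H63.MA.GDisc

/-!
# [H38 BG DLOW] lower bound for the relative discriminant, 80-130 lines (as disc_low in H63/MA/GDisc). File Pool/Agent/H38/BG/DLow.lean

`L ⊆ Ω` finite over `K` of degree `n` (not necessarily Galois), `T` a finite set of primes `v`, `P v` a prime of `𝓞 Ω` over `v`. Then `∏_{v ∈ T} nm v ^ (n - embOrb L (inertia of P v)) ≤ N(different of L/K)`.

Proof (see `disc_low` in `H63/MA/GDisc.lean`). For every prime `Q` of `𝓞 L` over `v`, `Q ^ (e_Q - 1)` divides the different (`gdisc_dvd`). These are powers of different primes (also for different `v`), so `∏_{v ∈ T} ∏_{Q ∣ v} Q ^ (e_Q - 1)` divides the different, and its norm is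
`∏_v nm v ^ (∑_Q f_Q (e_Q - 1))` (`N(Q) = nm v ^ f_Q`), `∑_Q e_Q f_Q = n` (`Ideal.sum_ramification_inertia`), `∑_Q f_Q (e_Q - 1) = n - ∑_Q f_Q ≥ n - embOrb` (`embOrb_ge`). The norm of a divisor of the (nonzero) different is at most the norm of the different.
-/

set_option autoImplicit false

open scoped NumberField Pointwise
open IsDedekindDomain

noncomputable section

namespace H38.BG

open H63.MA H38.ML

variable {K : Type} [Field K] [NumberField K] {Ω : Type} [Field Ω] [Algebra K Ω] [IsAlgClosure K Ω]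

theorem dlow (L : IntermediateField K Ω) [FiniteDimensional K L] [NumberField L]
    (T : Finset (Pl K)) (P : Pl K → Ideal (𝓞 Ω))
    (hP : ∀ v ∈ T, (P v).IsPrime ∧ (P v).under (𝓞 K) = v.asIdeal) :
    ∏ v ∈ T, nm v ^ (Module.finrank K L - embOrb L ((P v).inertia Gal(Ω/K))) ≤
      Ideal.absNorm (differentIdeal (𝓞 K) (𝓞 L)) := by
  classical
  have hfin : ∀ v : Pl K, (v.asIdeal.primesOver (𝓞 L)).Finite := fun v => by
    have := v.isMaximal
    exact IsDedekindDomain.primesOver_finite v.asIdeal (𝓞 L)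
  let W : Pl K → Finset (Ideal (𝓞 L)) := fun v => (hfin v).toFinset
  have hW : ∀ v Q, Q ∈ W v ↔ Q.IsPrime ∧ Q.LiesOver v.asIdeal := fun v Q => by
    simp only [W, Set.Finite.mem_toFinset]
    rfl
  have hWbot : ∀ v, ∀ Q ∈ W v, Q ≠ ⊥ := by
    rintro v Q hQ rfl
    have h1 := ((hW v _).1 hQ).2.over
    rw [Ideal.under_bot] at h1
    exact v.ne_bot h1
  have hWmax : ∀ v, ∀ Q ∈ W v, Q.IsMaximal := fun v Q hQ =>
    ((hW v Q).1 hQ).1.isMaximal (hWbot v Q hQ)
  have hWdisj : ∀ v ∈ T, ∀ v' ∈ T, v ≠ v' → Disjoint (W v) (W v') := by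
    intro v _ v' _ hne
    rw [Finset.disjoint_left]
    intro Q hQ hQ'
    apply hne
    apply IsDedekindDomain.HeightOneSpectrum.ext
    rw [((hW v Q).1 hQ).2.over, ((hW v' Q).1 hQ').2.over]
  -- the product divides the different
  have hdvd : ∏ Q ∈ T.biUnion W, Q ^ (Q.ramificationIdx (𝓞 K) - 1) ∣
      differentIdeal (𝓞 K) (𝓞 L) := by
    apply Finset.prod_dvd_of_coprime
    · intro Q hQ Q' hQ' hne
      rw [Finset.mem_coe, Finset.mem_biUnion] at hQ hQ'
      obtain ⟨v, -, hv⟩ := hQ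
      obtain ⟨v', -, hv'⟩ := hQ'
      have h1 := hWmax v Q hv
      have h2 := hWmax v' Q' hv'
      exact (Ideal.isCoprime_of_isMaximal hne).pow
    · intro Q hQ
      rw [Finset.mem_biUnion] at hQ
      obtain ⟨v, -, hv⟩ := hQ
      exact gdisc_dvd K L v Q ((hW v Q).1 hv).1 ((hW v Q).1 hv).2
  have hne := H38.ML.different_ne K L
  have hpos : 0 < Ideal.absNorm (differentIdeal (𝓞 K) (𝓞 L)) :=
    Nat.pos_of_ne_zero fun h => hne (Ideal.absNorm_eq_zero_iff.1 h)
  refine le_trans ?_ (Nat.le_of_dvd hpos (map_dvd Ideal.absNorm hdvd))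
  rw [map_prod, Finset.prod_biUnion hWdisj]
  refine Finset.prod_le_prod' fun v hv => ?_
  obtain ⟨hPp, hPv⟩ := hP v hv
  have hvm : v.asIdeal.IsMaximal := v.isMaximal
  have hN : 1 ≤ nm v := (one_lt_nm v).le
  have h1 : ∀ Q ∈ W v, Ideal.absNorm (Q ^ (Q.ramificationIdx (𝓞 K) - 1)) =
      nm v ^ (Q.inertiaDeg (𝓞 K) * (Q.ramificationIdx (𝓞 K) - 1)) := by
    intro Q hQ
    have hQ1 := ((hW v Q).1 hQ).1
    have hQ2 := ((hW v Q).1 hQ).2
    unfold nm
    rw [map_pow, pow_mul, Ideal.absNorm_pow_inertiaDeg v.asIdeal Q]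
  rw [Finset.prod_congr rfl h1, Finset.prod_pow_eq_pow_sum]
  apply Nat.pow_le_pow_right hN
  -- the sum formula
  have hft : Fintype (v.asIdeal.primesOver (𝓞 L)) := (hfin v).fintype
  have h2 : Module.finrank (𝓞 K) (𝓞 L) = Module.finrank K L :=
    (IsFractionRing.finrank_eq (𝓞 K) K (𝓞 L) L).symm
  have h3 : ∑ Q ∈ W v, Q.ramificationIdx (𝓞 K) * Q.inertiaDeg (𝓞 K) = Module.finrank K L := by
    rw [← h2, ← Ideal.sum_ramification_inertia_eq_finrank v.asIdeal,
      Finset.sum_set_coe (v.asIdeal.primesOver (𝓞 L))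
        (f := fun Q => Q.ramificationIdx (𝓞 K) * Q.inertiaDeg (𝓞 K))]
    apply Finset.sum_congr _ fun _ _ => rfl
    ext Q
    rw [Set.mem_toFinset, Set.Finite.mem_toFinset]
  have h4 : ∑ Q ∈ W v, Q.inertiaDeg (𝓞 K) ≤ H38.ML.embOrb L ((P v).inertia Gal(Ω/K)) := by
    refine le_trans (le_of_eq ?_) (embOrb_ge L v.asIdeal v.isPrime v.ne_bot (P v) hPp hPv)
    rw [Finset.sum_set_coe (v.asIdeal.primesOver (𝓞 L)) (f := fun Q => Q.inertiaDeg (𝓞 K))]
    apply Finset.sum_congr _ fun _ _ => rfl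
    ext Q
    rw [Set.mem_toFinset, Set.Finite.mem_toFinset]
  have h6 : Module.finrank K L ≤ ∑ Q ∈ W v, Q.inertiaDeg (𝓞 K) * (Q.ramificationIdx (𝓞 K) - 1) +
      ∑ Q ∈ W v, Q.inertiaDeg (𝓞 K) := by
    rw [← h3, ← Finset.sum_add_distrib]
    refine Finset.sum_le_sum fun Q hQ => ?_
    calc Q.ramificationIdx (𝓞 K) * Q.inertiaDeg (𝓞 K)
        ≤ ((Q.ramificationIdx (𝓞 K) - 1) + 1) * Q.inertiaDeg (𝓞 K) :=
          Nat.mul_le_mul_right _ (by omega)
      _ = _ := by ring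
  omega

end H38.BG
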