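import Pool.Agent.H38.BG.TDef
import Pool.Agent.H63.MA.GSmall

/-!
# [H38 BG DRHO] small fields come from homomorphisms, 70-110 lines (as small_rho in H63/MA/GSmall). File Pool/Agent/H38/BG/DRho.lean

`G` any transitive group on `Fin n`. `dsm_rho`: every small `G`-field `L` is `fieldOf i₀ ρ` for a surjective `ρ : Γ → G` of finite type.

Proof as `small_rho` (`H63/MA/GSmall.lean`): the numbering `e` gives `ρ₁ σ = gsmallPerm L e σ ∈ G`, surjective. `σ ∈ L.fixingSubgroup` iff `ρ₁ σ` fixes `j = e L.val`. Choose `g ∈ G` with `g j = i₀` (transitive) and put `ρ σ = g ρ₁ σ g⁻¹`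
(or replace `e` by `g ∘ e`); then `L.fixingSubgroup = (stabilizer i₀).comap ρ`. Finite type: `ρ₁ σ = 1` if `σ` fixes all embeddings, in particular if `σ` fixes the normal closure of `L` (finite over `K`) pointwise. `L = fixedField L.fixingSubgroup = fieldOf i₀ ρ` as in `small_rho`.
-/

set_option autoImplicit false

open scoped NumberField
open IsDedekindDomain H38.ML

noncomputable section

namespace H38.BG

open H63.MA

theorem dsm_rho {n : ℕ} (hn : 2 ≤ n) (G : Subgroup (Equiv.Perm (Fin n)))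
    (hG : MulAction.IsPretransitive G (Fin n)) (K : IntermediateField ℚ QBar) [NumberField K]
    (i₀ : Fin n) (L : IntermediateField K QBar) (hL : Spec.IsSmall K QBar G L) :
    ∃ ρ : Gal(QBar/K) →* G, Function.Surjective ρ ∧ FT ρ ∧ L = fieldOf i₀ ρ := by
  have hgal : IsGalois K QBar := IsAlgClosure.isGalois K QBar
  obtain ⟨hr, e, he⟩ := hL
  have hfin : FiniteDimensional K L := Module.finite_of_finrank_pos (by omega)
  have hmem : ∀ σ : Gal(QBar/K), gsmallPerm L e σ ∈ G := fun σ =>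
    (he _).2 ⟨σ, fun φ => gsmallPerm_apply L e σ φ⟩
  have hmul : ∀ σ τ : Gal(QBar/K),
      gsmallPerm L e (σ * τ) = gsmallPerm L e σ * gsmallPerm L e τ := by
    intro σ τ
    apply Equiv.ext
    intro i
    obtain ⟨φ, rfl⟩ := e.surjective i
    rw [Equiv.Perm.mul_apply, gsmallPerm_apply, gsmallPerm_apply, gsmallPerm_apply, gsmall_comp]
  let ρ₁ : Gal(QBar/K) →* G := MonoidHom.mk' (fun σ => ⟨gsmallPerm L e σ, hmem σ⟩)
    (fun σ τ => Subtype.ext (hmul σ τ))
  have hρ₁ : ∀ σ, ((ρ₁ σ : G) : Equiv.Perm (Fin n)) = gsmallPerm L e σ := fun σ => rfl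
  obtain ⟨g, hg⟩ := hG.exists_smul_eq (e L.val) i₀
  let ρ : Gal(QBar/K) →* G := (MulAut.conj g).toMonoidHom.comp ρ₁
  have hρ : ∀ σ, ρ σ = g * ρ₁ σ * g⁻¹ := fun σ => rfl
  have hfix : L.fixingSubgroup = (MulAction.stabilizer G i₀).comap ρ := by
    ext σ
    rw [Subgroup.mem_comap, MulAction.mem_stabilizer_iff, hρ, ← hg]
    have h0 : (g * ρ₁ σ * g⁻¹) • g • e L.val = g • ρ₁ σ • e L.val := by
      rw [smul_smul, inv_mul_cancel_right, mul_smul]
    rw [h0, smul_left_cancel_iff]
    have h1 : ρ₁ σ • (e L.val) = e (((σ : Gal(QBar/K)) : QBar →ₐ[K] QBar).comp L.val) :=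
      gsmallPerm_apply L e σ L.val
    rw [h1, EmbeddingLike.apply_eq_iff_eq]
    have h2 := small_comp_val_eq_iff L σ 1
    rw [gsmall_comp_one, inv_one, one_mul] at h2
    exact h2.symm
  refine ⟨ρ, ?_, ?_, ?_⟩
  · have hs1 : Function.Surjective ρ₁ := by
      rintro ⟨π, hπ⟩
      obtain ⟨σ, hσ⟩ := (he π).1 hπ
      refine ⟨σ, Subtype.ext ?_⟩
      apply Equiv.ext
      intro i
      obtain ⟨φ, rfl⟩ := e.surjective i
      rw [hρ₁, gsmallPerm_apply, hσ]
    exact (MulAut.conj g).surjective.comp hs1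
  · refine ⟨IntermediateField.normalClosure K L QBar, inferInstance, ?_⟩
    intro σ hσ
    rw [MonoidHom.mem_ker, hρ]
    have h3 : ρ₁ σ = 1 := by
      apply Subtype.ext
      apply Equiv.ext
      intro i
      obtain ⟨φ, rfl⟩ := e.surjective i
      rw [hρ₁, gsmallPerm_apply]
      have h4 : ((σ : Gal(QBar/K)) : QBar →ₐ[K] QBar).comp φ = φ := by
        ext x
        exact (IntermediateField.mem_fixingSubgroup_iff _ _).1 hσ (φ x)
          (AlgHom.fieldRange_le_normalClosure φ ⟨x, rfl⟩)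
      rw [h4]
      rfl
    rw [h3, mul_one, mul_inv_cancel]
  · unfold fieldOf
    rw [← hfix]
    exact (InfiniteGalois.fixedField_fixingSubgroup L).symm

end H38.BG
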