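import Pool.Agent.H38.BG.TCyc
import Pool.Agent.H63.MA.GFrob

/-!
# [H38 BG TTAM] inertia with image of exponent `p`, 60-100 lines. File Pool/Agent/H38/BG/TTam.lean

`L : LD p ζ Ω v π`, `v ∤ p`, `ord v π = 1`, `φ : Γ → G` of finite type, `G` ANY finite group, `φ τ ^ p = 1` for all `τ` in the inertia group `I` of `P` (`v` may divide the order of `G`).

`tm`: `φ τ = φ t ^ (kk π τ).val` for `τ ∈ I`.
Proof. Let `ψ = (kc π, φ) : Γ → Multiplicative (ZMod p) × G`, of finite type (`gtame_ft_prod`, `(kc_is hp hζ π).1`). All elements of `ψ(I)` have `p`-th power `1`, so `ψ(I)` is a `p`-group, its order is a power of `p` (`IsPGroup.iff_card`),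
which is not in `v` (`v` is prime and `p ∉ v`: `Above`). By `cyc` (for `ψ`, `P = L.P`) `ψ(I)` is contained in the group generated by some `ψ τ₀`, `τ₀ ∈ I`, a group of order `1` or `p` because `ψ τ₀ ^ p = 1`. `ψ t` has first component `kk π t = ord v π = 1`
(`ld_kk_t`) in `ZMod p`, so `ψ t ≠ 1` and `ψ t` generates this group. So for `τ ∈ I`, `ψ τ = (ψ t)^j` for an integer `j`, the first component gives `kk π τ = j` in `ZMod p`, and the second `φ τ = (φ t)^j = (φ t)^{(kk π τ).val}` because `(φ t)^p = 1`.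

`tm_z`: for `v ∉ S0` and `L : LDs D Ω`: the same with the notation `inr`, `L.t v`, `D.pi v` (`D.above`, `D.pi_self`; `LDs.t`, `inr` by `dif_pos`).
-/

set_option autoImplicit false

open scoped NumberField Pointwise
open IsDedekindDomain

noncomputable section

namespace H38.BG

open H63.MA H38.BB

variable {K : Type} [Field K] [NumberField K] {Ω : Type} [Field Ω] [Algebra K Ω] [IsAlgClosure K Ω]
  {p : ℕ} {ζ : K}

theorem tm (hp : p.Prime) (hζ : IsPrimitiveRoot ζ p) {v : Pl K} (hv : ¬ Above p v) {π : Kˣ}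
    (hπ : ord v π = 1) (L : LD p ζ Ω v π) {G : Type} [Group G] [Finite G]
    (φ : Gal(Ω/K) →* G) (hφ : H38.ML.FT φ) (he : ∀ τ ∈ L.P.inertia Gal(Ω/K), φ τ ^ p = 1)
    (τ : Gal(Ω/K)) (hτ : τ ∈ L.P.inertia Gal(Ω/K)) : φ τ = φ L.t ^ (kk p ζ π τ).val := by
  have hp0 : NeZero p := ⟨hp.ne_zero⟩
  have hpf : Fact p.Prime := ⟨hp⟩
  have : Finite (Multiplicative (ZMod p)) := inferInstanceAs (Finite (ZMod p))
  set ψ : Gal(Ω/K) →* Multiplicative (ZMod p) × G := (kc p ζ Ω π).prod φ with hψ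
  have hft : H38.ML.FT ψ := gtame_ft_prod _ _ (kc_is hp hζ π).1 hφ
  have hkp : ∀ x : Multiplicative (ZMod p), x ^ p = 1 := by
    intro x
    apply Multiplicative.toAdd.injective
    rw [toAdd_pow, toAdd_one, nsmul_eq_mul, ZMod.natCast_self, zero_mul]
  have hpow : ∀ σ ∈ L.P.inertia Gal(Ω/K), ψ σ ^ p = 1 := by
    intro σ hσ
    have h1 : ψ σ = (kc p ζ Ω π σ, φ σ) := rfl
    rw [h1, Prod.pow_mk, hkp, he σ hσ]
    rfl
  have hpg : IsPGroup p ((L.P.inertia Gal(Ω/K)).map ψ) := by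
    rintro ⟨x, hx⟩
    obtain ⟨σ, hσ, rfl⟩ := Subgroup.mem_map.1 hx
    refine ⟨1, Subtype.ext ?_⟩
    rw [pow_one]
    exact hpow σ hσ
  obtain ⟨n, hn⟩ := IsPGroup.iff_card.1 hpg
  have hc : ((Nat.card ((L.P.inertia Gal(Ω/K)).map ψ) : ℕ) : 𝓞 K) ∉ v.asIdeal := by
    rw [hn, Nat.cast_pow]
    intro h
    exact hv (v.isPrime.mem_of_pow_mem n h)
  obtain ⟨τ₀, hτ₀, hcyc⟩ := cyc v L.P L.prime L.under ψ hft hc
  have hpt := hpow τ₀ hτ₀
  have ht1 : kk p ζ π L.t = 1 := by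
    have := kk_of_root hp hζ π L.w L.hw L.t 1 (by rw [zpow_one]; exact L.act)
    rw [this, Int.cast_one]
  have hne : ψ L.t ≠ 1 := by
    intro h
    have h1 : kc p ζ Ω π L.t = 1 := congrArg Prod.fst h
    have h2 : kk p ζ π L.t = 0 := by
      unfold kk
      rw [h1, toAdd_one]
    rw [ht1] at h2
    exact one_ne_zero h2
  have hle : Subgroup.zpowers (ψ L.t) ≤ Subgroup.zpowers (ψ τ₀) :=
    (Subgroup.zpowers_le).2 (hcyc L.t L.ht)
  have heq : Subgroup.zpowers (ψ L.t) = Subgroup.zpowers (ψ τ₀) := by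
    apply Subgroup.eq_of_le_of_card_ge hle
    rw [Nat.card_zpowers, Nat.card_zpowers]
    have h1 : orderOf (ψ L.t) = p := orderOf_eq_prime (hpow L.t L.ht) hne
    have h2 : orderOf (ψ τ₀) ∣ p := orderOf_dvd_of_pow_eq_one hpt
    rw [h1]
    exact Nat.le_of_dvd hp.pos h2
  have hτz := hcyc τ hτ
  rw [← heq] at hτz
  obtain ⟨j, hj⟩ := Subgroup.mem_zpowers_iff.1 hτz
  have hj1 : kc p ζ Ω π L.t ^ j = kc p ζ Ω π τ := congrArg Prod.fst hj
  have hj2 : φ L.t ^ j = φ τ := congrArg Prod.snd hj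
  have hkj : kk p ζ π τ = (j : ZMod p) := by
    have h1 : kk p ζ π τ = j • kk p ζ π L.t := by
      unfold kk
      rw [← hj1, toAdd_zpow]
    rw [h1, ht1, zsmul_eq_mul, mul_one]
  have hdvd : (p : ℤ) ∣ j - ((kk p ζ π τ).val : ℤ) := by
    rw [← ZMod.intCast_zmod_eq_zero_iff_dvd, Int.cast_sub, Int.cast_natCast, ZMod.natCast_zmod_val,
      hkj, sub_self]
  obtain ⟨m, hm⟩ := hdvd
  have hj3 : j = ((kk p ζ π τ).val : ℤ) + p * m := by
    rw [← hm]
    ring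
  rw [← hj2, hj3, zpow_add, zpow_natCast, zpow_mul, zpow_natCast, he L.t L.ht, one_zpow, mul_one]

theorem tm_z (hp : p.Prime) (hζ : IsPrimitiveRoot ζ p) {D : RD0 K p ζ} (L : LDs D Ω)
    {G : Type} [Group G] [Finite G] (φ : Gal(Ω/K) →* G) (hφ : H38.ML.FT φ) (v : Pl K)
    (hv : v ∉ D.S0) (he : ∀ τ ∈ inr L v, φ τ ^ p = 1) (τ : Gal(Ω/K)) (hτ : τ ∈ inr L v) :
    φ τ = φ (L.t v) ^ (kk p ζ (D.pi v) τ).val := by
  have h1 : inr L v = (L.ld v hv).P.inertia Gal(Ω/K) := by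
    unfold inr
    rw [dif_pos hv]
  have h2 : L.t v = (L.ld v hv).t := by
    unfold LDs.t
    rw [dif_pos hv]
  rw [h1] at he hτ
  rw [h2]
  exact tm hp hζ (fun h => hv (D.above v h)) (D.pi_self v hv) (L.ld v hv) φ hφ he τ hτ

end H38.BG
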