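import Pool.Agent.H38.BG.TTam

/-!
# [H38 BG TFROB] a Frobenius element commuting with inertia, 50-90 lines (copy of GFrob). File Pool/Agent/H38/BG/TFrob.lean

`tfrob`: as `H63.MA.ld_frob` (file Pool/Agent/H63/MA/GFrob.lean, copy its proof), but `G` is any finite group and `φ τ ^ p = 1` for all `τ` in the inertia group `I` of `P`; instead of `ld_tame` use `tm`: if `τ ∈ I` and `kk π τ = 0` (this
follows from `τ w = w`) then `φ τ = (φ t)^0 = 1`.

Proof (as in GFrob). `gfrob_ex` gives `F` with `F x ≡ x^{nm v} mod P` for all `x ∈ 𝓞 Ω`. `F w = ζ^j w` for some `j`; replace `F` by `t^{-j} F`: then `F w = w`, and still `F x ≡ x^{nm v} mod P` because `t` is in the inertia group.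
`kk (a k) F = lgv v π (a k)` by `gfrob_unit` for `u = a k * π^{-ord v (a k)}` (`kk π F = 0` because `F w = w`). `F` maps `P` to `P` (from the congruence, as in GFrob), so `F t F⁻¹ ∈ I` and `δ = F t F⁻¹ t⁻¹ ∈ I`, `kk π δ = 0`
(`kc π` is a homomorphism to a commutative group), so `φ δ = 1` by `tm`, i.e. `φ F` and `φ t` commute.

`tfrob_z`: the same for `L : LDs D Ω`, `v ∉ S0`, in the notation `inr`, `L.t v`, `D.LL v` (`lgv p ζ v (D.pi v) = D.LL v` by definition).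
-/

set_option autoImplicit false

open scoped NumberField Pointwise
open IsDedekindDomain

noncomputable section

namespace H38.BG

open H63.MA H38.BB

variable {K : Type} [Field K] [NumberField K] {Ω : Type} [Field Ω] [Algebra K Ω] [IsAlgClosure K Ω]
  {p : ℕ} {ζ : K}

theorem tfrob (hp : p.Prime) (hζ : IsPrimitiveRoot ζ p) {v : Pl K} (hv : ¬ Above p v) {π : Kˣ}
    (hπ : ord v π = 1) (L : LD p ζ Ω v π) {G : Type} [Group G] [Finite G]
    (φ : Gal(Ω/K) →* G) (hφ : H38.ML.FT φ) (he : ∀ τ ∈ L.P.inertia Gal(Ω/K), φ τ ^ p = 1)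
    {m : ℕ} (a : Fin m → Kˣ) :
    ∃ F : Gal(Ω/K), F L.w = L.w ∧ φ F * φ L.t = φ L.t * φ F ∧
      ∀ k, kk p ζ (a k) F = lgv p ζ v π (a k) := by
  have : NeZero p := ⟨hp.ne_zero⟩
  obtain ⟨F0, hF0⟩ := gfrob_ex L.P L.prime L.under
  set j : ℕ := (kk p ζ π F0).val with hj
  have ht1 : kk p ζ π L.t = 1 := by
    have := kk_of_root hp hζ π L.w L.hw L.t 1 (by rw [zpow_one]; exact L.act)
    rw [this, Int.cast_one]
  have htj : (L.t ^ j)⁻¹ ∈ L.P.inertia Gal(Ω/K) := inv_mem (pow_mem L.ht j)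
  set F : Gal(Ω/K) := (L.t ^ j)⁻¹ * F0 with hFdef
  have hF : ∀ x : 𝓞 Ω, F • x - x ^ nm v ∈ L.P := by
    intro x
    have h1 : F • x - x ^ nm v = ((L.t ^ j)⁻¹ • (F0 • x) - F0 • x) + (F0 • x - x ^ nm v) := by
      rw [hFdef, mul_smul]
      ring
    rw [h1]
    exact L.P.add_mem (htj (F0 • x)) (hF0 x)
  have hkkF : kk p ζ π F = 0 := by
    have h1 : kk p ζ π F = -(j * kk p ζ π L.t) + kk p ζ π F0 := by
      unfold kk
      rw [hFdef, map_mul, map_inv, map_pow, toAdd_mul, toAdd_inv, toAdd_pow, nsmul_eq_mul]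
    rw [h1, ht1, mul_one, hj, ZMod.natCast_zmod_val, neg_add_cancel]
  have hFw : F L.w = L.w := by
    have h1 := kk_root hp hζ π L.w L.hw F
    rw [hkkF, ZMod.val_zero, pow_zero, one_mul] at h1
    exact h1
  have hnm : 0 < nm v := lt_trans Nat.zero_lt_one (one_lt_nm v)
  have hFP : ∀ y ∈ L.P, F • y ∈ L.P := by
    intro y hy
    have h1 := L.P.add_mem (hF y) (L.P.pow_mem_of_mem hy (nm v) hnm)
    rwa [sub_add_cancel] at h1
  have hconj : F * L.t * F⁻¹ ∈ L.P.inertia Gal(Ω/K) := by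
    intro x
    have h1 : (F * L.t * F⁻¹) • x - x = F • (L.t • (F⁻¹ • x) - F⁻¹ • x) := by
      rw [smul_sub, mul_smul, mul_smul, smul_inv_smul]
    rw [h1]
    exact hFP _ (L.ht (F⁻¹ • x))
  have hδ : F * L.t * F⁻¹ * L.t⁻¹ ∈ L.P.inertia Gal(Ω/K) := mul_mem hconj (inv_mem L.ht)
  have hFinv : F⁻¹ L.w = L.w := by
    have h1 : F⁻¹ (F L.w) = L.w := AlgEquiv.symm_apply_apply F L.w
    rwa [hFw] at h1
  have htinv : L.t⁻¹ L.w = algebraMap K Ω ζ⁻¹ * L.w := by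
    have hζ0 : ζ ≠ 0 := hζ.ne_zero hp.ne_zero
    have h1 : L.t⁻¹ (L.t L.w) = L.w := AlgEquiv.symm_apply_apply L.t L.w
    rw [L.act, map_mul, AlgEquiv.commutes] at h1
    have h2 : algebraMap K Ω ζ ≠ 0 := (map_ne_zero _).2 hζ0
    rw [map_inv₀, eq_inv_mul_iff_mul_eq₀ h2]
    exact h1
  have hδw : (F * L.t * F⁻¹ * L.t⁻¹) L.w = L.w := by
    have hζ0 : ζ ≠ 0 := hζ.ne_zero hp.ne_zero
    show F (L.t (F⁻¹ (L.t⁻¹ L.w))) = L.w
    rw [htinv, map_mul F⁻¹, AlgEquiv.commutes F⁻¹, hFinv, map_mul L.t, AlgEquiv.commutes L.t,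
      L.act, ← mul_assoc, ← map_mul (algebraMap K Ω), inv_mul_cancel₀ hζ0, map_one, one_mul, hFw]
  have hkδ : kk p ζ π (F * L.t * F⁻¹ * L.t⁻¹) = 0 := by
    have h1 := kk_of_root hp hζ π L.w L.hw (F * L.t * F⁻¹ * L.t⁻¹) 0
      (by rw [zpow_zero, one_mul]; exact hδw)
    rw [h1, Int.cast_zero]
  have hφδ := tm hp hζ hv hπ L φ hφ he _ hδ
  rw [hkδ, ZMod.val_zero, pow_zero] at hφδ
  refine ⟨F, hFw, ?_, ?_⟩
  · rw [map_mul, map_mul, map_mul, map_inv, map_inv] at hφδ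
    have h1 := mul_inv_eq_one.1 hφδ
    rw [mul_inv_eq_iff_eq_mul] at h1
    exact h1
  · intro k
    unfold lgv
    rw [← gfrob_unit hp hζ hv L.P L.prime L.under F hF (a k * π ^ (-ord v (a k))) (by
      rw [ord_mul, ord_zpow, hπ]
      ring), kk_mul_arg hp hζ, kk_zpow_arg hp hζ, hkkF, mul_zero, add_zero]

theorem tfrob_z (hp : p.Prime) (hζ : IsPrimitiveRoot ζ p) {D : RD0 K p ζ} (L : LDs D Ω)
    {G : Type} [Group G] [Finite G] (φ : Gal(Ω/K) →* G) (hφ : H38.ML.FT φ) (v : Pl K)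
    (hv : v ∉ D.S0) (he : ∀ τ ∈ inr L v, φ τ ^ p = 1) {m : ℕ} (a : Fin m → Kˣ) :
    ∃ F : Gal(Ω/K), φ F * φ (L.t v) = φ (L.t v) * φ F ∧
      ∀ k, kk p ζ (a k) F = D.LL v (a k) := by
  have hv' : D.LL v = lgv p ζ v (D.pi v) := rfl
  have ht : L.t v = (L.ld v hv).t := dif_pos hv
  have hi : inr L v = (L.ld v hv).P.inertia Gal(Ω/K) := dif_pos hv
  rw [hi] at he
  obtain ⟨F, _, h2, h3⟩ := tfrob hp hζ (fun h => hv (D.above v h)) (D.pi_self v hv) (L.ld v hv) φ hφ he a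
  refine ⟨F, ?_, ?_⟩
  · rw [ht]
    exact h2
  · intro k
    exact h3 k

end H38.BG
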