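import Pool.Agent.H38.BG.LHom
import Pool.Agent.H38.BG.LTw
import Pool.Agent.H38.BG.TTam

/-!
# [H38 BG LLOWA] many homomorphisms with given ramification, 150-230 lines (as lowa in H63/MA/GLowA). File Pool/Agent/H38/BG/LLowA.lean

`φ₀` surjective, of finite type, unramified outside `S0`, `π (φ₀ σ) = (kk (b j) σ)_j` (`LH`), `b^θ` not a `p`-th power for `θ ≠ 0`; `f` pairwise disjoint, `qf (f i) = 0`, and the weight `wtR` of `f` is nonzero. Then there is a finite set `Rs` of surjective homomorphisms of finite type, at least `wtR` of them, with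
`φ (t v)` conjugate to `g i` for `v ∈ f i`, `φ τ` a power of `φ (t v)` for `τ ∈ inr L v`, `v ∈ f i`, and `φ τ = 1` for `τ ∈ inr L v` for the other `v ∉ S0`.

Proof. (0) `wtR ≠ 0`: for `v ∈ f i`, `dt θ (LL v (akR j))_j = 0` for all `θ ∈ Θ i`, so `bl β (LL v (akR j))_j (y i) = 0` (`Dg.ann`; `Dg.cr.Θ = Dg.Θ`), and `wtR = ∏_i #(Θ i)^{#(f i)} = ∏_i #{h conjugate to g i}^{#(f i)}` (`Dg.card`; compare `lowa_wt`). `lhom` gives `φ₁`, `l₁` of form (F).
(1) For a choice `ch i v` (`v ∈ f i`) of an element conjugate to `g i`, write it as `e (c i v) (y i)` (`gt_conj`). Let `s v = c i v - l₁ (t v)` for `v ∈ f i` (`Dj f`: at most one `i`), `s v = - l₁ (t v)` for the other `v ∉ S0` and `0` for `v ∈ S0`. `s v ≠ 0` only for finitely many `v`: outside `⋃ f i`, `φ₁ (t v) = e (l₁ (t v)) 0` (`lhom_t`), which is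
`1` for all but finitely many `v ∉ S0` (`ram_finite` in GTw), and then `l₁ (t v) = 0` (`gt_e0`, `Dg.inj`). `ltw` gives `φ = e (l σ) 0 * φ₁ σ` with `l (t v) = s v`, of form (F) with `l + l₁` (`gt_mul0`). `lhom_t`: `φ (t v) = e (s v + l₁ (t v)) (y i) = ch i v` for `v ∈ f i`, and `= e 0 0 = 1` for the other `v ∉ S0`.
(2) `lhom_exp` and `tm_z`: `φ τ = φ (t v) ^ (kk (pi v) τ).val` for `τ ∈ inr L v`, `v ∉ S0`: a power of `φ (t v)`; `1` if `φ (t v) = 1`. (3) surjective: `lhom_sur`. (4) Different choices give different `φ` (`φ (t v) = ch i v`), so `Rs` = the image of the finite set of all choices (`Fintype.piFinset` or the `Fintype`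
`(i : Fin N) → f i → {h : G // IsConj h (g i)}` as in `lowa`, `lowaS`) has `∏_i #(class)^{#(f i)} = wtR` elements.
-/

set_option autoImplicit false

open scoped NumberField
open IsDedekindDomain
open scoped Classical

noncomputable section

namespace H38.BG

open H63.MA H38.BB

variable {K : Type} [Field K] [NumberField K] {Ω : Type} [Field Ω] [Algebra K Ω] [IsAlgClosure K Ω]
  {p : ℕ} {ζ : K} {m u w N : ℕ}

/-- the weight is at most the number of the choices -/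
private theorem llowa_wt (c : CR p m N) (f : Fin N → Finset (Pl K)) (F : Pl K → Fin m → ZMod p)
    (C : Fin N → ℕ) (hC : ∀ i, Nat.card (c.Θ i) = C i) :
    wtR c f F ≤ ((∏ i, C i ^ (f i).card : ℕ) : ℝ) := by
  unfold wtR
  push_cast
  refine Finset.prod_le_prod (fun i _ => Finset.prod_nonneg fun v _ => ?_) fun i _ => ?_
  · split_ifs
    · exact Nat.cast_nonneg _
    · exact le_rfl
  · rw [← Finset.prod_const]
    refine Finset.prod_le_prod (fun v _ => ?_) fun v _ => ?_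
    · split_ifs
      · exact Nat.cast_nonneg _
      · exact le_rfl
    · split_ifs
      · rw [hC]
      · exact Nat.cast_nonneg _

/-- the chosen coordinates -/
private def llowaC {W : Type} [Zero W] (f : Fin N → Finset (Pl K))
    (ch : (i : Fin N) → {v // v ∈ f i} → W) (v : Pl K) : W :=
  if h : ∃ i, v ∈ f i then ch h.choose ⟨v, h.choose_spec⟩ else 0

private theorem llowaC_mem {W : Type} [Zero W] (f : Fin N → Finset (Pl K)) (hdj : Dj f)
    (ch : (i : Fin N) → {v // v ∈ f i} → W) (i : Fin N) (v : Pl K) (hv : v ∈ f i) :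
    llowaC f ch v = ch i ⟨v, hv⟩ := by
  have h : ∃ i, v ∈ f i := ⟨i, hv⟩
  unfold llowaC
  rw [dif_pos h]
  have key : ∀ (j : Fin N) (hj : v ∈ f j), ch j ⟨v, hj⟩ = ch i ⟨v, hv⟩ := by
    intro j hj
    have hji : j = i := by
      by_contra hne
      exact Finset.disjoint_left.1 (hdj j i hne) hj hv
    subst hji
    rfl
  exact key _ _

private theorem llowaC_not {W : Type} [Zero W] (f : Fin N → Finset (Pl K))
    (ch : (i : Fin N) → {v // v ∈ f i} → W) (v : Pl K) (hv : ∀ i, v ∉ f i) :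
    llowaC f ch v = 0 := by
  unfold llowaC
  rw [dif_neg]
  rintro ⟨i, hi⟩
  exact hv i hi

/-- one choice of central values -/
private theorem llowa_one (hp : p.Prime) (hζ : IsPrimitiveRoot ζ p) {D : RD0 K p ζ} (L : LDs D Ω)
    {G : Type} [Group G] [Finite G] (Dg : GT p m u w N G) (φ₀ : Gal(Ω/K) →* G) (b : Fin m → Kˣ)
    (f : Fin N → Finset (Pl K)) (hL : LH Dg L φ₀ b f) (φ₁ : Gal(Ω/K) →* G)
    (l₁ : Gal(Ω/K) → Fin w → ZMod p) (hft : H38.ML.FT φ₁) (hF : FF Dg D φ₀ f φ₁ l₁)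
    (c : Pl K → Fin w → ZMod p) (hc : ∀ v, (∀ i, v ∉ f i) → c v = 0) :
    ∃ (φ : Gal(Ω/K) →* G) (l : Gal(Ω/K) → Fin w → ZMod p), H38.ML.FT φ ∧ FF Dg D φ₀ f φ l ∧
      (∀ i, ∀ v ∈ f i, φ (L.t v) = Dg.e (c v) (Dg.y i)) ∧
      ∀ v, v ∉ D.S0 → (∀ i, v ∉ f i) → φ (L.t v) = 1 := by
  have hfin : {v | (if v ∈ D.S0 then (0 : Fin w → ZMod p) else c v - l₁ (L.t v)) ≠ 0}.Finite := by
    refine (((Finset.univ.biUnion f).finite_toSet).union (ram_finite hp D L φ₁ hft)).subset ?_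
    intro v hv
    by_contra h
    rw [Set.mem_union, not_or] at h
    obtain ⟨h1, h2⟩ := h
    have h3 : ∀ i, v ∉ f i := fun i hi =>
      h1 (Finset.mem_coe.2 (Finset.mem_biUnion.2 ⟨i, Finset.mem_univ i, hi⟩))
    apply hv
    by_cases h4 : v ∈ D.S0
    · rw [if_pos h4]
    · rw [if_neg h4, hc v h3, zero_sub, neg_eq_zero]
      have h5 : φ₁ (L.t v) = 1 := by
        by_contra h6
        exact h2 ⟨h4, h6⟩
      rw [(lhom_t hp hζ L Dg φ₀ b f hL φ₁ l₁ hF v h4).2 h3, ← gt_e0 Dg] at h5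
      exact (Dg.inj _ _ _ _ h5).1
  obtain ⟨φ, l, h1, h2, h3⟩ := ltw hp hζ D L Dg φ₁ hft _ hfin
  have hFF : FF Dg D φ₀ f φ (fun σ => l σ + l₁ σ) := by
    intro σ
    rw [h2, hF σ, ← mul_assoc, gt_mul0]
  have h4 : ∀ v, v ∉ D.S0 → l (L.t v) + l₁ (L.t v) = c v := by
    intro v hv
    rw [h3 v hv, if_neg hv, sub_add_cancel]
  refine ⟨φ, _, h1, hFF, ?_, ?_⟩
  · intro i v hv
    have hv0 := hL.out i v hv
    have h5 := (lhom_t hp hζ L Dg φ₀ b f hL φ _ hFF v hv0).1 i hv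
    rw [h5]
    simp only [h4 v hv0]
  · intro v hv hf
    have h5 := (lhom_t hp hζ L Dg φ₀ b f hL φ _ hFF v hv).2 hf
    rw [h5]
    simp only [h4 v hv]
    rw [hc v hf, gt_e0]

theorem llowa (hp : p.Prime) (hp2 : MOne p K) (hζ : IsPrimitiveRoot ζ p) {D : RD0 K p ζ} (L : LDs D Ω)
    {G : Type} [Group G] [Finite G] (Dg : GT p m u w N G) (φ₀ : Gal(Ω/K) →* G) (b : Fin m → Kˣ)
    (f : Fin N → Finset (Pl K)) (hL : LH Dg L φ₀ b f) (hs : Function.Surjective φ₀)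
    (hi : ∀ θ : Fin m → ZMod p, θ ≠ 0 → ¬ IsPow p (bp b θ)) (hq : ∀ i, qf D (f i) = 0)
    (hw : wtR Dg.cr f (fun v k => D.LL v (akR D Dg.cr b f k)) ≠ 0) :
    ∃ Rs : Finset (Gal(Ω/K) →* G),
      wtR Dg.cr f (fun v k => D.LL v (akR D Dg.cr b f k)) ≤ (Rs.card : ℝ) ∧
      ∀ φ ∈ Rs, H38.ML.FT φ ∧ Function.Surjective φ ∧
        (∀ i, ∀ v ∈ f i, IsConj (φ (L.t v)) (Dg.g i) ∧
          ∀ τ ∈ inr L v, φ τ ∈ Subgroup.zpowers (φ (L.t v))) ∧
        ∀ v, v ∉ D.S0 → (∀ i, v ∉ f i) → ∀ τ ∈ inr L v, φ τ = 1 := by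
  have hcond : ∀ i, ∀ v ∈ f i,
      bl Dg.β (fun j => D.LL v (akR D Dg.cr b f j)) (Dg.y i) = 0 := by
    intro i v hv
    unfold wtR at hw
    have h1 := (Finset.prod_ne_zero_iff.1 ((Finset.prod_ne_zero_iff.1 hw) i (Finset.mem_univ i))) v hv
    refine (Dg.ann i _).1 ?_
    by_contra h2
    apply h1
    rw [if_neg]
    exact h2
  obtain ⟨φ₁, l₁, hft, hF⟩ := lhom hp hp2 hζ L Dg φ₀ b f hL hq hcond
  have hco : ∀ (i : Fin N) (h : {h : G // IsConj h (Dg.g i)}), ∃ a : Fin w → ZMod p,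
      h.1 = Dg.e a (Dg.y i) := by
    rintro i ⟨h, hh⟩
    obtain ⟨z, hz⟩ := (gt_conj Dg i h).1 hh
    exact ⟨_, hz⟩
  choose co hco using hco
  have hex : ∀ ch : (i : Fin N) → {v // v ∈ f i} → {h : G // IsConj h (Dg.g i)},
      ∃ (φ : Gal(Ω/K) →* G) (l : Gal(Ω/K) → Fin w → ZMod p), H38.ML.FT φ ∧ FF Dg D φ₀ f φ l ∧
      (∀ i, ∀ v, ∀ hv : v ∈ f i, φ (L.t v) = (ch i ⟨v, hv⟩).1) ∧
      ∀ v, v ∉ D.S0 → (∀ i, v ∉ f i) → φ (L.t v) = 1 := by
    intro ch
    obtain ⟨φ, l, h1, h2, h3, h4⟩ := llowa_one hp hζ L Dg φ₀ b f hL φ₁ l₁ hft hF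
      (llowaC f fun i v => co i (ch i v)) (fun v hv => llowaC_not f _ v hv)
    refine ⟨φ, l, h1, h2, fun i v hv => ?_, h4⟩
    rw [h3 i v hv, llowaC_mem f hL.dj _ i v hv, ← hco]
  choose φ l h1 h2 h3 h4 using hex
  have hinj : Function.Injective φ := by
    intro ch ch' h
    funext i v
    apply Subtype.ext
    have e1 := h3 ch i v.1 v.2
    have e2 := h3 ch' i v.1 v.2
    rw [h, e2] at e1
    exact e1.symm
  have : Fintype G := Fintype.ofFinite G
  refine ⟨Finset.univ.image φ, ?_, ?_⟩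
  · rw [Finset.card_image_of_injective _ hinj, Finset.card_univ, Fintype.card_pi]
    refine (llowa_wt Dg.cr f _ (fun i => Nat.card {h : G // IsConj h (Dg.g i)})
      (fun i => Dg.card i)).trans (le_of_eq ?_)
    congr 1
    refine Finset.prod_congr rfl fun i _ => ?_
    rw [Fintype.card_fun, Nat.card_eq_fintype_card, Fintype.card_coe]
  · intro ψ hψ
    obtain ⟨ch, -, rfl⟩ := Finset.mem_image.1 hψ
    have hz : ∀ v, v ∉ D.S0 → ∀ τ ∈ inr L v,
        φ ch τ = φ ch (L.t v) ^ (kk p ζ (D.pi v) τ).val := fun v hv τ hτ =>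
      tm_z hp hζ L (φ ch) (h1 ch) v hv
        (fun τ' hτ' => lhom_exp hp hζ L Dg φ₀ b f hL (φ ch) (l ch) (h2 ch) v hv τ' hτ') τ hτ
    refine ⟨h1 ch, lhom_sur hp hζ L Dg φ₀ b f hL hs hi (φ ch) (l ch) (h2 ch), ?_, ?_⟩
    · intro i v hv
      refine ⟨?_, fun τ hτ => ?_⟩
      · rw [h3 ch i v hv]
        exact (ch i ⟨v, hv⟩).2
      · rw [hz v (hL.out i v hv) τ hτ]
        exact Subgroup.npow_mem_zpowers _ _
    · intro v hv hf τ hτ
      rw [hz v hv τ hτ, h4 ch v hv hf, one_pow]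

end H38.BG
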