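import Pool.Agent.H38.BG.TDef
import Pool.Agent.H63.MA.GSep

/-!
# [H38 BG PGEN] generation criterion and elementary facts on GT, 120-180 lines. File Pool/Agent/H38/BG/PGen.lean

`Dg : GT p m u w N G`, `p` prime, `G` finite.
* `gt_e0`: `e 0 0 = 1`. `gt_cen`: `e a 0` is central. `gt_mul0`: `e a 0 * e a' x = e (a + a') x`. `gt_com`: `bl n x x' - bl n x' x = bl β (mv ι x) x'`.
* `gt_pow`: `(e a (k • y i))^p = 1` for `k : ZMod p`. Proof: by induction on `r`, `(e a x)^r = e (r • a + (r choose 2) • bl n x x) (r • x)`; `r = p`: `(e a x)^p = e ((p choose 2) • bl n x x) 0`. From `Dg.pow i` and `e 0 0 = 1`: `(p choose 2) • bl n (y i) (y i) = 0`;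
  `bl n (k y) (k y) = k^2 bl n y y`.
* `gt_conj`: `h` is conjugate to `g i` iff `h = e (a i + bl β z (y i)) (y i)` for some `z` (`π` surjective, `Dg.conj`). In particular such an `h` is `e b (y i)` for some `b`.
* `gt_gen`: a subgroup `H` with `π(H)` = everything and such that every `g ∈ G` is `h * e a x` with `h ∈ H` is `⊤`. Proof. Otherwise let `M ≥ H` be a maximal subgroup (coatom, `G` finite: `IsCoatomic`), `M ≠ ⊤`.
  (1) If some `e a 0 ∉ M`: the subgroup `Wg = {e a 0}` is central, so `M ⊔ Wg = ⊤`, every `g` is `m * e a 0`, `M` is normal, and `G ⧸ M` is a quotient of `Wg`: commutative of exponent `p` (`(e a 0)^p = e (p a) 0 = 1`), nontrivial.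
  (2) If all `e a 0 ∈ M`: for `m ∈ M`, `e a x * m * (e a x)⁻¹ = m * (m⁻¹ * e a x * m) * (e a x)⁻¹ = m * e b 0` for some `b` (`Dg.conj`, `mul`), so it is in `M`; as every `g` is `m * e a x` with `m ∈ M`, `M` is normal; `G ⧸ M` is generated by the images of the `e a x`, which commute modulo `M` and have `p`-th power
  `e b 0 ∈ M`: so `G ⧸ M` is commutative of exponent `p`, nontrivial.
  In both cases there is a nontrivial character `χ : G ⧸ M → ZMod p` (`H63.MA.sep_ab` in `H63/MA/GSep.lean`: characters separate the elements of a commutative group of exponent `p`), so `χ : G → ZMod p` is trivial on `M`, nontrivial. But every `g ∈ G` has `π g = π h` with `h ∈ H ≤ M`, so `χ g = χ h = 1` by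
  `Dg.univ` for `g * h⁻¹`. Contradiction.
-/

set_option autoImplicit false

noncomputable section

namespace H38.BG

open H63.MA H38.BB

variable {p m u w N : ℕ} {G : Type} [Group G]

private theorem pgen_bl0 {p m u w : ℕ} (n : Fin w → Fin m → Fin u → ZMod p)
    (y : Fin u → ZMod p) : bl n 0 y = 0 := by
  funext c
  simp [bl]

private theorem pgen_bl1 {p m u w : ℕ} (n : Fin w → Fin m → Fin u → ZMod p)
    (x : Fin m → ZMod p) : bl n x 0 = 0 := by
  funext c
  simp [bl]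

private theorem pgen_bl2 {p m u w : ℕ} (n : Fin w → Fin m → Fin u → ZMod p)
    (x : Fin m → ZMod p) (y : Fin u → ZMod p) (k l : ZMod p) :
    bl n (k • x) (l • y) = (k * l) • bl n x y := by
  funext c
  simp only [bl, Pi.smul_apply, smul_eq_mul, Finset.mul_sum]
  refine Finset.sum_congr rfl fun i _ => Finset.sum_congr rfl fun j _ => ?_
  ring

theorem gt_e0 (Dg : GT p m u w N G) : Dg.e 0 0 = 1 := by
  have h := Dg.mul 0 0 0 0
  simp only [pgen_bl0, add_zero] at h
  exact mul_eq_left.1 h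

theorem gt_cen (Dg : GT p m u w N G) (a : Fin w → ZMod p) (h : G) :
    Dg.e a 0 * h = h * Dg.e a 0 := by
  have h1 := Dg.conj h a 0
  rw [pgen_bl1, add_zero] at h1
  exact (mul_inv_eq_iff_eq_mul.1 h1).symm

theorem gt_mul0 (Dg : GT p m u w N G) (a a' : Fin w → ZMod p) (x : Fin u → ZMod p) :
    Dg.e a 0 * Dg.e a' x = Dg.e (a + a') x := by
  rw [Dg.mul, pgen_bl0, add_zero, zero_add]

theorem gt_com (Dg : GT p m u w N G) (x x' : Fin u → ZMod p) :
    bl Dg.n x x' - bl Dg.n x' x = bl Dg.β (mv Dg.ι x) x' := by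
  have h1 := Dg.conj (Dg.e 0 x) 0 x'
  rw [Dg.pie, toAdd_ofAdd, zero_add, mul_inv_eq_iff_eq_mul, Dg.mul, Dg.mul] at h1
  have h2 := (Dg.inj _ _ _ _ h1).1
  rw [add_zero, add_zero, zero_add] at h2
  rw [h2, add_sub_cancel_right]

private theorem pgen_pow (Dg : GT p m u w N G) (a : Fin w → ZMod p) (x : Fin u → ZMod p)
    (r : ℕ) : Dg.e a x ^ r =
      Dg.e ((r : ZMod p) • a + ((r.choose 2 : ℕ) : ZMod p) • bl Dg.n x x) ((r : ZMod p) • x) := by
  induction r with
  | zero =>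
    rw [pow_zero, Nat.cast_zero, zero_smul, zero_smul, Nat.choose_zero_succ, Nat.cast_zero,
      zero_smul, add_zero, gt_e0]
  | succ r ih =>
    rw [pow_succ, ih, Dg.mul]
    have e1 : bl Dg.n ((r : ZMod p) • x) x = (r : ZMod p) • bl Dg.n x x := by
      have := pgen_bl2 Dg.n x x (r : ZMod p) 1
      rw [one_smul, mul_one] at this
      exact this
    have e2 : (((r + 1).choose 2 : ℕ) : ZMod p) = ((r.choose 2 : ℕ) : ZMod p) + (r : ZMod p) := by
      have h3 : (r + 1).choose 2 = r.choose 1 + r.choose 2 := Nat.choose_succ_succ' r 1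
      rw [h3, Nat.choose_one_right]
      push_cast
      ring
    rw [e1, e2, Nat.cast_add, Nat.cast_one, add_smul, add_smul, add_smul, one_smul, one_smul]
    congr 1
    abel

private theorem pgen_powp (Dg : GT p m u w N G) (a : Fin w → ZMod p) (x : Fin u → ZMod p) :
    Dg.e a x ^ p = Dg.e (((p.choose 2 : ℕ) : ZMod p) • bl Dg.n x x) 0 := by
  rw [pgen_pow, CharP.cast_eq_zero, zero_smul, zero_smul, zero_add]

theorem gt_pow (hp : p.Prime) (Dg : GT p m u w N G) (i : Fin N) (a : Fin w → ZMod p)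
    (k : ZMod p) : Dg.e a (k • Dg.y i) ^ p = 1 := by
  have h1 := Dg.pow i
  rw [pgen_powp, ← gt_e0 Dg] at h1
  have h2 := (Dg.inj _ _ _ _ h1).1
  rw [pgen_powp, pgen_bl2, smul_comm, h2, smul_zero, gt_e0]

theorem gt_conj (Dg : GT p m u w N G) (i : Fin N) (h : G) :
    IsConj h (Dg.g i) ↔ ∃ z : Fin m → ZMod p, h = Dg.e (Dg.a i + bl Dg.β z (Dg.y i)) (Dg.y i) := by
  constructor
  · intro hc
    obtain ⟨c, hc⟩ := isConj_iff.1 hc.symm
    refine ⟨Multiplicative.toAdd (Dg.π c), ?_⟩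
    rw [← Dg.conj c (Dg.a i) (Dg.y i)]
    exact hc.symm
  · rintro ⟨z, hz⟩
    obtain ⟨c, hc⟩ := Dg.sur (Multiplicative.ofAdd z)
    refine (isConj_iff.2 ⟨c, ?_⟩).symm
    have h1 := Dg.conj c (Dg.a i) (Dg.y i)
    rw [hc, toAdd_ofAdd] at h1
    rw [hz, ← h1]
    rfl

private theorem pgen_aux (hp : p.Prime) (Dg : GT p m u w N G) (H M : Subgroup G) (hn : M.Normal)
    (hHM : H ≤ M) (h2 : ∀ z, ∃ h ∈ H, Dg.π h = z)
    (hc : ∀ a b : G ⧸ M, a * b = b * a) (he : ∀ a : G ⧸ M, a ^ p = 1) : M = ⊤ := by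
  let inst : CommGroup (G ⧸ M) := { (inferInstance : Group (G ⧸ M)) with mul_comm := hc }
  rw [eq_top_iff]
  intro g _
  have h3 : (QuotientGroup.mk' M g) = 1 := by
    refine @sep_ab p hp (G ⧸ M) inst he (QuotientGroup.mk' M g) fun χ => ?_
    obtain ⟨h, hh, hg⟩ := h2 (Dg.π g)
    have h4 := Dg.univ (χ.comp (QuotientGroup.mk' M)) (g * h⁻¹) (by
      rw [map_mul, map_inv, hg, mul_inv_cancel])
    have h5 : (QuotientGroup.mk' M) h = 1 := by
      rw [QuotientGroup.mk'_apply, QuotientGroup.eq_one_iff]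
      exact hHM hh
    rw [MonoidHom.comp_apply, map_mul, map_inv, h5, inv_one, mul_one] at h4
    exact h4
  rw [QuotientGroup.mk'_apply, QuotientGroup.eq_one_iff] at h3
  exact h3

theorem gt_gen [Finite G] (hp : p.Prime) (Dg : GT p m u w N G) (H : Subgroup G)
    (h1 : ∀ g, ∃ h ∈ H, ∃ a x, g = h * Dg.e a x)
    (h2 : ∀ z, ∃ h ∈ H, Dg.π h = z) : H = ⊤ := by
  obtain h | ⟨M, hM, hHM⟩ := eq_top_or_exists_le_coatom H
  · exact h
  exfalso
  by_cases hW : ∀ a, Dg.e a 0 ∈ M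
  · have hconj : ∀ a x, ∀ m' ∈ M, Dg.e a x * m' * (Dg.e a x)⁻¹ ∈ M := by
      intro a x m' hm'
      have e1 := Dg.conj m'⁻¹ a x
      rw [inv_inv] at e1
      have e2 : Dg.e a x * m' * (Dg.e a x)⁻¹ =
          m' * (m'⁻¹ * Dg.e a x * m') * (Dg.e a x)⁻¹ := by group
      rw [e2, e1, add_comm a, ← gt_mul0, mul_assoc, mul_assoc, mul_inv_cancel, mul_one]
      exact M.mul_mem hm' (hW _)
    have hn : M.Normal := by
      refine ⟨fun m' hm' g => ?_⟩
      obtain ⟨k, hk, a, x, rfl⟩ := h1 g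
      have e1 : k * Dg.e a x * m' * (k * Dg.e a x)⁻¹ =
          k * (Dg.e a x * m' * (Dg.e a x)⁻¹) * k⁻¹ := by group
      rw [e1]
      exact M.mul_mem (M.mul_mem (hHM hk) (hconj a x m' hm')) (M.inv_mem (hHM hk))
    have hq : ∀ q : G ⧸ M, ∃ a x, q = (Dg.e a x : G ⧸ M) := by
      intro q
      obtain ⟨g, rfl⟩ := QuotientGroup.mk_surjective q
      obtain ⟨k, hk, a, x, rfl⟩ := h1 g
      refine ⟨a, x, ?_⟩
      rw [QuotientGroup.mk_mul, (QuotientGroup.eq_one_iff k).2 (hHM hk), one_mul]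
    refine hM.1 (pgen_aux hp Dg H M hn hHM h2 ?_ ?_)
    · intro q r
      obtain ⟨a, x, rfl⟩ := hq q
      obtain ⟨b, y, rfl⟩ := hq r
      rw [← QuotientGroup.mk_mul, ← QuotientGroup.mk_mul, Dg.mul, Dg.mul]
      have e1 : Dg.e (a + b + bl Dg.n x y) (x + y) =
          Dg.e (bl Dg.n x y - bl Dg.n y x) 0 * Dg.e (b + a + bl Dg.n y x) (y + x) := by
        rw [gt_mul0]
        congr 1
        · abel
        · abel
      rw [e1, QuotientGroup.mk_mul, (QuotientGroup.eq_one_iff _).2 (hW _), one_mul]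
    · intro q
      obtain ⟨a, x, rfl⟩ := hq q
      rw [← QuotientGroup.mk_pow, pgen_powp]
      exact (QuotientGroup.eq_one_iff _).2 (hW _)
  · push Not at hW
    obtain ⟨a₀, ha₀⟩ := hW
    let Wg : Subgroup G :=
      { carrier := {g | ∃ a, g = Dg.e a 0}
        one_mem' := ⟨0, (gt_e0 Dg).symm⟩
        mul_mem' := by
          rintro _ _ ⟨a, rfl⟩ ⟨b, rfl⟩
          exact ⟨a + b, gt_mul0 Dg a b 0⟩
        inv_mem' := by
          rintro _ ⟨a, rfl⟩
          refine ⟨-a, inv_eq_of_mul_eq_one_right ?_⟩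
          rw [gt_mul0, add_neg_cancel, gt_e0] }
    have hWn : Wg.Normal := by
      refine ⟨?_⟩
      rintro _ ⟨a, rfl⟩ g
      refine ⟨a, ?_⟩
      rw [← gt_cen, mul_inv_cancel_right]
    have hsup : M ⊔ Wg = ⊤ := by
      refine hM.2 _ (lt_of_le_of_ne le_sup_left ?_)
      intro he
      refine ha₀ ?_
      rw [he]
      exact (le_sup_right : Wg ≤ M ⊔ Wg) ⟨a₀, rfl⟩
    have hall : ∀ g : G, ∃ k ∈ M, ∃ a, g = k * Dg.e a 0 := by
      intro g
      have hg : g ∈ ((M ⊔ Wg : Subgroup G) : Set G) := by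
        rw [hsup]
        exact Subgroup.mem_top g
      rw [Subgroup.mul_normal M Wg] at hg
      obtain ⟨k, hk, z, ⟨a, rfl⟩, rfl⟩ := hg
      exact ⟨k, hk, a, rfl⟩
    have hn : M.Normal := by
      refine ⟨fun m' hm' g => ?_⟩
      obtain ⟨k, hk, a, rfl⟩ := hall g
      have e1 : k * Dg.e a 0 * m' * (k * Dg.e a 0)⁻¹ = k * m' * k⁻¹ := by
        rw [mul_assoc k, gt_cen Dg a m']
        group
      rw [e1]
      exact M.mul_mem (M.mul_mem hk hm') (M.inv_mem hk)
    have hq : ∀ q : G ⧸ M, ∃ a, q = (Dg.e a 0 : G ⧸ M) := by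
      intro q
      obtain ⟨g, rfl⟩ := QuotientGroup.mk_surjective q
      obtain ⟨k, hk, a, rfl⟩ := hall g
      refine ⟨a, ?_⟩
      rw [QuotientGroup.mk_mul, (QuotientGroup.eq_one_iff k).2 hk, one_mul]
    refine hM.1 (pgen_aux hp Dg H M hn hHM h2 ?_ ?_)
    · intro q r
      obtain ⟨a, rfl⟩ := hq q
      obtain ⟨b, rfl⟩ := hq r
      rw [← QuotientGroup.mk_mul, ← QuotientGroup.mk_mul, gt_cen]
    · intro q
      obtain ⟨a, rfl⟩ := hq q
      rw [← QuotientGroup.mk_pow, pgen_powp, pgen_bl0, smul_zero, gt_e0, QuotientGroup.mk_one]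

end H38.BG
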