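import Pool.Agent.H38.BG.TDef
import Pool.Agent.H63.MA.GGd

/-!
# [H38 BG PPI] the largest elementary abelian p-quotient, 60-110 lines. File Pool/Agent/H38/BG/PPi.lean

`gpi`: there are `m` and a surjective `π : G → (ZMod p)^m` such that every character `χ : G → ZMod p` is trivial on the kernel of `π`. `gpi_lin`: then `χ g = ∑ θ k (π g)_k` for some `θ`.

Proof. `gpi`: let `N` be the intersection of the kernels of all `χ : G →* Multiplicative (ZMod p)` (a normal subgroup). `G ⧸ N` is commutative and of exponent `p` (a commutator or a `p`-th power is killed by all `χ`), finite; so `G ⧸ N ≃ Multiplicative (Fin m → ZMod p)` as in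
`H63.MA.ggd_pi` (with `G ⧸ N` in place of the abelianization; give `G ⧸ N` a `CommGroup` structure, `ggd_ab` for `Additive`). `π` is the composition; `π g = 1` iff `g ∈ N`.
`gpi_lin`: `χ` factors through `π` (surjective, `ker π ≤ ker χ`): `χ g = F (π g)` with `F` additive from `(ZMod p)^m` to `ZMod p`, so linear over `ZMod p`, `F z = ∑ F(e_k) z_k`.
-/

set_option autoImplicit false

noncomputable section

namespace H38.BG

open H63.MA H38.BB

theorem gpi {p : ℕ} (hp : p.Prime) (G : Type) [Group G] [Finite G] :
    ∃ (m : ℕ) (π : G →* Multiplicative (Fin m → ZMod p)), Function.Surjective π ∧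
      ∀ (χ : G →* Multiplicative (ZMod p)) (g : G), π g = 1 → χ g = 1 := by
  have := Fact.mk hp
  let Φ : G →* ((G →* Multiplicative (ZMod p)) → Multiplicative (ZMod p)) :=
    { toFun := fun g χ => χ g
      map_one' := by
        funext χ
        exact map_one χ
      map_mul' := fun g h => by
        funext χ
        exact map_mul χ g h }
  have hfin : Finite Φ.range := Finite.of_surjective Φ.rangeRestrict Φ.rangeRestrict_surjective
  have hfin2 : Finite (Additive Φ.range) := hfin
  obtain ⟨m, ⟨e⟩⟩ := ggd_ab (p := p) (Additive Φ.range) (by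
    intro x
    have h1 : (Additive.toMul x) ^ p = 1 := by
      apply Subtype.ext
      funext χ
      change ((Additive.toMul x).1 χ) ^ p = 1
      have h2 : ∀ z : Multiplicative (ZMod p), z ^ p = 1 := by
        intro z
        apply Multiplicative.toAdd.injective
        rw [toAdd_pow, toAdd_one, nsmul_eq_mul, CharP.cast_eq_zero, zero_mul]
      exact h2 _
    exact h1)
  let E : Φ.range ≃* Multiplicative (Fin m → ZMod p) :=
    MulEquiv.mk ⟨fun x => Multiplicative.ofAdd (e (Additive.ofMul x)),
      fun y => Additive.toMul (e.symm (Multiplicative.toAdd y)), fun x => by simp, fun y => by simp⟩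
      (fun x y => by
        show Multiplicative.ofAdd (e (Additive.ofMul x + Additive.ofMul y)) = _
        rw [map_add]
        rfl)
  refine ⟨m, E.toMonoidHom.comp Φ.rangeRestrict, ?_, ?_⟩
  · intro y
    obtain ⟨z, hz⟩ := Φ.rangeRestrict_surjective (E.symm y)
    refine ⟨z, ?_⟩
    change E (Φ.rangeRestrict z) = y
    rw [hz, E.apply_symm_apply]
  · intro χ g h
    have h1 : E (Φ.rangeRestrict g) = 1 := h
    have h2 : Φ.rangeRestrict g = 1 := by
      rw [← E.map_one] at h1
      exact E.injective h1
    exact congrFun (congrArg Subtype.val h2) χ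

theorem gpi_lin {p : ℕ} (hp : p.Prime) {G : Type} [Group G] {m : ℕ}
    (π : G →* Multiplicative (Fin m → ZMod p)) (hs : Function.Surjective π)
    (hu : ∀ (χ : G →* Multiplicative (ZMod p)) (g : G), π g = 1 → χ g = 1)
    (χ : G →* Multiplicative (ZMod p)) :
    ∃ θ : Fin m → ZMod p, ∀ g, Multiplicative.toAdd (χ g) =
      ∑ k, θ k * Multiplicative.toAdd (π g) k := by
  have := Fact.mk hp
  have hwd : ∀ g h, π g = π h → χ g = χ h := by
    intro g h hgh
    have h1 : χ (g⁻¹ * h) = 1 := by
      apply hu
      rw [map_mul, map_inv, hgh, inv_mul_cancel]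
    rw [map_mul, map_inv, inv_mul_eq_one] at h1
    exact h1
  have hsec : ∀ z : Fin m → ZMod p, π (Function.surjInv hs (Multiplicative.ofAdd z)) =
      Multiplicative.ofAdd z := fun z => Function.surjInv_eq hs _
  let F : (Fin m → ZMod p) →+ ZMod p :=
    { toFun := fun z => Multiplicative.toAdd (χ (Function.surjInv hs (Multiplicative.ofAdd z)))
      map_zero' := by
        have h1 : χ (Function.surjInv hs (Multiplicative.ofAdd (0 : Fin m → ZMod p))) = χ 1 :=
          hwd _ _ (by rw [hsec, map_one]; rfl)
        rw [h1, map_one, toAdd_one]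
      map_add' := fun z w => by
        have h1 : χ (Function.surjInv hs (Multiplicative.ofAdd (z + w))) =
            χ (Function.surjInv hs (Multiplicative.ofAdd z) *
              Function.surjInv hs (Multiplicative.ofAdd w)) :=
          hwd _ _ (by rw [map_mul, hsec, hsec, hsec]; rfl)
        rw [h1, map_mul, toAdd_mul] }
  have hF : ∀ g, F (Multiplicative.toAdd (π g)) = Multiplicative.toAdd (χ g) := by
    intro g
    exact congrArg Multiplicative.toAdd (hwd _ g (hsec _))
  refine ⟨fun k => F (Pi.single k 1), fun g => ?_⟩
  rw [← hF]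
  exact ggd_dual (AddMonoidHom.toZModLinearMap p F) _

end H38.BG
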